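import Mathlib

/-!
# MP_e85462_co, upper bound: packing unit squares in a square of side `k + 1/2`
with waste `O(k^(3/5))`. Definitions.
-/

open MeasureTheory Set

namespace SqUp

/-- Placement of a unit square: corner `(x, y)` and unit side vector `(c, s)`. -/
structure Pl where
  x : ℝ
  y : ℝ
  c : ℝ
  s : ℝ
  h : c ^ 2 + s ^ 2 = 1

/-- The closed unit square of a placement. -/
def Pl.cl (P : Pl) : Set (ℝ × ℝ) :=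
  {z | ∃ a b : ℝ, 0 ≤ a ∧ a ≤ 1 ∧ 0 ≤ b ∧ b ≤ 1 ∧
    z.1 = P.x + a * P.c - b * P.s ∧ z.2 = P.y + a * P.s + b * P.c}

/-- The open unit square of a placement. -/
def Pl.op (P : Pl) : Set (ℝ × ℝ) :=
  {z | ∃ a b : ℝ, 0 < a ∧ a < 1 ∧ 0 < b ∧ b < 1 ∧
    z.1 = P.x + a * P.c - b * P.s ∧ z.2 = P.y + a * P.s + b * P.c}

/-- `PW R e`: the region `R` contains finitely many closed unit squares with pairwise disjoint
open squares, and the area of `R` is at most their number plus `e`. -/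
def PW (R : Set (ℝ × ℝ)) (e : ℝ) : Prop :=
  0 ≤ e ∧ ∃ (ι : Type) (_ : Fintype ι) (F : ι → Pl), (∀ i, (F i).cl ⊆ R) ∧
    (∀ i j, i ≠ j → Disjoint (F i).op (F j).op) ∧
    volume R ≤ ENNReal.ofReal ((Fintype.card ι : ℝ) + e)

/-- The trapezoid `0 ≤ x ≤ b + q y`, `0 ≤ y ≤ H`. -/
def Trap (b q H : ℝ) : Set (ℝ × ℝ) :=
  {z | 0 ≤ z.1 ∧ 0 ≤ z.2 ∧ z.2 ≤ H ∧ z.1 ≤ b + q * z.2}

/-- cosine of the angle with tangent `t` -/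
noncomputable def cs (t : ℝ) : ℝ := 1 / √(1 + t ^ 2)

/-- `1 / cs t - 1` -/
noncomputable def kap (t : ℝ) : ℝ := √(1 + t ^ 2) - 1

/-- `1 - cs t = 1 / (lam r t * r ^ 2)` -/
noncomputable def lam (r : ℕ) (t : ℝ) : ℝ := 1 / ((r : ℝ) ^ 2 * (1 - cs t))

/-- the next slope -/
noncomputable def nxt (r : ℕ) (t : ℝ) : ℝ := t + kap t / lam r t

/-- the next height -/
noncomputable def nxb (r : ℕ) (t β : ℝ) (n : ℕ) : ℝ :=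
  β + (r : ℝ) ^ 2 + t + kap t * ((r : ℝ) ^ 2 + 1) - kap t / lam r t * ((n : ℝ) - 4 * r)

/-- number of flat columns to the left of row `i` -/
noncomputable def fl (r : ℕ) (t : ℝ) (n i : ℕ) : ℕ :=
  ⌊(n : ℝ) + 1 - 4 * r - lam r t * ((r : ℝ) ^ 2 - i)⌋₊

/-- number of tilted rows over column `c` -/
noncomputable def ir (r : ℕ) (t : ℝ) (n c : ℕ) : ℕ :=
  ⌈(r : ℝ) ^ 2 - ((n : ℝ) - 4 * r - c) / lam r t⌉₊

/-- The part of the trapezoid below the line `y = t x + β`, or left of `x = g`. -/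
def Ereg (r : ℕ) (b H t β : ℝ) (g : ℕ) : Set (ℝ × ℝ) :=
  {z | z ∈ Trap b (1 / (r : ℝ) ^ 2) H ∧ (z.1 ≤ g ∨ z.2 ≤ t * z.1 + β)}

/-- Standing assumptions for one step. -/
structure Par (r : ℕ) (b t β : ℝ) (n : ℕ) : Prop where
  hr : 10 ≤ r
  hb1 : 4 * (r : ℝ) ^ 2 ≤ b
  hb2 : b ≤ 10 * (r : ℝ) ^ 2
  hn1 : b ≤ n
  hn2 : (n : ℝ) ≤ b + r
  ht1 : 1 / (r : ℝ) ≤ t
  ht2 : nxt r t ≤ 3 / (2 * r)
  hβ : 0 ≤ β
  /-- the line meets the wall at abscissa at least `n` -/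
  hW1 : (n : ℝ) * (1 - t / (r : ℝ) ^ 2) ≤ b + β / (r : ℝ) ^ 2
  /-- ... and at most `n + 1/r` -/
  hW2 : b + β / (r : ℝ) ^ 2 ≤ ((n : ℝ) + 1 / r) * (1 - t / (r : ℝ) ^ 2)

/-- the slopes of the lines in one superband -/
noncomputable def tt (r : ℕ) : ℕ → ℝ
  | 0 => 1 / (r : ℝ)
  | j + 1 => nxt r (tt r j)

/-- the first `n` -/
noncomputable def n0 (r : ℕ) (b : ℝ) : ℕ := ⌈b / (1 - 1 / (r : ℝ) ^ 3)⌉₊

/-- the heights of the lines in one superband -/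
noncomputable def bb (r : ℕ) (b : ℝ) : ℕ → ℝ
  | 0 => ((n0 r b : ℝ) - b) * (r : ℝ) ^ 2 - 1 / (r : ℝ) * (n0 r b : ℝ)
  | j + 1 => nxb r (tt r j) (bb r b j) (n0 r b + j)

/-- height at which line `j` meets the wall -/
noncomputable def YY (r : ℕ) (b : ℝ) (j : ℕ) : ℝ :=
  (bb r b j + tt r j * b) / (1 - tt r j / (r : ℝ) ^ 2)

/-- all the numerical facts about one step -/
structure Facts (r : ℕ) (b t β : ℝ) (n : ℕ) : Prop where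
  r10 : (10 : ℝ) ≤ r
  t0 : 0 < t
  t1 : t ≤ 3 / (2 * r)
  tn : t ≤ nxt r t
  lam0 : 8 / 9 ≤ lam r t
  lam1 : lam r t ≤ 2 + 2 / (r : ℝ) ^ 2
  lamn0 : 8 / 9 ≤ lam r (nxt r t)
  lamn1 : lam r (nxt r t) ≤ lam r t
  k0 : 0 ≤ kap t
  k1 : kap t ≤ 9 / (8 * (r : ℝ) ^ 2)
  kl0 : 0 ≤ kap t / lam r t
  kl1 : kap t / lam r t ≤ 13 / (10 * (r : ℝ) ^ 2)
  lam_eq : lam r t * ((r : ℝ) ^ 2 * (1 - cs t)) = 1
  c0 : 49 / 50 ≤ cs t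
  c1 : cs t ≤ 1
  ic : 1 / cs t = 1 + kap t
  qt : t / (r : ℝ) ^ 2 ≤ 3 / 2000
  qtn : nxt r t / (r : ℝ) ^ 2 ≤ 3 / 2000
  n1 : 4 * (r : ℝ) ^ 2 ≤ n
  n2 : 40 * (r : ℝ) ≤ n
  n3 : 40 * r ≤ n
  lr : lam r t * (r : ℝ) ^ 2 ≤ 203 / 100 * (r : ℝ) ^ 2

/-- cell of the tilted row `i` -/
def rowC (r : ℕ) (b t β : ℝ) (n i : ℕ) : Set (ℝ × ℝ) :=
  {z | (fl r t n i : ℝ) ≤ z.1 ∧ z.1 ≤ b + 1 / (r : ℝ) ^ 2 * z.2 ∧
    t * z.1 + (β + i / cs t) ≤ z.2 ∧ z.2 ≤ t * z.1 + (β + i / cs t) + 1 / cs t}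

/-- flat column `c` between the tilted rows and the line of slope `s` and height `a` -/
def colC (r : ℕ) (t β : ℝ) (n c : ℕ) (s a : ℝ) : Set (ℝ × ℝ) :=
  {z | (c : ℝ) ≤ z.1 ∧ z.1 ≤ (c : ℝ) + 1 ∧ t * z.1 + (β + ir r t n c / cs t) ≤ z.2 ∧
    z.2 ≤ s * z.1 + a}

/-- the part near the wall between the last tilted row and the next line -/
def gapC (r : ℕ) (b t β : ℝ) (n : ℕ) : Set (ℝ × ℝ) :=
  {z | (n : ℝ) - 4 * r ≤ z.1 ∧ z.1 ≤ b + 1 / (r : ℝ) ^ 2 * z.2 ∧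
    t * z.1 + (β + (r : ℝ) ^ 2 / cs t) ≤ z.2 ∧ z.2 ≤ nxt r t * z.1 + nxb r t β n}

/-- upper line of the flat column `c` -/
noncomputable def upS (r : ℕ) (t : ℝ) (g' c : ℕ) : ℝ := if c < g' then 0 else nxt r t

noncomputable def upA (r : ℕ) (t β H : ℝ) (n g' c : ℕ) : ℝ := if c < g' then H else nxb r t β n

/-- the box `[0, L] × [0, K]` -/
def Box (L K : ℝ) : Set (ℝ × ℝ) := {z | 0 ≤ z.1 ∧ z.1 ≤ L ∧ 0 ≤ z.2 ∧ z.2 ≤ K}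

end SqUp
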