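import Pool.Agent.Lib.MP_e85462_co.U.Defs

open MeasureTheory Set

namespace SqUp

/-- coordinates in the frame of the placement -/
noncomputable def A1_hom (P : Pl) : (ℝ × ℝ) ≃ₜ (ℝ × ℝ) where
  toFun z := ((z.1 - P.x) * P.c + (z.2 - P.y) * P.s, -(z.1 - P.x) * P.s + (z.2 - P.y) * P.c)
  invFun w := (P.x + w.1 * P.c - w.2 * P.s, P.y + w.1 * P.s + w.2 * P.c)
  left_inv z := by
    have h := P.h
    apply Prod.ext
    · simp only
      linear_combination (z.1 - P.x) * h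
    · simp only
      linear_combination (z.2 - P.y) * h
  right_inv w := by
    have h := P.h
    apply Prod.ext
    · simp only
      linear_combination w.1 * h
    · simp only
      linear_combination w.2 * h
  continuous_toFun := by fun_prop
  continuous_invFun := by fun_prop

theorem A1_cl (P : Pl) : P.cl = A1_hom P ⁻¹' (Icc (0 : ℝ) 1 ×ˢ Icc (0 : ℝ) 1) := by
  ext z
  constructor
  · rintro ⟨a, b, ha0, ha1, hb0, hb1, h1, h2⟩
    have hz : z = (A1_hom P).symm (a, b) := Prod.ext h1 h2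
    rw [hz]
    simp only [mem_preimage, Homeomorph.apply_symm_apply]
    exact ⟨⟨ha0, ha1⟩, ⟨hb0, hb1⟩⟩
  · intro h
    obtain ⟨⟨ha0, ha1⟩, ⟨hb0, hb1⟩⟩ := h
    have hz : (A1_hom P).symm (A1_hom P z) = z := (A1_hom P).symm_apply_apply z
    exact ⟨(A1_hom P z).1, (A1_hom P z).2, ha0, ha1, hb0, hb1, (congrArg Prod.fst hz).symm,
      (congrArg Prod.snd hz).symm⟩

theorem A1_op (P : Pl) : P.op = A1_hom P ⁻¹' (Ioo (0 : ℝ) 1 ×ˢ Ioo (0 : ℝ) 1) := by
  ext z
  constructor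
  · rintro ⟨a, b, ha0, ha1, hb0, hb1, h1, h2⟩
    have hz : z = (A1_hom P).symm (a, b) := Prod.ext h1 h2
    rw [hz]
    simp only [mem_preimage, Homeomorph.apply_symm_apply]
    exact ⟨⟨ha0, ha1⟩, ⟨hb0, hb1⟩⟩
  · intro h
    obtain ⟨⟨ha0, ha1⟩, ⟨hb0, hb1⟩⟩ := h
    have hz : (A1_hom P).symm (A1_hom P z) = z := (A1_hom P).symm_apply_apply z
    exact ⟨(A1_hom P z).1, (A1_hom P z).2, ha0, ha1, hb0, hb1, (congrArg Prod.fst hz).symm,
      (congrArg Prod.snd hz).symm⟩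

theorem op_isOpen (P : Pl) : IsOpen P.op := by
  rw [A1_op]
  exact (isOpen_Ioo.prod isOpen_Ioo).preimage (A1_hom P).continuous

theorem op_sub_cl (P : Pl) : P.op ⊆ P.cl := by
  rintro z ⟨a, b, ha0, ha1, hb0, hb1, h1, h2⟩
  exact ⟨a, b, ha0.le, ha1.le, hb0.le, hb1.le, h1, h2⟩

theorem interior_cl (P : Pl) : interior P.cl = P.op := by
  rw [A1_cl, A1_op, ← (A1_hom P).preimage_interior, interior_prod_eq, interior_Icc]

end SqUp
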