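import Pool.Agent.Lib.MP_e85462_co.U.Defs

open MeasureTheory Set

namespace SqUp

theorem vol_line (a b c : ℝ) (h : a ≠ 0 ∨ b ≠ 0) :
    volume {z : ℝ × ℝ | a * z.1 + b * z.2 = c} = 0 := by
  by_cases hb : b = 0
  · have ha : a ≠ 0 := by
      rcases h with h | h
      · exact h
      · exact absurd hb h
    have hsub : {z : ℝ × ℝ | a * z.1 + b * z.2 = c} ⊆ ({c / a} : Set ℝ) ×ˢ (univ : Set ℝ) := by
      intro z hz
      have hz' : a * z.1 + b * z.2 = c := hz
      rw [hb, zero_mul, add_zero] at hz'
      refine ⟨?_, trivial⟩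
      show z.1 = c / a
      rw [eq_div_iff ha, mul_comm]
      exact hz'
    refine measure_mono_null hsub ?_
    rw [Measure.volume_eq_prod, Measure.prod_prod, Real.volume_singleton, zero_mul]
  · have hmeas : MeasurableSet {z : ℝ × ℝ | a * z.1 + b * z.2 = c} := by
      apply measurableSet_eq_fun
      · fun_prop
      · fun_prop
    rw [Measure.volume_eq_prod, Measure.measure_prod_null hmeas]
    refine Filter.Eventually.of_forall fun x => ?_
    show volume (Prod.mk x ⁻¹' {z : ℝ × ℝ | a * z.1 + b * z.2 = c}) = 0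
    have hsub : Prod.mk x ⁻¹' {z : ℝ × ℝ | a * z.1 + b * z.2 = c} ⊆ {(c - a * x) / b} := by
      intro y hy
      have hy' : a * x + b * y = c := hy
      show y = (c - a * x) / b
      rw [eq_div_iff hb]
      linarith
    exact measure_mono_null hsub Real.volume_singleton

end SqUp
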