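import Pool.Agent.Lib.MP_e85462_co.U.Defs

open MeasureTheory Set

namespace SqUp

theorem A3_closed (x0 x1 s a T : ℝ) :
    IsClosed {z : ℝ × ℝ | x0 ≤ z.1 ∧ z.1 ≤ x1 ∧ s * z.1 + a ≤ z.2 ∧ z.2 ≤ s * z.1 + a + T} := by
  have h1 : IsClosed {z : ℝ × ℝ | x0 ≤ z.1} := isClosed_le continuous_const continuous_fst
  have h2 : IsClosed {z : ℝ × ℝ | z.1 ≤ x1} := isClosed_le continuous_fst continuous_const
  have h3 : IsClosed {z : ℝ × ℝ | s * z.1 + a ≤ z.2} := isClosed_le (by fun_prop) continuous_snd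
  have h4 : IsClosed {z : ℝ × ℝ | z.2 ≤ s * z.1 + a + T} :=
    isClosed_le continuous_snd (by fun_prop)
  exact h1.inter (h2.inter (h3.inter h4))

theorem vol_strip (x0 x1 s a T : ℝ) (hx : x0 ≤ x1) (hT : 0 ≤ T) :
    volume {z : ℝ × ℝ | x0 ≤ z.1 ∧ z.1 ≤ x1 ∧ s * z.1 + a ≤ z.2 ∧ z.2 ≤ s * z.1 + a + T}
      ≤ ENNReal.ofReal ((x1 - x0) * T) := by
  rw [Measure.volume_eq_prod, Measure.prod_apply (A3_closed x0 x1 s a T).measurableSet]
  calc ∫⁻ x : ℝ, volume (Prod.mk x ⁻¹' {z : ℝ × ℝ | x0 ≤ z.1 ∧ z.1 ≤ x1 ∧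
        s * z.1 + a ≤ z.2 ∧ z.2 ≤ s * z.1 + a + T})
      ≤ ∫⁻ x : ℝ, (Icc x0 x1).indicator (fun _ => ENNReal.ofReal T) x := by
        apply lintegral_mono
        intro x
        by_cases hxm : x ∈ Icc x0 x1
        · rw [indicator_of_mem hxm]
          refine (measure_mono (t := Icc (s * x + a) (s * x + a + T)) ?_).trans ?_
          · rintro y ⟨_, _, h3, h4⟩
            exact ⟨h3, h4⟩
          · rw [Real.volume_Icc]
            apply ENNReal.ofReal_le_ofReal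
            linarith
        · have : Prod.mk x ⁻¹' {z : ℝ × ℝ | x0 ≤ z.1 ∧ z.1 ≤ x1 ∧
              s * z.1 + a ≤ z.2 ∧ z.2 ≤ s * z.1 + a + T} = ∅ := by
            rw [eq_empty_iff_forall_notMem]
            rintro y ⟨h1, h2, _, _⟩
            exact hxm ⟨h1, h2⟩
          show volume (Prod.mk x ⁻¹' _) ≤ _
          rw [this, measure_empty]
          exact zero_le
    _ = ENNReal.ofReal ((x1 - x0) * T) := by
        rw [lintegral_indicator measurableSet_Icc, lintegral_const, Measure.restrict_apply_univ,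
          Real.volume_Icc, ENNReal.ofReal_mul (by linarith), mul_comm]

theorem vol_strip' (y0 y1 s a T : ℝ) (hy : y0 ≤ y1) (hT : 0 ≤ T) :
    volume {z : ℝ × ℝ | y0 ≤ z.2 ∧ z.2 ≤ y1 ∧ s * z.2 + a ≤ z.1 ∧ z.1 ≤ s * z.2 + a + T}
      ≤ ENNReal.ofReal ((y1 - y0) * T) := by
  have h := vol_strip y0 y1 s a T hy hT
  have hmp : MeasurePreserving (Prod.swap : ℝ × ℝ → ℝ × ℝ) volume volume :=
    Measure.measurePreserving_swap
  have h2 := hmp.measure_preimage (A3_closed y0 y1 s a T).measurableSet.nullMeasurableSet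
  rw [← h2] at h
  exact h

end SqUp
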