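import Pool.Agent.Lib.MP_e85462_co.U.A1

open MeasureTheory Set

namespace SqUp

theorem A4_disj {A B : Set (ℝ × ℝ)} (h : volume (A ∩ B) = 0) {P Q : Pl} (hP : P.cl ⊆ A)
    (hQ : Q.cl ⊆ B) : Disjoint P.op Q.op := by
  rw [Set.disjoint_iff_inter_eq_empty]
  have h1 : IsOpen (P.op ∩ Q.op) := (op_isOpen P).inter (op_isOpen Q)
  have h2 : volume (P.op ∩ Q.op) = 0 :=
    measure_mono_null (inter_subset_inter ((op_sub_cl P).trans hP) ((op_sub_cl Q).trans hQ)) h
  exact (h1.measure_eq_zero_iff volume).1 h2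

theorem PW.union {A B : Set (ℝ × ℝ)} {a b : ℝ} (hA : PW A a) (hB : PW B b)
    (h : volume (A ∩ B) = 0) : PW (A ∪ B) (a + b) := by
  obtain ⟨ha0, ι, iι, F, hF1, hF2, hF3⟩ := hA
  obtain ⟨hb0, κ, iκ, G, hG1, hG2, hG3⟩ := hB
  refine ⟨add_nonneg ha0 hb0, ι ⊕ κ, inferInstance, Sum.elim F G, ?_, ?_, ?_⟩
  · rintro (i | i)
    · exact (hF1 i).trans subset_union_left
    · exact (hG1 i).trans subset_union_right
  · rintro (i | i) (j | j) hij
    · exact hF2 i j fun e => hij (by rw [e])
    · exact A4_disj h (hF1 i) (hG1 j)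
    · exact (A4_disj h (hF1 j) (hG1 i)).symm
    · exact hG2 i j fun e => hij (by rw [e])
  · refine (measure_union_le A B).trans ((add_le_add hF3 hG3).trans ?_)
    rw [← ENNReal.ofReal_add (by positivity) (by positivity)]
    refine ENNReal.ofReal_le_ofReal (le_of_eq ?_)
    rw [Fintype.card_sum]
    push_cast
    ring

theorem PW.biUnion {κ : Type} (s : Finset κ) (A : κ → Set (ℝ × ℝ)) (e : κ → ℝ)
    (h : ∀ i ∈ s, PW (A i) (e i))
    (hd : ∀ i ∈ s, ∀ j ∈ s, i ≠ j → volume (A i ∩ A j) = 0) :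
    PW (⋃ i ∈ s, A i) (∑ i ∈ s, e i) := by
  classical
  induction s using Finset.induction_on with
  | empty =>
    refine ⟨by simp, Empty, inferInstance, fun i => i.elim, fun i => i.elim, fun i => i.elim, ?_⟩
    simp
  | insert a s has ih =>
    have h1 := ih (fun i hi => h i (Finset.mem_insert_of_mem hi))
      (fun i hi j hj hij => hd i (Finset.mem_insert_of_mem hi) j (Finset.mem_insert_of_mem hj) hij)
    rw [Finset.set_biUnion_insert, Finset.sum_insert has]
    refine (h a (Finset.mem_insert_self a s)).union h1 ?_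
    rw [inter_iUnion₂]
    refine (measure_biUnion_null_iff s.countable_toSet).2 ?_
    intro i hi
    exact hd a (Finset.mem_insert_self a s) i (Finset.mem_insert_of_mem hi)
      (fun e => has (e ▸ hi))

end SqUp
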