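import Pool.Agent.Lib.MP_e85462_co.U.Defs

open MeasureTheory Set

namespace SqUp

theorem PW.super {A B : Set (ℝ × ℝ)} {a e : ℝ} (hA : PW A a) (hAB : A ⊆ B) (he : 0 ≤ e)
    (hv : volume (B \ A) ≤ ENNReal.ofReal e) : PW B (a + e) := by
  obtain ⟨ha, ι, hι, F, h1, h2, h3⟩ := hA
  refine ⟨add_nonneg ha he, ι, hι, F, fun i => (h1 i).trans hAB, h2, ?_⟩
  have h4 : B = A ∪ (B \ A) := (union_sdiff_cancel hAB).symm
  calc volume B = volume (A ∪ (B \ A)) := by rw [← h4]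
    _ ≤ volume A + volume (B \ A) := measure_union_le _ _
    _ ≤ ENNReal.ofReal ((Fintype.card ι : ℝ) + a) + ENNReal.ofReal e := add_le_add h3 hv
    _ = ENNReal.ofReal ((Fintype.card ι : ℝ) + a + e) :=
      (ENNReal.ofReal_add (add_nonneg (Nat.cast_nonneg _) ha) he).symm
    _ = ENNReal.ofReal ((Fintype.card ι : ℝ) + (a + e)) := by rw [add_assoc]

theorem PW.of_vol {A : Set (ℝ × ℝ)} {e : ℝ} (he : 0 ≤ e)
    (hv : volume A ≤ ENNReal.ofReal e) : PW A e := by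
  refine ⟨he, Empty, inferInstance, fun i => i.elim, fun i => i.elim, fun i => i.elim, ?_⟩
  simpa using hv

theorem PW.mono {A : Set (ℝ × ℝ)} {a a' : ℝ} (h : PW A a) (h' : a ≤ a') : PW A a' := by
  obtain ⟨ha, ι, hι, F, h1, h2, h3⟩ := h
  exact ⟨ha.trans h', ι, hι, F, h1, h2,
    h3.trans (ENNReal.ofReal_le_ofReal (by linarith))⟩

end SqUp
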