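import Pool.Agent.Lib.MP_e85462_co.U.Defs

open MeasureTheory Set

namespace SqUp

/-- one column of flat squares between two lines -/
theorem PW.col (x0 s1 a1 s2 a2 : ℝ) (n : ℕ) (h1 : 0 ≤ s1) (h2 : 0 ≤ s2)
    (hn : (n : ℝ) ≤ s2 * x0 + a2 - (s1 * (x0 + 1) + a1)) :
    PW {z : ℝ × ℝ | x0 ≤ z.1 ∧ z.1 ≤ x0 + 1 ∧ s1 * z.1 + a1 ≤ z.2 ∧ z.2 ≤ s2 * z.1 + a2}
      (s2 * (x0 + 1) + a2 - (s1 * x0 + a1) - n) := by
  refine ⟨by linarith, Fin n, inferInstance,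
    fun i => ⟨x0, s1 * (x0 + 1) + a1 + (i : ℕ), 1, 0, by norm_num⟩, ?_, ?_, ?_⟩
  · rintro i z ⟨a, b, ha0, ha1, hb0, hb1, hz1, hz2⟩
    simp only at hz1 hz2
    have hi : ((i : ℕ) : ℝ) + 1 ≤ n := by
      have := i.2
      exact_mod_cast this
    have hi0 : (0 : ℝ) ≤ ((i : ℕ) : ℝ) := Nat.cast_nonneg _
    refine ⟨by linarith, by linarith, ?_, ?_⟩
    · have h3 : s1 * z.1 ≤ s1 * (x0 + 1) := mul_le_mul_of_nonneg_left (by linarith) h1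
      linarith
    · have h3 : s2 * x0 ≤ s2 * z.1 := mul_le_mul_of_nonneg_left (by linarith) h2
      linarith
  · intro i j hij
    rw [Set.disjoint_left]
    rintro z ⟨a, b, -, -, hb0, hb1, -, hz⟩ ⟨a', b', -, -, hb0', hb1', -, hz'⟩
    simp only at hz hz'
    apply hij
    have h3 : ((i : ℕ) : ℝ) < (j : ℕ) + 1 := by linarith
    have h4 : ((j : ℕ) : ℝ) < (i : ℕ) + 1 := by linarith
    have h5 : (i : ℕ) < (j : ℕ) + 1 := by exact_mod_cast h3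
    have h6 : (j : ℕ) < (i : ℕ) + 1 := by exact_mod_cast h4
    exact Fin.ext (by omega)
  · have hsub : {z : ℝ × ℝ | x0 ≤ z.1 ∧ z.1 ≤ x0 + 1 ∧ s1 * z.1 + a1 ≤ z.2 ∧
        z.2 ≤ s2 * z.1 + a2} ⊆
        Icc x0 (x0 + 1) ×ˢ Icc (s1 * x0 + a1) (s2 * (x0 + 1) + a2) := by
      rintro z ⟨hz1, hz2, hz3, hz4⟩
      refine ⟨⟨hz1, hz2⟩, ?_, ?_⟩
      · have h3 : s1 * x0 ≤ s1 * z.1 := mul_le_mul_of_nonneg_left hz1 h1
        linarith
      · have h3 : s2 * z.1 ≤ s2 * (x0 + 1) := mul_le_mul_of_nonneg_left hz2 h2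
        linarith
    refine (measure_mono hsub).trans ?_
    rw [Measure.volume_eq_prod, Measure.prod_prod, Real.volume_Icc, Real.volume_Icc,
      ← ENNReal.ofReal_mul (by linarith)]
    refine ENNReal.ofReal_le_ofReal ?_
    rw [Fintype.card_fin]
    linarith

end SqUp
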