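import Pool.Agent.Lib.MP_e85462_co.U.Defs

open MeasureTheory Set

namespace SqUp

private theorem C1_sqrt_pos (t : ℝ) : 0 < √(1 + t ^ 2) := Real.sqrt_pos.2 (by positivity)

private theorem C1_sqrt_sq (t : ℝ) : √(1 + t ^ 2) ^ 2 = 1 + t ^ 2 := Real.sq_sqrt (by positivity)

private theorem C1_one_le (t : ℝ) : 1 ≤ √(1 + t ^ 2) := by
  have h := Real.sqrt_le_sqrt (show (1 : ℝ) ≤ 1 + t ^ 2 by nlinarith [sq_nonneg t])
  rwa [Real.sqrt_one] at h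

theorem cs_pos (t : ℝ) : 0 < cs t := one_div_pos.2 (C1_sqrt_pos t)

theorem cs_le_one (t : ℝ) : cs t ≤ 1 := by
  rw [cs, div_le_one (C1_sqrt_pos t)]
  exact C1_one_le t

theorem one_div_cs (t : ℝ) : 1 / cs t = 1 + kap t := by
  rw [cs, kap, one_div_one_div]
  ring

theorem cs_sq (t : ℝ) : cs t ^ 2 * (1 + t ^ 2) = 1 := by
  rw [cs, div_pow, C1_sqrt_sq, one_pow, one_div_mul_cancel]
  positivity

theorem kap_nonneg (t : ℝ) : 0 ≤ kap t := by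
  have := C1_one_le t
  rw [kap]
  linarith

theorem kap_le (t : ℝ) : kap t ≤ t ^ 2 / 2 := by
  have h1 := C1_sqrt_sq t
  have h2 := C1_sqrt_pos t
  rw [kap]
  nlinarith [sq_nonneg (√(1 + t ^ 2) - 1)]

theorem one_sub_cs_le (t : ℝ) : 1 - cs t ≤ t ^ 2 / 2 := by
  have h1 := one_div_cs t
  have h2 := cs_pos t
  have h3 := cs_le_one t
  have h4 := kap_le t
  have h5 : 1 = cs t * (1 + kap t) := by
    rw [← h1, mul_one_div_cancel h2.ne']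
  have h6 := kap_nonneg t
  nlinarith [mul_nonneg h6 (sub_nonneg.2 h3)]

theorem one_sub_cs_ge (t : ℝ) : t ^ 2 / 2 - 3 * t ^ 4 / 8 ≤ 1 - cs t := by
  have h1 := cs_sq t
  have h2 := cs_pos t
  obtain ⟨u, hu⟩ : ∃ u, u = t ^ 2 := ⟨_, rfl⟩
  have hu0 : 0 ≤ u := by rw [hu]; positivity
  have hu4 : t ^ 4 = u ^ 2 := by rw [hu]; ring
  rw [hu4, ← hu]
  rw [← hu] at h1
  have hp : 0 < 1 - u / 2 + 3 * u ^ 2 / 8 := by nlinarith [sq_nonneg (u - 2 / 3)]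
  have h3 : 1 ≤ (1 - u / 2 + 3 * u ^ 2 / 8) ^ 2 * (1 + u) := by
    have h4 : 0 ≤ u ^ 3 * (5 / 8 - 15 / 64 * u + 9 / 64 * u ^ 2) := by
      apply mul_nonneg (pow_nonneg hu0 3)
      nlinarith [sq_nonneg (u - 5 / 6)]
    have h5 : (1 - u / 2 + 3 * u ^ 2 / 8) ^ 2 * (1 + u) =
        1 + u ^ 3 * (5 / 8 - 15 / 64 * u + 9 / 64 * u ^ 2) := by ring
    rw [h5]
    linarith
  have h6 : cs t ^ 2 ≤ (1 - u / 2 + 3 * u ^ 2 / 8) ^ 2 := by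
    have h7 : 0 < 1 + u := by linarith
    exact le_of_mul_le_mul_right (h1.le.trans h3) h7
  have h8 := (abs_le_of_sq_le_sq' h6 hp.le).2
  linarith

theorem one_sub_cs_mono {t t' : ℝ} (h0 : 0 ≤ t) (h : t ≤ t') : 1 - cs t ≤ 1 - cs t' := by
  have h1 : t ^ 2 ≤ t' ^ 2 := pow_le_pow_left₀ h0 h 2
  have h2 : √(1 + t ^ 2) ≤ √(1 + t' ^ 2) := Real.sqrt_le_sqrt (by linarith)
  have h3 : cs t' ≤ cs t := one_div_le_one_div_of_le (C1_sqrt_pos t) h2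
  linarith

end SqUp
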