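import Pool.Agent.Lib.MP_e85462_co.U.A3
import Pool.Agent.Lib.MP_e85462_co.U.C1

open MeasureTheory Set

namespace SqUp

/-- the placement number `m` of a tilted row -/
noncomputable def B2_pl (f t β : ℝ) (m : ℕ) : Pl where
  x := f + t * cs t + m * cs t
  y := t * (f + t * cs t + m * cs t) + β
  c := cs t
  s := t * cs t
  h := by
    have h := cs_sq t
    linear_combination h

theorem B2_ts (t : ℝ) : cs t + t * (t * cs t) = 1 / cs t := by
  have h := cs_sq t
  have h0 := (cs_pos t).ne'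
  field_simp
  linear_combination h

/-- one tilted row between the vertical line `x = f` and the wall `x = b + q y` -/
theorem PW.row (f b q t β : ℝ) (N : ℕ) (ht : 0 ≤ t) (hq : 0 ≤ q) (hqt : q * t < 1)
    (hN : (f + t * cs t + N * cs t) * (1 - q * t) ≤ b + q * β) :
    PW {z : ℝ × ℝ | f ≤ z.1 ∧ z.1 ≤ b + q * z.2 ∧ t * z.1 + β ≤ z.2 ∧
        z.2 ≤ t * z.1 + β + 1 / cs t}
      (((b + q * (β + 1 / cs t)) / (1 - q * t) - f) / cs t - N) := by
  have hc := cs_pos t
  have hc0 := hc.ne'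
  have hts := B2_ts t
  have hs : 0 ≤ t * cs t := mul_nonneg ht hc.le
  have hd : 0 < 1 - q * t := by linarith
  have hT : 0 < 1 / cs t := by positivity
  set x1 : ℝ := (b + q * (β + 1 / cs t)) / (1 - q * t) with hx1
  have hx1' : x1 * (1 - q * t) = b + q * (β + 1 / cs t) := by
    rw [hx1]; field_simp
  have hlow : f + t * cs t + N * cs t ≤ x1 := by
    have h1 : (f + t * cs t + N * cs t) * (1 - q * t) ≤ x1 * (1 - q * t) := by
      rw [hx1']
      have := mul_nonneg hq hT.le
      linarith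
    exact le_of_mul_le_mul_right h1 hd
  have hNc : (0 : ℝ) ≤ N * cs t := by positivity
  have he : 0 ≤ (x1 - f) / cs t - N := by
    rw [sub_nonneg, le_div_iff₀ hc]
    linarith
  refine ⟨he, Fin N, inferInstance, fun m => B2_pl f t β m, ?_, ?_, ?_⟩
  · rintro ⟨m, hm⟩ z ⟨a, b', ha0, ha1, hb0, hb1, h1, h2⟩
    have h1' : z.1 = (f + t * cs t + m * cs t) + a * cs t - b' * (t * cs t) := h1
    have h2' : z.2 = (t * (f + t * cs t + m * cs t) + β) + a * (t * cs t) + b' * cs t := h2
    have hm0 : (0 : ℝ) ≤ m := Nat.cast_nonneg m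
    have hmN : (m : ℝ) + 1 ≤ N := by exact_mod_cast hm
    have key : z.2 - (t * z.1 + β) = b' * (1 / cs t) := by
      rw [h1', h2', ← hts]; ring
    refine ⟨?_, ?_, ?_, ?_⟩
    · rw [h1']
      have e1 : 0 ≤ m * cs t := mul_nonneg hm0 hc.le
      have e2 : 0 ≤ a * cs t := mul_nonneg ha0 hc.le
      have e3 : b' * (t * cs t) ≤ 1 * (t * cs t) := mul_le_mul_of_nonneg_right hb1 hs
      linarith
    · have e1 : z.1 - q * z.2 = (f + t * cs t + m * cs t) * (1 - q * t) - q * β +
          a * (cs t * (1 - q * t)) - b' * (t * cs t + q * cs t) := by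
        rw [h1', h2']; ring
      have e2 : a * (cs t * (1 - q * t)) ≤ 1 * (cs t * (1 - q * t)) :=
        mul_le_mul_of_nonneg_right ha1 (mul_nonneg hc.le hd.le)
      have e3 : 0 ≤ b' * (t * cs t + q * cs t) :=
        mul_nonneg hb0 (add_nonneg hs (mul_nonneg hq hc.le))
      have e4 : (f + t * cs t + m * cs t) * (1 - q * t) + 1 * (cs t * (1 - q * t)) ≤
          (f + t * cs t + N * cs t) * (1 - q * t) := by
        have e5 : (f + t * cs t + m * cs t) * (1 - q * t) + 1 * (cs t * (1 - q * t)) =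
            (f + t * cs t + (m + 1) * cs t) * (1 - q * t) := by ring
        rw [e5]
        apply mul_le_mul_of_nonneg_right _ hd.le
        have := mul_le_mul_of_nonneg_right hmN hc.le
        linarith
      linarith
    · have : 0 ≤ b' * (1 / cs t) := mul_nonneg hb0 hT.le
      linarith
    · have : b' * (1 / cs t) ≤ 1 * (1 / cs t) := mul_le_mul_of_nonneg_right hb1 hT.le
      linarith
  · intro i j hij
    rw [Set.disjoint_left]
    rintro z ⟨a, b', ha0, ha1, hb0, hb1, h1, h2⟩ ⟨a2, b2, ga0, ga1, gb0, gb1, g1, g2⟩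
    have h1' : z.1 = (f + t * cs t + (i : ℕ) * cs t) + a * cs t - b' * (t * cs t) := h1
    have h2' : z.2 = (t * (f + t * cs t + (i : ℕ) * cs t) + β) + a * (t * cs t) + b' * cs t := h2
    have g1' : z.1 = (f + t * cs t + (j : ℕ) * cs t) + a2 * cs t - b2 * (t * cs t) := g1
    have g2' : z.2 = (t * (f + t * cs t + (j : ℕ) * cs t) + β) + a2 * (t * cs t) + b2 * cs t := g2
    have hcs := cs_sq t
    have k1 : z.1 * cs t + z.2 * (t * cs t) =
        (f + t * cs t) * (cs t * (1 + t ^ 2)) + β * (t * cs t) + ((i : ℕ) + a) := by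
      rw [h1', h2']
      linear_combination ((i : ℕ) + a : ℝ) * hcs
    have k2 : z.1 * cs t + z.2 * (t * cs t) =
        (f + t * cs t) * (cs t * (1 + t ^ 2)) + β * (t * cs t) + ((j : ℕ) + a2) := by
      rw [g1', g2']
      linear_combination ((j : ℕ) + a2 : ℝ) * hcs
    have k3 : ((i : ℕ) : ℝ) + a = (j : ℕ) + a2 := by linarith
    rcases lt_trichotomy (i : ℕ) (j : ℕ) with h | h | h
    · have : ((i : ℕ) : ℝ) + 1 ≤ (j : ℕ) := by exact_mod_cast h
      linarith
    · exact hij (Fin.ext h)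
    · have : ((j : ℕ) : ℝ) + 1 ≤ (i : ℕ) := by exact_mod_cast h
      linarith
  · have hsub : {z : ℝ × ℝ | f ≤ z.1 ∧ z.1 ≤ b + q * z.2 ∧ t * z.1 + β ≤ z.2 ∧
        z.2 ≤ t * z.1 + β + 1 / cs t} ⊆
        {z : ℝ × ℝ | f ≤ z.1 ∧ z.1 ≤ x1 ∧ t * z.1 + β ≤ z.2 ∧ z.2 ≤ t * z.1 + β + 1 / cs t} := by
      rintro z ⟨z1, z2, z3, z4⟩
      refine ⟨z1, ?_, z3, z4⟩
      have e1 : q * z.2 ≤ q * (t * z.1 + β + 1 / cs t) := mul_le_mul_of_nonneg_left z4 hq
      have e2 : z.1 * (1 - q * t) ≤ x1 * (1 - q * t) := by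
        rw [hx1']
        linarith
      exact le_of_mul_le_mul_right e2 hd
    refine (measure_mono hsub).trans ?_
    have hfx : f ≤ x1 := by linarith
    refine (vol_strip f x1 t β (1 / cs t) hfx hT.le).trans ?_
    apply ENNReal.ofReal_le_ofReal
    rw [Fintype.card_fin]
    have : (x1 - f) * (1 / cs t) = N + ((x1 - f) / cs t - N) := by ring
    rw [this]

end SqUp
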