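import Pool.Agent.Lib.MP_e85462_co.U.A3
import Pool.Agent.Lib.MP_e85462_co.U.C1

open MeasureTheory Set

namespace SqUp

private theorem B3_unit (q : ℝ) : cs q ^ 2 + (-(q * cs q)) ^ 2 = 1 := by
  have h := cs_sq q
  linear_combination h

/-- the placements -/
private noncomputable def B3_F (B q : ℝ) (j : ℕ) : Pl where
  x := B + q * (q * cs q + j * cs q)
  y := q * cs q + j * cs q
  c := cs q
  s := -(q * cs q)
  h := B3_unit q

/-- one tilted bar between two horizontal lines -/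
theorem PW.bar (B q K : ℝ) (m : ℕ) (hq : 0 ≤ q) (hm : (m : ℝ) * cs q + q * cs q ≤ K) :
    PW {z : ℝ × ℝ | 0 ≤ z.2 ∧ z.2 ≤ K ∧ B + q * z.2 ≤ z.1 ∧ z.1 ≤ B + q * z.2 + 1 / cs q}
      (K / cs q - m) := by
  have hc := cs_pos q
  have hc1 := cs_sq q
  have hs : 0 ≤ q * cs q := mul_nonneg hq hc.le
  have hm0 : 0 ≤ (m : ℝ) * cs q := by positivity
  have hK : 0 ≤ K := by linarith
  have hinv : 1 / cs q = cs q * (1 + q ^ 2) := by
    rw [div_eq_iff hc.ne']
    linear_combination -hc1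
  refine ⟨?_, Fin m, inferInstance, fun j => B3_F B q j, ?_, ?_, ?_⟩
  · rw [sub_nonneg, le_div_iff₀ hc]
    linarith
  · rintro j ⟨z1, z2⟩ ⟨a, b, ha0, ha1, hb0, hb1, h1, h2⟩
    have h1' : z1 = B + q * (q * cs q + j * cs q) + a * cs q - b * (-(q * cs q)) := h1
    have h2' : z2 = q * cs q + j * cs q + a * (-(q * cs q)) + b * cs q := h2
    have hj : ((j : ℕ) : ℝ) + 1 ≤ m := by exact_mod_cast j.2
    have hj0 : (0 : ℝ) ≤ ((j : ℕ) : ℝ) := Nat.cast_nonneg _
    have e1 : z1 = B + q * z2 + a * (1 / cs q) := by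
      rw [h1', h2', hinv]
      ring
    refine ⟨?_, ?_, ?_, ?_⟩
    · change 0 ≤ z2
      have p1 : 0 ≤ ((j : ℕ) : ℝ) * cs q := by positivity
      have p2 : 0 ≤ (1 - a) * (q * cs q) := mul_nonneg (by linarith) hs
      have p3 : 0 ≤ b * cs q := mul_nonneg hb0 hc.le
      rw [h2']
      nlinarith
    · change z2 ≤ K
      have p1 : (((j : ℕ) : ℝ) + 1) * cs q ≤ m * cs q := mul_le_mul_of_nonneg_right hj hc.le
      have p2 : 0 ≤ a * (q * cs q) := mul_nonneg ha0 hs
      have p3 : b * cs q ≤ 1 * cs q := mul_le_mul_of_nonneg_right hb1 hc.le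
      rw [h2']
      nlinarith
    · change B + q * z2 ≤ z1
      rw [e1]
      have : 0 ≤ a * (1 / cs q) := by positivity
      linarith
    · change z1 ≤ B + q * z2 + 1 / cs q
      rw [e1]
      have : a * (1 / cs q) ≤ 1 * (1 / cs q) := mul_le_mul_of_nonneg_right ha1 (by positivity)
      linarith
  · intro i j hij
    rw [Set.disjoint_left]
    rintro ⟨z1, z2⟩ ⟨a, b, ha0, ha1, hb0, hb1, h1, h2⟩ ⟨a', b', ha0', ha1', hb0', hb1', h1', h2'⟩
    have g1 : z1 = B + q * (q * cs q + i * cs q) + a * cs q - b * (-(q * cs q)) := h1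
    have g2 : z2 = q * cs q + i * cs q + a * (-(q * cs q)) + b * cs q := h2
    have g1' : z1 = B + q * (q * cs q + j * cs q) + a' * cs q - b' * (-(q * cs q)) := h1'
    have g2' : z2 = q * cs q + j * cs q + a' * (-(q * cs q)) + b' * cs q := h2'
    -- the coordinate along the bar
    have k1 : q * z1 + z2 = q * B + (1 + q ^ 2) * cs q * (q + ((i : ℕ) + b)) := by
      rw [g1, g2]
      ring
    have k2 : q * z1 + z2 = q * B + (1 + q ^ 2) * cs q * (q + ((j : ℕ) + b')) := by
      rw [g1', g2']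
      ring
    have hpos : 0 < (1 + q ^ 2) * cs q := by positivity
    have k3 : (1 + q ^ 2) * cs q * (q + (((i : ℕ) : ℝ) + b)) =
        (1 + q ^ 2) * cs q * (q + (((j : ℕ) : ℝ) + b')) := by linarith
    have k4 := mul_left_cancel₀ hpos.ne' k3
    apply hij
    apply Fin.ext
    by_contra hne
    rcases Nat.lt_or_gt_of_ne hne with h | h
    · have : ((i : ℕ) : ℝ) + 1 ≤ (j : ℕ) := by exact_mod_cast h
      linarith
    · have : ((j : ℕ) : ℝ) + 1 ≤ (i : ℕ) := by exact_mod_cast h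
      linarith
  · have h1 := vol_strip' 0 K q B (1 / cs q) hK (by positivity)
    rw [Fintype.card_fin]
    refine le_trans (le_of_eq ?_) (h1.trans (le_of_eq ?_))
    · congr 1
      ext z
      simp only [Set.mem_ofPred_eq, add_comm B]
    · congr 1
      ring

end SqUp
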