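import Pool.Agent.Lib.MP_e85462_co.U.Defs

open MeasureTheory Set

namespace SqUp

theorem B4_gen {A : Set (ℝ × ℝ)} {a : ℝ} (φ : ℝ × ℝ → ℝ × ℝ) (T : Pl → Pl)
    (h1 : ∀ P z, z ∈ (T P).cl → φ z ∈ P.cl) (h2 : ∀ P z, z ∈ (T P).op → φ z ∈ P.op)
    (h3 : volume (φ ⁻¹' A) = volume A) (h : PW A a) : PW (φ ⁻¹' A) a := by
  obtain ⟨ha, ι, _, F, hF1, hF2, hF3⟩ := h
  refine ⟨ha, ι, inferInstance, fun i => T (F i), fun i z hz => hF1 i (h1 _ z hz), ?_, ?_⟩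
  · intro i j hij
    rw [Set.disjoint_left]
    intro z hz hz'
    exact Set.disjoint_left.1 (hF2 i j hij) (h2 _ z hz) (h2 _ z hz')
  · rw [h3]; exact hF3

theorem PW.translate {A : Set (ℝ × ℝ)} {a : ℝ} (v : ℝ × ℝ) (h : PW A a) :
    PW {z | z - v ∈ A} a := by
  refine B4_gen (fun z => z - v) (fun P => ⟨P.x + v.1, P.y + v.2, P.c, P.s, P.h⟩) ?_ ?_ ?_ h
  · rintro P z ⟨α, β, h1, h2, h3, h4, h5, h6⟩
    refine ⟨α, β, h1, h2, h3, h4, ?_, ?_⟩
    · simp only [Prod.fst_sub] at h5 ⊢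
      linarith
    · simp only [Prod.snd_sub] at h6 ⊢
      linarith
  · rintro P z ⟨α, β, h1, h2, h3, h4, h5, h6⟩
    refine ⟨α, β, h1, h2, h3, h4, ?_, ?_⟩
    · simp only [Prod.fst_sub] at h5 ⊢
      linarith
    · simp only [Prod.snd_sub] at h6 ⊢
      linarith
  · exact (measurePreserving_sub_right (volume : Measure (ℝ × ℝ)) v).measure_preimage_emb
      (MeasurableEquiv.subRight v).measurableEmbedding A

theorem PW.reflect {A : Set (ℝ × ℝ)} {a : ℝ} (v : ℝ × ℝ) (h : PW A a) :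
    PW {z | v - z ∈ A} a := by
  refine B4_gen (fun z => v - z)
    (fun P => ⟨v.1 - P.x, v.2 - P.y, -P.c, -P.s, by rw [neg_sq, neg_sq]; exact P.h⟩) ?_ ?_ ?_ h
  · rintro P z ⟨α, β, h1, h2, h3, h4, h5, h6⟩
    refine ⟨α, β, h1, h2, h3, h4, ?_, ?_⟩
    · simp only [Prod.fst_sub] at h5 ⊢
      linarith
    · simp only [Prod.snd_sub] at h6 ⊢
      linarith
  · rintro P z ⟨α, β, h1, h2, h3, h4, h5, h6⟩
    refine ⟨α, β, h1, h2, h3, h4, ?_, ?_⟩
    · simp only [Prod.fst_sub] at h5 ⊢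
      linarith
    · simp only [Prod.snd_sub] at h6 ⊢
      linarith
  · exact (Measure.measurePreserving_sub_left (volume : Measure (ℝ × ℝ)) v).measure_preimage_emb
      (MeasurableEquiv.subLeft v).measurableEmbedding A

theorem PW.swap {A : Set (ℝ × ℝ)} {a : ℝ} (h : PW A a) :
    PW {z : ℝ × ℝ | (z.2, z.1) ∈ A} a := by
  refine B4_gen (fun z : ℝ × ℝ => (z.2, z.1))
    (fun P => ⟨P.y, P.x, P.c, -P.s, by rw [neg_sq]; exact P.h⟩) ?_ ?_ ?_ h
  · rintro P z ⟨α, β, h1, h2, h3, h4, h5, h6⟩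
    refine ⟨β, α, h3, h4, h1, h2, ?_, ?_⟩
    · simp only at h5 h6 ⊢
      linarith
    · simp only at h5 h6 ⊢
      linarith
  · rintro P z ⟨α, β, h1, h2, h3, h4, h5, h6⟩
    refine ⟨β, α, h3, h4, h1, h2, ?_, ?_⟩
    · simp only at h5 h6 ⊢
      linarith
    · simp only at h5 h6 ⊢
      linarith
  · have hmp : MeasurePreserving (Prod.swap : ℝ × ℝ → ℝ × ℝ) volume volume :=
      Measure.measurePreserving_swap
    exact hmp.measure_preimage_emb MeasurableEquiv.prodComm.measurableEmbedding A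

end SqUp
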