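import Pool.Agent.Lib.MP_e85462_co.U.C1

open MeasureTheory Set

namespace SqUp

private theorem C2_A {r : ℕ} {t : ℝ} (hr : 10 ≤ r) (h1 : 1 / (r : ℝ) ≤ t)
    (h2 : t ≤ 3 / (2 * r)) :
    1 / 2 - 3 / 8 * (1 / (r : ℝ)) ^ 2 ≤ (r : ℝ) ^ 2 * (1 - cs t) ∧
      (r : ℝ) ^ 2 * (1 - cs t) ≤ 9 / 8 ∧ t ^ 2 / 2 ≤ 9 / (8 * (r : ℝ) ^ 2) := by
  have hR : (10 : ℝ) ≤ r := by exact_mod_cast hr
  have hR0 : (0 : ℝ) < r := by linarith
  have hw0 : 0 < 1 / (r : ℝ) := by positivity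
  have ht0 : 0 < t := lt_of_lt_of_le hw0 h1
  have hRw : (r : ℝ) * (1 / r) = 1 := by field_simp
  have h3 : t ^ 2 / 2 ≤ 9 / (8 * (r : ℝ) ^ 2) := by
    have : t ^ 2 ≤ (3 / (2 * (r : ℝ))) ^ 2 := by gcongr
    calc t ^ 2 / 2 ≤ (3 / (2 * (r : ℝ))) ^ 2 / 2 := by linarith
      _ = 9 / (8 * (r : ℝ) ^ 2) := by field_simp; norm_num
  refine ⟨?_, ?_, h3⟩
  · have k1 := one_sub_cs_ge (1 / (r : ℝ))
    have k2 := one_sub_cs_mono hw0.le h1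
    calc 1 / 2 - 3 / 8 * (1 / (r : ℝ)) ^ 2
        = (r : ℝ) ^ 2 * ((1 / (r : ℝ)) ^ 2 / 2 - 3 * (1 / (r : ℝ)) ^ 4 / 8) := by
          field_simp
      _ ≤ (r : ℝ) ^ 2 * (1 - cs t) := by
          apply mul_le_mul_of_nonneg_left (k1.trans k2) (by positivity)
  · calc (r : ℝ) ^ 2 * (1 - cs t) ≤ (r : ℝ) ^ 2 * (9 / (8 * (r : ℝ) ^ 2)) :=
          mul_le_mul_of_nonneg_left ((one_sub_cs_le t).trans h3) (by positivity)
      _ = 9 / 8 := by field_simp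

/-- consequences of the standing assumptions -/
theorem lam_bounds {r : ℕ} {t : ℝ} (hr : 10 ≤ r) (h1 : 1 / (r : ℝ) ≤ t)
    (h2 : t ≤ 3 / (2 * r)) :
    8 / 9 ≤ lam r t ∧ lam r t ≤ 2 + 2 / (r : ℝ) ^ 2 ∧ kap t ≤ 9 / (8 * (r : ℝ) ^ 2) ∧
    0 ≤ kap t / lam r t ∧ kap t / lam r t ≤ 13 / (10 * (r : ℝ) ^ 2) ∧
    lam r t * ((r : ℝ) ^ 2 * (1 - cs t)) = 1 := by
  obtain ⟨a1, a2, a3⟩ := C2_A hr h1 h2
  have hR : (10 : ℝ) ≤ r := by exact_mod_cast hr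
  have hR0 : (0 : ℝ) < r := by linarith
  have hw0 : 0 < 1 / (r : ℝ) := by positivity
  have hw1 : 1 / (r : ℝ) ≤ 1 / 10 := one_div_le_one_div_of_le (by norm_num) hR
  have hw2 : (1 / (r : ℝ)) ^ 2 ≤ 1 / 100 := by nlinarith
  have hw2' : 0 < (1 / (r : ℝ)) ^ 2 := by positivity
  set A := (r : ℝ) ^ 2 * (1 - cs t) with hA
  have hA0 : 0 < A := by linarith
  have hlam : lam r t = 1 / A := rfl
  have e : 2 / (r : ℝ) ^ 2 = 2 * (1 / (r : ℝ)) ^ 2 := by field_simp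
  have hk := (kap_le t).trans a3
  have hk0 := kap_nonneg t
  have hdiv : kap t / lam r t = kap t * A := by rw [hlam]; field_simp
  refine ⟨?_, ?_, hk, ?_, ?_, ?_⟩
  · rw [hlam, le_div_iff₀ hA0]
    linarith
  · rw [hlam, e, div_le_iff₀ hA0]
    nlinarith
  · rw [hdiv]
    positivity
  · rw [hdiv]
    calc kap t * A ≤ 9 / (8 * (r : ℝ) ^ 2) * (9 / 8) := by
          apply mul_le_mul hk a2 hA0.le (by positivity)
      _ ≤ 13 / (10 * (r : ℝ) ^ 2) := by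
          rw [div_mul_div_comm, div_le_div_iff₀ (by positivity) (by positivity)]
          nlinarith [sq_nonneg (r : ℝ)]
  · rw [hlam]
    field_simp

theorem lam_anti {r : ℕ} {t t' : ℝ} (hr : 10 ≤ r) (h1 : 1 / (r : ℝ) ≤ t) (h : t ≤ t')
    (h2 : t' ≤ 3 / (2 * r)) : lam r t' ≤ lam r t := by
  have hR : (10 : ℝ) ≤ r := by exact_mod_cast hr
  have hw0 : 0 < 1 / (r : ℝ) := by positivity
  have hw1 : 1 / (r : ℝ) ≤ 1 / 10 := one_div_le_one_div_of_le (by norm_num) hR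
  have hw2 : (1 / (r : ℝ)) ^ 2 ≤ 1 / 100 := by nlinarith
  obtain ⟨a1, -, -⟩ := C2_A hr h1 (h.trans h2)
  have hA0 : 0 < (r : ℝ) ^ 2 * (1 - cs t) := by linarith
  unfold lam
  apply one_div_le_one_div_of_le hA0
  apply mul_le_mul_of_nonneg_left _ (by positivity)
  exact one_sub_cs_mono (hw0.le.trans h1) h

end SqUp
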