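import Pool.Agent.Lib.MP_e85462_co.U.C2

open MeasureTheory Set

namespace SqUp

theorem C3_nxt (r : ℕ) (t : ℝ) : t ≤ nxt r t := by
  unfold nxt
  have h1 : 0 ≤ lam r t := by
    unfold lam
    have := cs_le_one t
    exact div_nonneg zero_le_one (mul_nonneg (sq_nonneg _) (by linarith))
  have h2 : 0 ≤ kap t / lam r t := div_nonneg (kap_nonneg t) h1
  linarith

theorem C3_q {r : ℕ} (hr : (10 : ℝ) ≤ r) {t : ℝ} (ht : t ≤ 3 / (2 * r)) :
    t / (r : ℝ) ^ 2 ≤ 3 / 2000 := by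
  have h0 : (0 : ℝ) < r := by linarith
  rw [div_le_iff₀ (by positivity)]
  refine ht.trans ?_
  rw [div_le_iff₀ (by positivity)]
  have h3 : (1000 : ℝ) ≤ (r : ℝ) ^ 3 := by
    have := pow_le_pow_left₀ (by norm_num : (0 : ℝ) ≤ 10) hr 3
    norm_num at this
    exact this
  nlinarith

theorem Par.facts {r : ℕ} {b t β : ℝ} {n : ℕ} (hP : Par r b t β n) : Facts r b t β n := by
  have r10 : (10 : ℝ) ≤ r := by exact_mod_cast hP.hr
  have r0 : (0 : ℝ) < r := by linarith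
  have tn : t ≤ nxt r t := C3_nxt r t
  have t1 : t ≤ 3 / (2 * r) := tn.trans hP.ht2
  have t0 : 0 < t := lt_of_lt_of_le (by positivity) hP.ht1
  obtain ⟨a1, a2, a3, a4, a5, a6⟩ := lam_bounds hP.hr hP.ht1 t1
  obtain ⟨b1, -, -, -, -, -⟩ := lam_bounds hP.hr (hP.ht1.trans tn) hP.ht2
  have rr : (100 : ℝ) ≤ (r : ℝ) ^ 2 := by nlinarith
  have n1 : 4 * (r : ℝ) ^ 2 ≤ n := hP.hb1.trans hP.hn1
  have n2 : 40 * (r : ℝ) ≤ n := by nlinarith
  refine ⟨r10, t0, t1, tn, a1, a2, b1, lam_anti hP.hr hP.ht1 tn hP.ht2, kap_nonneg t, a3, a4, a5,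
    a6, ?_, cs_le_one t, one_div_cs t, C3_q r10 t1, C3_q r10 hP.ht2, n1, n2, ?_, ?_⟩
  · have h1 := one_sub_cs_le t
    have h2 : t ^ 2 ≤ 9 / 400 := by
      have h3 : t ≤ 3 / 20 := by
        refine t1.trans ?_
        rw [div_le_div_iff₀ (by positivity) (by norm_num)]
        nlinarith
      nlinarith
    linarith
  · exact_mod_cast n2
  · refine mul_le_mul_of_nonneg_right ?_ (by positivity)
    refine a2.trans ?_
    have h1 : 2 / (r : ℝ) ^ 2 ≤ 2 / 100 :=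
      div_le_div_of_nonneg_left (by norm_num) (by norm_num) rr
    linarith

end SqUp
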