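import Pool.Agent.Lib.MP_e85462_co.U.C3

open MeasureTheory Set

namespace SqUp

private theorem D0_lam_pos {r : ℕ} {b t β : ℝ} {n : ℕ} (hP : Par r b t β n) : 0 < lam r t := by
  have := hP.facts.lam0
  linarith

private theorem D0_nonneg {r : ℕ} {b t β : ℝ} {n : ℕ} (hP : Par r b t β n) (i : ℕ) :
    0 ≤ (n : ℝ) + 1 - 4 * r - lam r t * ((r : ℝ) ^ 2 - i) := by
  have F := hP.facts
  have hl := D0_lam_pos hP
  have h1 := F.n1
  have h2 := F.lr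
  have h3 := F.r10
  have h4 : 0 ≤ lam r t * (i : ℝ) := mul_nonneg hl.le (Nat.cast_nonneg i)
  nlinarith

theorem fl_spec {r : ℕ} {b t β : ℝ} {n : ℕ} (hP : Par r b t β n) (i : ℕ) :
    (fl r t n i : ℝ) ≤ (n : ℝ) + 1 - 4 * r - lam r t * ((r : ℝ) ^ 2 - i) ∧
    (n : ℝ) + 1 - 4 * r - lam r t * ((r : ℝ) ^ 2 - i) < (fl r t n i : ℝ) + 1 :=
  ⟨Nat.floor_le (D0_nonneg hP i), Nat.lt_floor_add_one _⟩

theorem fl_le_fl {r : ℕ} {b t β : ℝ} {n : ℕ} (hP : Par r b t β n) {i i' : ℕ} (h : i ≤ i') :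
    fl r t n i ≤ fl r t n i' := by
  apply Nat.floor_le_floor
  have h1 : (i : ℝ) ≤ i' := by exact_mod_cast h
  have h2 := mul_le_mul_of_nonneg_left h1 (D0_lam_pos hP).le
  linarith

private theorem D0_lt_iff {r : ℕ} {b t β : ℝ} {n : ℕ} (hP : Par r b t β n) (i c : ℕ) :
    fl r t n i ≤ c ↔ (n : ℝ) + 1 - 4 * r - lam r t * ((r : ℝ) ^ 2 - i) < (c : ℝ) + 1 := by
  rw [← Nat.lt_succ_iff, fl, Nat.floor_lt (D0_nonneg hP i)]
  push_cast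
  rfl

theorem fl_last {r : ℕ} {b t β : ℝ} {n : ℕ} (hP : Par r b t β n) {i : ℕ} (h : i < r ^ 2) :
    fl r t n i ≤ n - 4 * r := by
  rw [D0_lt_iff hP]
  have h3 := hP.facts.n3
  have h4 : 4 * r ≤ n := by omega
  have h5 : ((n - 4 * r : ℕ) : ℝ) = (n : ℝ) - 4 * r := by
    rw [Nat.cast_sub h4]
    push_cast
    ring
  rw [h5]
  have h6 : (i : ℝ) < (r : ℝ) ^ 2 := by exact_mod_cast h
  have h7 : 0 < lam r t * ((r : ℝ) ^ 2 - i) := mul_pos (D0_lam_pos hP) (by linarith)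
  linarith

theorem ir_spec {r : ℕ} {b t β : ℝ} {n : ℕ} (hP : Par r b t β n) {c : ℕ}
    (hc : fl r t n 0 ≤ c) (hc2 : c < n - 4 * r) :
    1 ≤ ir r t n c ∧ ir r t n c ≤ r ^ 2 ∧
    (r : ℝ) ^ 2 - ((n : ℝ) - 4 * r - c) / lam r t ≤ ir r t n c ∧
    (ir r t n c : ℝ) < (r : ℝ) ^ 2 - ((n : ℝ) - 4 * r - c) / lam r t + 1 ∧
    ∀ i : ℕ, i < ir r t n c ↔ fl r t n i ≤ c := by
  have hl := D0_lam_pos hP
  have h1 : (c : ℝ) + 1 + 4 * r ≤ n := by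
    have h0 : c + 1 + 4 * r ≤ n := by omega
    exact_mod_cast h0
  have h2 : 0 < ((n : ℝ) - 4 * r - c) / lam r t := div_pos (by linarith) hl
  have h3 : ((n : ℝ) - 4 * r - c) / lam r t < (r : ℝ) ^ 2 := by
    rw [div_lt_iff₀ hl]
    have h4 := (D0_lt_iff hP 0 c).1 hc
    push_cast at h4
    linarith
  have hy : 0 < (r : ℝ) ^ 2 - ((n : ℝ) - 4 * r - c) / lam r t := by linarith
  refine ⟨Nat.ceil_pos.2 hy, ?_, Nat.le_ceil _, Nat.ceil_lt_add_one hy.le, fun i => ?_⟩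
  · rw [ir, Nat.ceil_le]
    push_cast
    linarith
  · rw [D0_lt_iff hP, ir, Nat.lt_ceil]
    have e : (i : ℝ) < (r : ℝ) ^ 2 - ((n : ℝ) - 4 * r - c) / lam r t ↔
        ((n : ℝ) - 4 * r - c) / lam r t < (r : ℝ) ^ 2 - i := by
      constructor <;> intro h <;> linarith
    rw [e, div_lt_iff₀ hl]
    constructor <;> intro h <;> linarith

end SqUp
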