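import Pool.Agent.Lib.MP_e85462_co.U.D0

open MeasureTheory Set

namespace SqUp

/-- row `i` stays below the next line -/
theorem line_ge {r : ℕ} {b t β : ℝ} {n : ℕ} (hP : Par r b t β n) {i : ℕ} (hi : i < r ^ 2)
    {x : ℝ} (hx : (fl r t n i : ℝ) ≤ x) :
    t * x + (β + i / cs t) + 1 / cs t ≤ nxt r t * x + nxb r t β n := by
  have hF := hP.facts
  have h1 := (fl_spec hP i).2
  have hlam : 0 < lam r t := by linarith [hF.lam0]
  have hi' : (i : ℝ) + 1 ≤ (r : ℝ) ^ 2 := by exact_mod_cast hi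
  have h2 : (n : ℝ) - 4 * r - x ≤ lam r t * ((r : ℝ) ^ 2 - i) := by linarith
  have h3 := mul_le_mul_of_nonneg_left h2 hF.kl0
  have h4 : kap t / lam r t * (lam r t * ((r : ℝ) ^ 2 - i)) = kap t * ((r : ℝ) ^ 2 - i) := by
    field_simp
  rw [h4] at h3
  have h5 : (i : ℝ) / cs t = i * (1 + kap t) := by
    rw [← hF.ic]; ring
  rw [h5, hF.ic, nxt, nxb]
  have h6 := hF.t0
  have h7 : (t + kap t / lam r t) * x + (β + (r : ℝ) ^ 2 + t + kap t * ((r : ℝ) ^ 2 + 1) -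
      kap t / lam r t * ((n : ℝ) - 4 * r)) - (t * x + (β + i * (1 + kap t)) + (1 + kap t)) =
      ((r : ℝ) ^ 2 - (i + 1)) + t + (kap t * ((r : ℝ) ^ 2 - i) -
      kap t / lam r t * ((n : ℝ) - 4 * r - x)) := by ring
  linarith

/-- there is room for `r ^ 2 - ir` flat squares in column `c` below the next line, and the
room is almost exactly used -/
theorem line_ge_col {r : ℕ} {b t β : ℝ} {n : ℕ} (hP : Par r b t β n) {c : ℕ}
    (hc : fl r t n 0 ≤ c) (hc2 : c < n - 4 * r) :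
    t * ((c : ℝ) + 1) + (β + ir r t n c / cs t) + ((r : ℝ) ^ 2 - ir r t n c) ≤
      nxt r t * c + nxb r t β n ∧
    nxt r t * c + nxb r t β n ≤
      t * ((c : ℝ) + 1) + (β + ir r t n c / cs t) + ((r : ℝ) ^ 2 - ir r t n c) + kap t := by
  have hF := hP.facts
  obtain ⟨-, -, h1, h2, -⟩ := ir_spec hP hc hc2
  have h3 : kap t / lam r t * ((n : ℝ) - 4 * r - c) =
      kap t * (((n : ℝ) - 4 * r - c) / lam r t) := by ring
  have h4 : kap t * (((n : ℝ) - 4 * r - c) / lam r t) ≤ kap t * ((r : ℝ) ^ 2 + 1 - ir r t n c) :=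
    mul_le_mul_of_nonneg_left (by linarith) hF.k0
  have h5 : kap t * ((r : ℝ) ^ 2 - ir r t n c) ≤ kap t * (((n : ℝ) - 4 * r - c) / lam r t) :=
    mul_le_mul_of_nonneg_left (by linarith) hF.k0
  have h6 : (ir r t n c : ℝ) / cs t = ir r t n c * (1 + kap t) := by
    rw [← hF.ic]; ring
  have h7 : nxt r t * c + nxb r t β n - (t * ((c : ℝ) + 1) + (β + ir r t n c / cs t) +
      ((r : ℝ) ^ 2 - ir r t n c)) = kap t * ((r : ℝ) ^ 2 + 1 - ir r t n c) -
      kap t / lam r t * ((n : ℝ) - 4 * r - c) := by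
    rw [h6, nxt, nxb]; ring
  have h8 : kap t * ((r : ℝ) ^ 2 + 1 - ir r t n c) = kap t * ((r : ℝ) ^ 2 - ir r t n c) + kap t := by
    ring
  constructor <;> linarith

end SqUp
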