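import Pool.Agent.Lib.MP_e85462_co.U.B2
import Pool.Agent.Lib.MP_e85462_co.U.D0
import Pool.Agent.Lib.MP_e85462_co.U.A5

open MeasureTheory Set

namespace SqUp

theorem D2_basic {R u c κ L N I t : ℝ} (huR : u * R = 1) (hu0 : 0 < u) (hu1 : u ≤ 1 / 10)
    (hc0 : 49 / 50 ≤ c) (hc1 : c ≤ 1) (hcκ : c * (1 + κ) = 1) (hκ0 : 0 ≤ κ)
    (hκ : κ ≤ 9 / 8 * u ^ 2) (ht0 : 0 < t) (ht1 : t ≤ 3 / 2 * u)
    (hL : L * (R ^ 2 * (1 - c)) = 1) (hL1 : L ≤ 2 + 2 * u ^ 2)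
    (hN1 : 4 * R + L * (R ^ 2 - I) ≤ N) (hN2 : N ≤ 4 * R + L * (R ^ 2 - I) + 1) :
    t * c + 1 - u ^ 2 * I ≤ N * (1 - c) ∧
    N * (1 - c) ≤ 9 / 2 * u + 9 / 8 * u ^ 2 + 1 - u ^ 2 * I := by
  have hc : 0 ≤ 1 - c := by linarith
  have hu2 : u ^ 2 * R ^ 2 = 1 := by
    have : u ^ 2 * R ^ 2 = (u * R) ^ 2 := by ring
    rw [this, huR]; ring
  have h1 : L * (1 - c) = u ^ 2 := by
    have : L * (1 - c) * (u ^ 2 * R ^ 2) = u ^ 2 * (L * (R ^ 2 * (1 - c))) := by ring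
    rw [hu2, hL] at this
    linarith
  have h2 : 1 - c ≤ 9 / 8 * u ^ 2 := by
    have h21 : 1 - c = c * κ := by linarith
    have h22 : c * κ ≤ 1 * κ := mul_le_mul_of_nonneg_right hc1 hκ0
    linarith
  have hR0 : 0 < R := by
    by_contra hneg
    have : u * R ≤ 0 := mul_nonpos_of_nonneg_of_nonpos hu0.le (not_lt.mp hneg)
    linarith
  have h5 : 0 ≤ 4 * R * (1 - c) := by positivity
  have hL2 : L ≤ 203 / 100 := by nlinarith
  have h6 : L * (4 * R * (1 - c)) = 4 * u := by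
    have : L * (4 * R * (1 - c)) = 4 * R * (L * (1 - c)) := by ring
    rw [this, h1]
    have : 4 * R * u ^ 2 = 4 * u * (u * R) := by ring
    rw [this, huR]; ring
  have h3 : t * c ≤ 4 * R * (1 - c) := by
    have h31 : L * (4 * R * (1 - c)) ≤ 203 / 100 * (4 * R * (1 - c)) :=
      mul_le_mul_of_nonneg_right hL2 h5
    have h32 : t * c ≤ t * 1 := mul_le_mul_of_nonneg_left hc1 ht0.le
    linarith
  have h7 : 4 * R * (1 - c) ≤ 9 / 2 * u := by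
    have h71 : 4 * R * (1 - c) ≤ 4 * R * (9 / 8 * u ^ 2) :=
      mul_le_mul_of_nonneg_left h2 (by positivity)
    have h72 : 4 * R * (9 / 8 * u ^ 2) = 9 / 2 * u * (u * R) := by ring
    rw [h72, huR] at h71
    linarith
  have h4 : L * (R ^ 2 - I) * (1 - c) = 1 - u ^ 2 * I := by
    have : L * (R ^ 2 - I) * (1 - c) = (L * (1 - c)) * (R ^ 2 - I) := by ring
    rw [this, h1]
    linarith
  have h8 := mul_le_mul_of_nonneg_right hN1 hc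
  have h9 := mul_le_mul_of_nonneg_right hN2 hc
  constructor
  · have : (4 * R + L * (R ^ 2 - I)) * (1 - c) = 4 * R * (1 - c) + L * (R ^ 2 - I) * (1 - c) := by
      ring
    rw [this, h4] at h8
    linarith
  · have : (4 * R + L * (R ^ 2 - I) + 1) * (1 - c) =
        4 * R * (1 - c) + L * (R ^ 2 - I) * (1 - c) + (1 - c) := by
      ring
    rw [this, h4] at h9
    linarith

theorem D2_fit {u b t β n c κ F N I : ℝ} (hu0 : 0 < u) (hu1 : u ≤ 1 / 10)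
    (hκ0 : 0 ≤ κ) (ht0 : 0 < t) (ht1 : t ≤ 3 / 2 * u) (hI0 : 0 ≤ I)
    (hFN : F + N = n + 1) (hN : t * c + 1 - u ^ 2 * I ≤ N * (1 - c))
    (hW1 : n * (1 - u ^ 2 * t) ≤ b + u ^ 2 * β) :
    (F + t * c + N * c) * (1 - u ^ 2 * t) ≤ b + u ^ 2 * (β + I * (1 + κ)) := by
  have hu2 : 0 < u ^ 2 := by positivity
  have hq : 0 ≤ 1 - u ^ 2 * t := by nlinarith
  have h1 : F + t * c + N * c ≤ n + u ^ 2 * I := by nlinarith
  have h2 := mul_le_mul_of_nonneg_right h1 hq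
  have h3 : (n + u ^ 2 * I) * (1 - u ^ 2 * t) =
    n * (1 - u ^ 2 * t) + u ^ 2 * I - u ^ 2 * I * (u ^ 2 * t) := by ring
  have h4 : 0 ≤ u ^ 2 * I * (u ^ 2 * t) := by positivity
  have h5 : 0 ≤ u ^ 2 * (I * κ) := by positivity
  have h6 : b + u ^ 2 * (β + I * (1 + κ)) = b + u ^ 2 * β + u ^ 2 * I + u ^ 2 * (I * κ) := by ring
  linarith

theorem D2_waste {R u b t β n c κ F N I : ℝ} (huR : u * R = 1) (hu0 : 0 < u) (hu1 : u ≤ 1 / 10)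
    (hc0 : 49 / 50 ≤ c) (hκ0 : 0 ≤ κ) (hκ : κ ≤ 9 / 8 * u ^ 2) (ht0 : 0 < t)
    (ht1 : t ≤ 3 / 2 * u) (hI0 : 0 ≤ I) (hI : I + 1 ≤ R ^ 2)
    (hFN : F + N = n + 1) (hN : N * (1 - c) ≤ 9 / 2 * u + 9 / 8 * u ^ 2 + 1 - u ^ 2 * I)
    (hW2 : b + u ^ 2 * β ≤ (n + u) * (1 - u ^ 2 * t)) :
    ((b + u ^ 2 * (β + I * (1 + κ) + (1 + κ))) / (1 - u ^ 2 * t) - F) / c - N ≤ 7 * u := by
  have hu2 : 0 < u ^ 2 := by positivity
  have hcp : 0 < c := by linarith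
  have hut : u ^ 2 * t ≤ 3 / 20 * u ^ 2 := by nlinarith
  have hu22 : u ^ 2 ≤ 1 / 100 := by nlinarith
  have hq : 0 < 1 - u ^ 2 * t := by linarith
  have hu2R : u ^ 2 * R ^ 2 = 1 := by
    have : u ^ 2 * R ^ 2 = (u * R) ^ 2 := by ring
    rw [this, huR]; ring
  have hI1 : u ^ 2 * (I + 1) ≤ 1 := by
    have := mul_le_mul_of_nonneg_left hI hu2.le
    linarith
  have hk : 1 + κ ≤ (1 + 2 * u ^ 2) * (1 - u ^ 2 * t) := by nlinarith
  have hW : (b + u ^ 2 * (β + I * (1 + κ) + (1 + κ))) / (1 - u ^ 2 * t) ≤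
      n + u + u ^ 2 * (I + 1) + 2 * u ^ 2 := by
    rw [div_le_iff₀ hq]
    have h1 : u ^ 2 * (I + 1) * (1 + κ) ≤ u ^ 2 * (I + 1) * ((1 + 2 * u ^ 2) * (1 - u ^ 2 * t)) :=
      mul_le_mul_of_nonneg_left hk (by positivity)
    have h2 : u ^ 2 * (I + 1) * ((1 + 2 * u ^ 2) * (1 - u ^ 2 * t)) =
      u ^ 2 * (I + 1) * (1 - u ^ 2 * t) + (u ^ 2 * (I + 1)) * (2 * u ^ 2 * (1 - u ^ 2 * t)) := by
      ring
    have h3 : (u ^ 2 * (I + 1)) * (2 * u ^ 2 * (1 - u ^ 2 * t)) ≤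
      1 * (2 * u ^ 2 * (1 - u ^ 2 * t)) := mul_le_mul_of_nonneg_right hI1 (by positivity)
    have h4 : (n + u + u ^ 2 * (I + 1) + 2 * u ^ 2) * (1 - u ^ 2 * t) =
      (n + u) * (1 - u ^ 2 * t) + u ^ 2 * (I + 1) * (1 - u ^ 2 * t) +
        2 * u ^ 2 * (1 - u ^ 2 * t) := by ring
    have h5 : b + u ^ 2 * (β + I * (1 + κ) + (1 + κ)) =
      b + u ^ 2 * β + u ^ 2 * (I + 1) * (1 + κ) := by ring
    rw [h4, h5]
    linarith
  have hu3 : u ^ 2 ≤ 1 / 10 * u := by nlinarith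
  rw [sub_le_iff_le_add, div_le_iff₀ hcp]
  have h6 : (7 * u + N) * c = 7 * u * c + N - N * (1 - c) := by ring
  have h7 : 7 * u * (49 / 50) ≤ 7 * u * c := mul_le_mul_of_nonneg_left hc0 (by positivity)
  rw [h6]
  linarith

theorem row_waste {r : ℕ} {b t β : ℝ} {n : ℕ} (hP : Par r b t β n) (i : ℕ) (hi : i < r ^ 2) :
    PW (rowC r b t β n i) (7 / r) := by
  have hF := hP.facts
  have hR10 := hF.r10
  have hR0 : (0 : ℝ) < r := by linarith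
  obtain ⟨hf1, hf2⟩ := fl_spec hP i
  have hlast := fl_last hP hi
  set u : ℝ := 1 / (r : ℝ) with hu
  have huR : u * (r : ℝ) = 1 := by rw [hu]; field_simp
  have hu0 : 0 < u := by positivity
  have hu1 : u ≤ 1 / 10 := by
    rw [hu]; exact one_div_le_one_div_of_le (by norm_num) hR10
  have hu2 : u ^ 2 = 1 / (r : ℝ) ^ 2 := by rw [hu]; field_simp
  have hc1k : cs t * (1 + kap t) = 1 := by
    rw [← hF.ic]
    have : cs t ≠ 0 := by have := hF.c0; intro h; rw [h] at this; norm_num at this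
    field_simp
  have hk1 : kap t ≤ 9 / 8 * u ^ 2 := by
    have h := hF.k1
    have : (9 : ℝ) / (8 * (r : ℝ) ^ 2) = 9 / 8 * u ^ 2 := by rw [hu2]; field_simp
    linarith
  have ht1 : t ≤ 3 / 2 * u := by
    have h := hF.t1
    have : (3 : ℝ) / (2 * (r : ℝ)) = 3 / 2 * u := by rw [hu]; field_simp
    linarith
  have hL1 : lam r t ≤ 2 + 2 * u ^ 2 := by
    have h := hF.lam1
    have : (2 : ℝ) / (r : ℝ) ^ 2 = 2 * u ^ 2 := by rw [hu2]; field_simp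
    linarith
  have hI0 : (0 : ℝ) ≤ (i : ℝ) := Nat.cast_nonneg i
  have hI : (i : ℝ) + 1 ≤ (r : ℝ) ^ 2 := by exact_mod_cast hi
  have hle : fl r t n i ≤ n + 1 := by omega
  have hNc : ((n + 1 - fl r t n i : ℕ) : ℝ) = (n : ℝ) + 1 - (fl r t n i : ℝ) := by
    rw [Nat.cast_sub hle]; push_cast; ring
  have hFN : (fl r t n i : ℝ) + ((n + 1 - fl r t n i : ℕ) : ℝ) = (n : ℝ) + 1 := by
    rw [hNc]; ring
  have hW1 : (n : ℝ) * (1 - u ^ 2 * t) ≤ b + u ^ 2 * β := by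
    have h := hP.hW1
    have e1 : t / (r : ℝ) ^ 2 = u ^ 2 * t := by rw [hu2]; ring
    have e2 : β / (r : ℝ) ^ 2 = u ^ 2 * β := by rw [hu2]; ring
    rw [e1, e2] at h; exact h
  have hW2 : b + u ^ 2 * β ≤ ((n : ℝ) + u) * (1 - u ^ 2 * t) := by
    have h := hP.hW2
    have e1 : t / (r : ℝ) ^ 2 = u ^ 2 * t := by rw [hu2]; ring
    have e2 : β / (r : ℝ) ^ 2 = u ^ 2 * β := by rw [hu2]; ring
    rw [e1, e2] at h; exact h
  obtain ⟨hN1, hN2⟩ := D2_basic (N := ((n + 1 - fl r t n i : ℕ) : ℝ)) (I := (i : ℝ)) huR hu0 hu1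
    hF.c0 hF.c1 hc1k hF.k0 hk1 hF.t0 ht1 hF.lam_eq hL1 (by rw [hNc]; linarith)
    (by rw [hNc]; linarith)
  have hfit := D2_fit (b := b) (β := β) hu0 hu1 hF.k0 hF.t0 ht1 hI0 hFN hN1 hW1
  have hwaste := D2_waste (b := b) (β := β) huR hu0 hu1 hF.c0 hF.k0 hk1 hF.t0 ht1 hI0 hI hFN
    hN2 hW2
  have hid : (i : ℝ) / cs t = (i : ℝ) * (1 + kap t) := by
    rw [← hF.ic]; ring
  have hqt : u ^ 2 * t < 1 := by nlinarith [hF.t0]
  have key := PW.row (fl r t n i : ℝ) b (u ^ 2) t (β + (i : ℝ) / cs t) (n + 1 - fl r t n i)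
    hF.t0.le (by positivity) hqt (by rw [hid]; exact hfit)
  have h7 : (7 : ℝ) / r = 7 * u := by rw [hu]; ring
  rw [h7]
  refine PW.mono (a := ((b + u ^ 2 * (β + (i : ℝ) / cs t + 1 / cs t)) / (1 - u ^ 2 * t) -
    (fl r t n i : ℝ)) / cs t - ((n + 1 - fl r t n i : ℕ) : ℝ)) ?_ ?_
  · have hset : rowC r b t β n i = {z : ℝ × ℝ | (fl r t n i : ℝ) ≤ z.1 ∧ z.1 ≤ b + u ^ 2 * z.2 ∧
        t * z.1 + (β + (i : ℝ) / cs t) ≤ z.2 ∧
        z.2 ≤ t * z.1 + (β + (i : ℝ) / cs t) + 1 / cs t} := by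
      rw [hu2]; rfl
    rw [hset]; exact key
  · rw [hid, hF.ic]
    exact hwaste

end SqUp
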