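import Pool.Agent.Lib.MP_e85462_co.U.A5
import Pool.Agent.Lib.MP_e85462_co.U.B1
import Pool.Agent.Lib.MP_e85462_co.U.D1

open MeasureTheory Set

namespace SqUp

theorem col_waste {r : ℕ} {b t β : ℝ} {n : ℕ} (hP : Par r b t β n) (c : ℕ)
    (hc : fl r t n 0 ≤ c) (hc2 : c < n - 4 * r) :
    PW (colC r t β n c (nxt r t) (nxb r t β n)) (4 / r) := by
  have F := hP.facts
  obtain ⟨h1, h2⟩ := line_ge_col hP hc hc2
  obtain ⟨-, hir, -⟩ := ir_spec hP hc hc2
  have hr0 : (0 : ℝ) < r := by linarith [F.r10]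
  have hcast : ((r ^ 2 - ir r t n c : ℕ) : ℝ) = (r : ℝ) ^ 2 - ir r t n c := by
    rw [Nat.cast_sub hir]
    push_cast
    ring
  have hnx : 0 ≤ nxt r t := by linarith [F.t0, F.tn]
  have key := PW.col (c : ℝ) t (β + ir r t n c / cs t) (nxt r t) (nxb r t β n)
    (r ^ 2 - ir r t n c) F.t0.le hnx (by rw [hcast]; linarith)
  refine PW.mono key ?_
  rw [hcast]
  have hk : kap t ≤ 9 / (80 * r) := by
    refine F.k1.trans ?_
    rw [div_le_div_iff₀ (by positivity) (by positivity)]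
    nlinarith [F.r10]
  have e1 : (3 : ℝ) / (2 * r) = 3 / 2 * (1 / r) := by field_simp
  have e2 : (9 : ℝ) / (80 * r) = 9 / 80 * (1 / r) := by field_simp
  have e3 : (4 : ℝ) / r = 4 * (1 / r) := by field_simp
  have hinv : 0 < 1 / (r : ℝ) := by positivity
  have ht1 := F.t1
  have ht2 := hP.ht2
  rw [e1] at ht1 ht2
  rw [e2] at hk
  rw [e3]
  linarith

theorem col_long {r : ℕ} {b t β H : ℝ} {n : ℕ} (hP : Par r b t β n)
    (hY : nxb r t β n + nxt r t * b ≤ H * (1 - nxt r t / (r : ℝ) ^ 2)) (c : ℕ)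
    (hc : fl r t n 0 ≤ c) (hc2 : c < n - 4 * r) :
    PW (colC r t β n c 0 H) 2 := by
  have F := hP.facts
  obtain ⟨h1, -⟩ := line_ge_col hP hc hc2
  obtain ⟨-, hir, -⟩ := ir_spec hP hc hc2
  have hr0 : (0 : ℝ) < r := by linarith [F.r10]
  have hnx : 0 ≤ nxt r t := by linarith [F.t0, F.tn]
  have hirR : (ir r t n c : ℝ) ≤ (r : ℝ) ^ 2 := by exact_mod_cast hir
  have hcs : 0 < cs t := by linarith [F.c0]
  have hic : 0 ≤ (ir r t n c : ℝ) / cs t := by positivity
  have hcn : (c : ℝ) ≤ b := by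
    have h3 : c + 4 * r ≤ n := by omega
    have h4 : (c : ℝ) + 4 * r ≤ n := by exact_mod_cast h3
    linarith [hP.hn2]
  have hc0 : (0 : ℝ) ≤ c := Nat.cast_nonneg c
  have hmul : nxt r t * c ≤ nxt r t * b := mul_le_mul_of_nonneg_left hcn hnx
  have hpos : 0 ≤ t * ((c : ℝ) + 1) + (β + ir r t n c / cs t) := by
    have h5 : 0 ≤ t * ((c : ℝ) + 1) := mul_nonneg F.t0.le (by linarith)
    linarith [hP.hβ]
  have hL : t * ((c : ℝ) + 1) + (β + ir r t n c / cs t) ≤ nxb r t β n + nxt r t * b := by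
    linarith
  have hy0 : 0 ≤ nxt r t / (r : ℝ) ^ 2 := by positivity
  have hy1 := F.qtn
  have hH : 0 ≤ H := by
    by_contra hcon
    push Not at hcon
    have : H * (1 - nxt r t / (r : ℝ) ^ 2) < 0 := mul_neg_of_neg_of_pos hcon (by linarith)
    linarith
  have hHy : H * (1 - nxt r t / (r : ℝ) ^ 2) ≤ H := by
    have := mul_nonneg hH hy0
    linarith
  have hroom : 0 ≤ H - (t * ((c : ℝ) + 1) + (β + ir r t n c / cs t)) := by linarith
  have hfl := Nat.floor_le hroom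
  have hfl2 := Nat.lt_floor_add_one (H - (t * ((c : ℝ) + 1) + (β + ir r t n c / cs t)))
  have key := PW.col (c : ℝ) t (β + ir r t n c / cs t) 0 H
    ⌊H - (t * ((c : ℝ) + 1) + (β + ir r t n c / cs t))⌋₊ F.t0.le le_rfl (by linarith)
  refine PW.mono key ?_
  have ht : t ≤ 1 := by
    refine F.t1.trans ?_
    rw [div_le_one (by positivity)]
    linarith [F.r10]
  linarith

end SqUp
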