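import Pool.Agent.Lib.MP_e85462_co.U.A3
import Pool.Agent.Lib.MP_e85462_co.U.C3

open MeasureTheory Set

namespace SqUp

theorem D4_bounds {u t l k : ℝ} (hu0 : 0 < u) (hu1 : u ≤ 1 / 10) (ht0 : 0 ≤ t)
    (ht1 : t ≤ 3 / 2 * u) (hl0 : 0 ≤ l) (hl1 : l ≤ 13 / 10 * u ^ 2) (_hk0 : 0 ≤ k)
    (hk1 : k ≤ 9 / 8 * u ^ 2) :
    0 ≤ u ^ 2 * (t + l) ∧ u ^ 2 * (t + l) ≤ 1 / 50 * u ∧ u ^ 2 * t ≤ 1 / 50 * u ∧
      0 ≤ t * u ^ 3 ∧ k * (1 + u ^ 2) ≤ 12 / 100 * u ∧ 4 * u * l ≤ 6 / 100 * u ∧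
      k ≤ 12 / 100 * u ∧ l * (1 + 2 * u) ≤ 16 / 100 * u := by
  have hu2 : u ^ 2 ≤ 1 / 10 * u := by nlinarith
  have hu20 : 0 ≤ u ^ 2 := sq_nonneg u
  have hu21 : u ^ 2 ≤ 1 / 100 := by nlinarith
  have h1 : u ^ 2 * t ≤ 1 / 100 * (3 / 2 * u) := mul_le_mul hu21 ht1 ht0 (by norm_num)
  have h2 : u ^ 2 * l ≤ 1 / 100 * (13 / 10 * u ^ 2) := mul_le_mul hu21 hl1 hl0 (by norm_num)
  have h3 : 4 * u * l ≤ 4 * (1 / 10) * (13 / 10 * u ^ 2) :=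
    mul_le_mul (by linarith) hl1 hl0 (by norm_num)
  have h4 : k * (1 + u ^ 2) ≤ (9 / 8 * u ^ 2) * (1 + 1 / 100) :=
    mul_le_mul hk1 (by linarith) (by linarith) (by linarith)
  have h5 : l * (1 + 2 * u) ≤ (13 / 10 * u ^ 2) * (12 / 10) :=
    mul_le_mul hl1 (by linarith) (by linarith) (by linarith)
  refine ⟨mul_nonneg hu20 (by linarith), ?_, ?_, mul_nonneg ht0 (by positivity), ?_, ?_, ?_, ?_⟩
  · rw [mul_add]
    linarith
  · linarith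
  · linarith
  · linarith
  · linarith
  · linarith

theorem D4_wall {u R n b t l k β x y : ℝ} (hu0 : 0 < u) (hu1 : u ≤ 1 / 10) (huR : u * R = 1)
    (ht0 : 0 ≤ t)
    (ht1 : t ≤ 3 / 2 * u) (hl0 : 0 ≤ l) (hl1 : l ≤ 13 / 10 * u ^ 2) (hk0 : 0 ≤ k)
    (hk1 : k ≤ 9 / 8 * u ^ 2) (hW : b + β * u ^ 2 ≤ (n + u) * (1 - t * u ^ 2))
    (h1 : x ≤ b + u ^ 2 * y)
    (h2 : y ≤ (t + l) * x + (β + R ^ 2 + t + k * (R ^ 2 + 1) - l * (n - 4 * R))) :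
    x ≤ n + 1 + 2 * u := by
  obtain ⟨b1, b2, b3, b4, b5, b6, -, -⟩ := D4_bounds hu0 hu1 ht0 ht1 hl0 hl1 hk0 hk1
  have h3 := mul_le_mul_of_nonneg_left h2 (sq_nonneg u)
  have hR2 : u ^ 2 * R ^ 2 = 1 := by
    rw [← mul_pow, huR, one_pow]
  have e : u ^ 2 * ((t + l) * x + (β + R ^ 2 + t + k * (R ^ 2 + 1) - l * (n - 4 * R))) =
      u ^ 2 * (t + l) * x + u ^ 2 * β + u ^ 2 * R ^ 2 + u ^ 2 * t + k * (u ^ 2 * R ^ 2 + u ^ 2)
        - u ^ 2 * l * n + 4 * u * l * (u * R) := by ring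
  rw [e, hR2, huR] at h3
  have h4 : (x - n) * (1 - u ^ 2 * (t + l)) ≤
      1 + u + u ^ 2 * t - t * u ^ 3 + k * (1 + u ^ 2) + 4 * u * l := by
    have e1 : (x - n) * (1 - u ^ 2 * (t + l)) = x - n - u ^ 2 * (t + l) * x +
        u ^ 2 * t * n + u ^ 2 * l * n := by ring
    have e2 : (n + u) * (1 - t * u ^ 2) = n + u - u ^ 2 * t * n - t * u ^ 3 := by ring
    rw [e1]
    rw [e2] at hW
    have e3 : β * u ^ 2 = u ^ 2 * β := by ring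
    have e4 : k * (1 + u ^ 2) = k * (1 + u ^ 2) := rfl
    linarith
  by_contra hcon
  push Not at hcon
  have h5 : (1 + 2 * u) * (1 - u ^ 2 * (t + l)) ≤ (x - n) * (1 - u ^ 2 * (t + l)) :=
    mul_le_mul_of_nonneg_right (by linarith) (by linarith)
  have h6 : (1 + 2 * u) * (u ^ 2 * (t + l)) ≤ (12 / 10) * (1 / 50 * u) :=
    mul_le_mul (by linarith) b2 b1 (by norm_num)
  have e5 : (1 + 2 * u) * (1 - u ^ 2 * (t + l)) = 1 + 2 * u - (1 + 2 * u) * (u ^ 2 * (t + l)) := by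
    ring
  rw [e5] at h5
  linarith

theorem D4_height {u R n t l k β x y c : ℝ} (hu0 : 0 < u) (hu1 : u ≤ 1 / 10) (huR : u * R = 1)
    (ht0 : 0 ≤ t)
    (ht1 : t ≤ 3 / 2 * u) (hl0 : 0 ≤ l) (hl1 : l ≤ 13 / 10 * u ^ 2) (hk0 : 0 ≤ k)
    (hk1 : k ≤ 9 / 8 * u ^ 2) (hc : c = 1 + k) (hx : x ≤ n + 1 + 2 * u)
    (h2 : y ≤ (t + l) * x + (β + R ^ 2 + t + k * (R ^ 2 + 1) - l * (n - 4 * R))) :
    y ≤ t * x + (β + R ^ 2 * c) + 7 * u := by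
  obtain ⟨-, -, -, -, -, -, b7, b8⟩ := D4_bounds hu0 hu1 ht0 ht1 hl0 hl1 hk0 hk1
  have h3 : l * (x - n) ≤ l * (1 + 2 * u) := mul_le_mul_of_nonneg_left (by linarith) hl0
  have hR0 : 0 ≤ R := by
    by_contra hneg
    push Not at hneg
    have := mul_neg_of_pos_of_neg hu0 hneg
    linarith
  have h4 : l * R ≤ 13 / 10 * u ^ 2 * R := mul_le_mul_of_nonneg_right hl1 hR0
  have e4 : 13 / 10 * u ^ 2 * R = 13 / 10 * u * (u * R) := by ring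
  rw [e4, huR] at h4
  rw [hc]
  have e : (t + l) * x + (β + R ^ 2 + t + k * (R ^ 2 + 1) - l * (n - 4 * R)) =
      t * x + (β + R ^ 2 * (1 + k)) + (t + k + l * (x - n) + 4 * (l * R)) := by ring
  rw [e] at h2
  linarith

theorem gap_vol {r : ℕ} {b t β : ℝ} {n : ℕ} (hP : Par r b t β n) :
    volume (gapC r b t β n) ≤ ENNReal.ofReal 40 := by
  have F := hP.facts
  have hr10 := F.r10
  have hr0 : (0 : ℝ) < r := by linarith
  set R : ℝ := (r : ℝ) with hR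
  set u : ℝ := 1 / R with hu
  have hu0 : 0 < u := by positivity
  have hu1 : u ≤ 1 / 10 := by
    rw [hu]
    exact one_div_le_one_div_of_le (by norm_num) hr10
  have huR : u * R = 1 := by
    rw [hu]
    field_simp
  have hq : 1 / R ^ 2 = u ^ 2 := by
    rw [hu, one_div_pow]
  have ht1 : t ≤ 3 / 2 * u := by
    have h := F.t1
    have e : 3 / (2 * R) = 3 / 2 * u := by
      rw [hu]
      field_simp
    rwa [e] at h
  have hl1 : kap t / lam r t ≤ 13 / 10 * u ^ 2 := by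
    have h := F.kl1
    have e : 13 / (10 * R ^ 2) = 13 / 10 * u ^ 2 := by
      rw [← hq]
      field_simp
    rwa [e] at h
  have hk1 : kap t ≤ 9 / 8 * u ^ 2 := by
    have h := F.k1
    have e : 9 / (8 * R ^ 2) = 9 / 8 * u ^ 2 := by
      rw [← hq]
      field_simp
    rwa [e] at h
  have hW : b + β * u ^ 2 ≤ ((n : ℝ) + u) * (1 - t * u ^ 2) := by
    have h := hP.hW2
    have e1 : β / R ^ 2 = β * u ^ 2 := by
      rw [← hq]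
      ring
    have e2 : t / R ^ 2 = t * u ^ 2 := by
      rw [← hq]
      ring
    rw [← hR, ← hu, e1, e2] at h
    exact h
  have hcs : R ^ 2 / cs t = R ^ 2 * (1 + kap t) := by
    rw [← F.ic]
    ring
  have hsub : gapC r b t β n ⊆ {z : ℝ × ℝ | (n : ℝ) - 4 * R ≤ z.1 ∧ z.1 ≤ (n : ℝ) + 1 + 2 * u ∧
      t * z.1 + (β + R ^ 2 / cs t) ≤ z.2 ∧ z.2 ≤ t * z.1 + (β + R ^ 2 / cs t) + 7 * u} := by
    rintro z ⟨h1, h2, h3, h4⟩
    have h2' : z.1 ≤ b + u ^ 2 * z.2 := by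
      rw [← hq]
      exact h2
    have h4' : z.2 ≤ (t + kap t / lam r t) * z.1 + (β + R ^ 2 + t + kap t * (R ^ 2 + 1) -
        kap t / lam r t * ((n : ℝ) - 4 * R)) := h4
    have h5 := D4_wall hu0 hu1 huR F.t0.le ht1 F.kl0 hl1 F.k0 hk1 hW h2' h4'
    refine ⟨h1, h5, h3, ?_⟩
    rw [hcs]
    exact D4_height hu0 hu1 huR F.t0.le ht1 F.kl0 hl1 F.k0 hk1 rfl h5 h4'
  have hvol := vol_strip ((n : ℝ) - 4 * R) ((n : ℝ) + 1 + 2 * u) t (β + R ^ 2 / cs t) (7 * u)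
    (by linarith) (by linarith)
  refine (measure_mono hsub).trans (hvol.trans (ENNReal.ofReal_le_ofReal ?_))
  have e : ((n : ℝ) + 1 + 2 * u - ((n : ℝ) - 4 * R)) * (7 * u) = 7 * u + 14 * (u * u) +
      28 * (u * R) := by ring
  have huu : u * u ≤ 1 / 10 * (1 / 10) := mul_le_mul hu1 hu1 hu0.le (by norm_num)
  rw [e, huR]
  linarith

end SqUp
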