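import Pool.Agent.Lib.MP_e85462_co.U.D0

open MeasureTheory Set

namespace SqUp

theorem fl_mono {r : ℕ} {b t β : ℝ} {n : ℕ} (hP : Par r b t β n) :
    fl r t n 0 ≤ fl r (nxt r t) (n + 1) 0 ∧ fl r (nxt r t) (n + 1) 0 ≤ n - 4 * r ∧
    (n : ℝ) - 4 * r - fl r (nxt r t) (n + 1) 0 ≤ 2 * (r : ℝ) ^ 2 + 2 := by
  have F := hP.facts
  have h10 := F.r10
  have hr2 : (100 : ℝ) ≤ (r : ℝ) ^ 2 := by nlinarith
  have hn3 : 4 * r ≤ n := by have := F.n3; omega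
  have hA : lam r (nxt r t) * (r : ℝ) ^ 2 ≤ lam r t * (r : ℝ) ^ 2 :=
    mul_le_mul_of_nonneg_right F.lamn1 (by positivity)
  have hB : 8 / 9 * (r : ℝ) ^ 2 ≤ lam r (nxt r t) * (r : ℝ) ^ 2 :=
    mul_le_mul_of_nonneg_right F.lamn0 (by positivity)
  have hC : lam r t * (r : ℝ) ^ 2 ≤ 2 * (r : ℝ) ^ 2 + 2 := by
    calc lam r t * (r : ℝ) ^ 2 ≤ (2 + 2 / (r : ℝ) ^ 2) * (r : ℝ) ^ 2 :=
          mul_le_mul_of_nonneg_right F.lam1 (by positivity)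
      _ = 2 * (r : ℝ) ^ 2 + 2 := by field_simp
  unfold fl
  refine ⟨?_, ?_, ?_⟩
  · refine Nat.floor_mono ?_
    push_cast
    linarith
  · rw [← Nat.lt_succ_iff]
    refine (Nat.floor_lt' (Nat.succ_ne_zero _)).2 ?_
    have e : (((n - 4 * r : ℕ).succ : ℕ) : ℝ) = (n : ℝ) - 4 * r + 1 := by
      rw [Nat.cast_succ, Nat.cast_sub hn3]
      push_cast
      ring
    rw [e]
    push_cast
    linarith
  · have h3 := Nat.lt_floor_add_one (((n + 1 : ℕ) : ℝ) + 1 - 4 * r -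
      lam r (nxt r t) * ((r : ℝ) ^ 2 - ((0 : ℕ) : ℝ)))
    push_cast at h3 ⊢
    linarith

end SqUp
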