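import Pool.Agent.Lib.MP_e85462_co.U.D5

open MeasureTheory Set

namespace SqUp

private theorem D6_ir_mono {r : ℕ} {b t β : ℝ} {n : ℕ} (hP : Par r b t β n) {c c' : ℕ}
    (hc : fl r t n 0 ≤ c) (hcc : c ≤ c') (hc2 : c' < n - 4 * r) :
    ir r t n c ≤ ir r t n c' := by
  by_contra h
  rw [not_le] at h
  have h1 := (ir_spec hP hc (lt_of_le_of_lt hcc hc2)).2.2.2.2 (ir r t n c')
  have h2 := (ir_spec hP (hc.trans hcc) hc2).2.2.2.2 (ir r t n c')
  have h3 := h1.1 h
  exact lt_irrefl _ (h2.2 (h3.trans hcc))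

theorem step_cover {r : ℕ} {b t β H : ℝ} {n : ℕ} (hP : Par r b t β n)
    (hY : nxb r t β n + nxt r t * b ≤ H * (1 - nxt r t / (r : ℝ) ^ 2)) :
    Ereg r b H (nxt r t) (nxb r t β n) (fl r (nxt r t) (n + 1) 0) ⊆
      ((Ereg r b H t β (fl r t n 0) ∪ ⋃ i ∈ Finset.range (r ^ 2), rowC r b t β n i) ∪
        ⋃ c ∈ Finset.Ico (fl r t n 0) (n - 4 * r), colC r t β n c
          (upS r t (fl r (nxt r t) (n + 1) 0) c) (upA r t β H n (fl r (nxt r t) (n + 1) 0) c)) ∪
      gapC r b t β n := by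
  have hF := hP.facts
  have hcs : 0 < cs t := by have := hF.c0; linarith
  have hmono := fl_mono hP
  have h4 : 4 * r ≤ n := by have := hF.n3; omega
  have hcast : ((n - 4 * r : ℕ) : ℝ) = (n : ℝ) - 4 * r := by
    rw [Nat.cast_sub h4]; push_cast; ring
  rintro z ⟨⟨hz0, hz1, hz2, hz3⟩, hz4⟩
  -- the old region
  by_cases hA : z.1 ≤ (fl r t n 0 : ℝ) ∨ z.2 ≤ t * z.1 + β
  · exact Or.inl (Or.inl (Or.inl ⟨⟨hz0, hz1, hz2, hz3⟩, hA⟩))
  rw [not_or, not_le, not_le] at hA
  obtain ⟨hg, hβ⟩ := hA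
  have hy : 0 < z.2 - t * z.1 - β := by linarith
  -- membership in a row
  have hrow : ∀ i : ℕ, i < r ^ 2 → (fl r t n i : ℝ) ≤ z.1 →
      (i : ℝ) ≤ (z.2 - t * z.1 - β) * cs t → (z.2 - t * z.1 - β) * cs t ≤ (i : ℝ) + 1 →
      z ∈ ((Ereg r b H t β (fl r t n 0) ∪ ⋃ i ∈ Finset.range (r ^ 2), rowC r b t β n i) ∪
        ⋃ c ∈ Finset.Ico (fl r t n 0) (n - 4 * r), colC r t β n c
          (upS r t (fl r (nxt r t) (n + 1) 0) c) (upA r t β H n (fl r (nxt r t) (n + 1) 0) c)) ∪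
      gapC r b t β n := by
    intro i hi h1 h2 h3
    refine Or.inl (Or.inl (Or.inr ?_))
    rw [mem_iUnion₂]
    refine ⟨i, Finset.mem_range.2 hi, h1, hz3, ?_, ?_⟩
    · have : (i : ℝ) / cs t ≤ z.2 - t * z.1 - β := (div_le_iff₀ hcs).2 h2
      linarith
    · have : z.2 - t * z.1 - β ≤ ((i : ℝ) + 1) / cs t := (le_div_iff₀ hcs).2 h3
      rw [add_div] at this
      linarith
  -- membership in a column
  have hcol : ∀ c : ℕ, fl r t n 0 ≤ c → c < n - 4 * r → (c : ℝ) ≤ z.1 → z.1 ≤ (c : ℝ) + 1 →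
      t * z.1 + (β + ir r t n c / cs t) ≤ z.2 →
      (c < fl r (nxt r t) (n + 1) 0 ∨ z.2 ≤ nxt r t * z.1 + nxb r t β n) →
      z ∈ ((Ereg r b H t β (fl r t n 0) ∪ ⋃ i ∈ Finset.range (r ^ 2), rowC r b t β n i) ∪
        ⋃ c ∈ Finset.Ico (fl r t n 0) (n - 4 * r), colC r t β n c
          (upS r t (fl r (nxt r t) (n + 1) 0) c) (upA r t β H n (fl r (nxt r t) (n + 1) 0) c)) ∪
      gapC r b t β n := by
    intro c h1 h2 h3 h4' h5 h6
    refine Or.inl (Or.inr ?_)
    rw [mem_iUnion₂]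
    refine ⟨c, Finset.mem_Ico.2 ⟨h1, h2⟩, h3, h4', h5, ?_⟩
    rw [upS, upA]
    split_ifs with h
    · rw [zero_mul, zero_add]; exact hz2
    · rcases h6 with h6 | h6
      · exact absurd h6 h
      · exact h6
  rcases lt_or_ge z.1 ((n : ℝ) - 4 * r) with hB | hC
  · -- z.1 < n - 4 r
    have hc1 : ((⌊z.1⌋₊ : ℕ) : ℝ) ≤ z.1 := Nat.floor_le hz0
    have hc2 : z.1 < ((⌊z.1⌋₊ : ℕ) : ℝ) + 1 := Nat.lt_floor_add_one _
    obtain ⟨c, hc⟩ : ∃ c : ℕ, c = ⌊z.1⌋₊ := ⟨_, rfl⟩
    rw [← hc] at hc1 hc2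
    have hgc : fl r t n 0 ≤ c := by
      rw [hc]; exact Nat.le_floor hg.le
    have hcn : c < n - 4 * r := by
      have : (c : ℝ) < ((n - 4 * r : ℕ) : ℝ) := by rw [hcast]; linarith
      exact_mod_cast this
    obtain ⟨hi1, hi2, -, -, hi5⟩ := ir_spec hP hgc hcn
    rcases le_or_gt (t * z.1 + (β + ir r t n c / cs t)) z.2 with hB1 | hB2
    · by_cases hlast : c < fl r (nxt r t) (n + 1) 0 ∨ z.2 ≤ nxt r t * z.1 + nxb r t β n
      · exact hcol c hgc hcn hc1 hc2.le hB1 hlast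
      · rw [not_or, not_lt, not_le] at hlast
        have hz4' : z.1 ≤ (fl r (nxt r t) (n + 1) 0 : ℝ) := by
          rcases hz4 with h | h
          · exact h
          · exact absurd h (not_le.2 hlast.2)
        have hce : (c : ℝ) = z.1 := by
          have : (fl r (nxt r t) (n + 1) 0 : ℝ) ≤ (c : ℝ) := by exact_mod_cast hlast.1
          linarith
        have hcg : fl r (nxt r t) (n + 1) 0 = c := by
          have h1 : (c : ℝ) ≤ (fl r (nxt r t) (n + 1) 0 : ℝ) := by rw [hce]; exact hz4'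
          have h2 : c ≤ fl r (nxt r t) (n + 1) 0 := by exact_mod_cast h1
          exact le_antisymm hlast.1 h2
        have hgc' : fl r t n 0 < c := by
          have : (fl r t n 0 : ℝ) < (c : ℝ) := by rw [hce]; exact hg
          exact_mod_cast this
        have hc0 : 1 ≤ c := by omega
        have hcm : ((c - 1 : ℕ) : ℝ) = (c : ℝ) - 1 := by
          rw [Nat.cast_sub hc0]; push_cast; ring
        refine hcol (c - 1) (by omega) (by omega) ?_ ?_ ?_ (Or.inl (by omega))
        · rw [hcm]; linarith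
        · rw [hcm]; linarith
        · have hm := D6_ir_mono hP (c := c - 1) (c' := c) (by omega) (by omega) hcn
          have hm' : (ir r t n (c - 1) : ℝ) / cs t ≤ (ir r t n c : ℝ) / cs t := by
            have : (ir r t n (c - 1) : ℝ) ≤ (ir r t n c : ℝ) := by exact_mod_cast hm
            gcongr
          linarith
    · -- a row
      have hyc : (z.2 - t * z.1 - β) * cs t < (ir r t n c : ℝ) := by
        have : z.2 - t * z.1 - β < (ir r t n c : ℝ) / cs t := by linarith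
        exact (lt_div_iff₀ hcs).1 this
      have hyc0 : 0 ≤ (z.2 - t * z.1 - β) * cs t := by positivity
      have hf1 := Nat.floor_le hyc0
      have hf2 := Nat.lt_floor_add_one ((z.2 - t * z.1 - β) * cs t)
      have hi : ⌊(z.2 - t * z.1 - β) * cs t⌋₊ < ir r t n c := by
        rw [Nat.floor_lt hyc0]; exact hyc
      refine hrow _ (lt_of_lt_of_le hi hi2) ?_ hf1 hf2.le
      have := (hi5 _).1 hi
      have h' : (fl r t n ⌊(z.2 - t * z.1 - β) * cs t⌋₊ : ℝ) ≤ (c : ℝ) := by exact_mod_cast this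
      linarith
  · -- z.1 ≥ n - 4 r
    rcases le_or_gt z.2 (t * z.1 + (β + (r : ℝ) ^ 2 / cs t)) with hC1 | hC2
    · have hyc : (z.2 - t * z.1 - β) * cs t ≤ (r : ℝ) ^ 2 := by
        have : z.2 - t * z.1 - β ≤ (r : ℝ) ^ 2 / cs t := by linarith
        exact (le_div_iff₀ hcs).1 this
      have hyc0 : 0 ≤ (z.2 - t * z.1 - β) * cs t := by positivity
      have hr10 := hP.hr
      have hr2 : 1 ≤ r ^ 2 := Nat.one_le_pow _ _ (by omega)
      rcases lt_or_eq_of_le hyc with hlt | heq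
      · have hf1 := Nat.floor_le hyc0
        have hf2 := Nat.lt_floor_add_one ((z.2 - t * z.1 - β) * cs t)
        have hi : ⌊(z.2 - t * z.1 - β) * cs t⌋₊ < r ^ 2 := by
          rw [Nat.floor_lt hyc0]; push_cast; exact hlt
        refine hrow _ hi ?_ hf1 hf2.le
        have := fl_last hP hi
        have h' : (fl r t n ⌊(z.2 - t * z.1 - β) * cs t⌋₊ : ℝ) ≤ ((n - 4 * r : ℕ) : ℝ) := by
          exact_mod_cast this
        rw [hcast] at h'
        linarith
      · have hi : r ^ 2 - 1 < r ^ 2 := by omega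
        have hcm : ((r ^ 2 - 1 : ℕ) : ℝ) = (r : ℝ) ^ 2 - 1 := by
          rw [Nat.cast_sub hr2]; push_cast; ring
        refine hrow (r ^ 2 - 1) hi ?_ ?_ ?_
        · have := fl_last hP hi
          have h' : (fl r t n (r ^ 2 - 1) : ℝ) ≤ ((n - 4 * r : ℕ) : ℝ) := by exact_mod_cast this
          rw [hcast] at h'
          linarith
        · rw [hcm, heq]; linarith
        · rw [hcm, heq]; linarith
    · -- the gap
      by_cases hlast : z.2 ≤ nxt r t * z.1 + nxb r t β n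
      · exact Or.inr ⟨hC, hz3, hC2.le, hlast⟩
      · have hz4' : z.1 ≤ (fl r (nxt r t) (n + 1) 0 : ℝ) := by
          rcases hz4 with h | h
          · exact h
          · exact absurd h hlast
        have hg' : (fl r (nxt r t) (n + 1) 0 : ℝ) ≤ (n : ℝ) - 4 * r := by
          rw [← hcast]; exact_mod_cast hmono.2.1
        have hze : z.1 = (n : ℝ) - 4 * r := by linarith
        have hge : fl r (nxt r t) (n + 1) 0 = n - 4 * r := by
          refine le_antisymm hmono.2.1 ?_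
          have : ((n - 4 * r : ℕ) : ℝ) ≤ (fl r (nxt r t) (n + 1) 0 : ℝ) := by
            rw [hcast, ← hze]; exact hz4'
          exact_mod_cast this
        have hgn : fl r t n 0 < n - 4 * r := by
          have : (fl r t n 0 : ℝ) < ((n - 4 * r : ℕ) : ℝ) := by rw [hcast, ← hze]; exact hg
          exact_mod_cast this
        have hcm : ((n - 4 * r - 1 : ℕ) : ℝ) = (n : ℝ) - 4 * r - 1 := by
          rw [Nat.cast_sub (by omega), hcast]; push_cast; ring
        refine hcol (n - 4 * r - 1) (by omega) (by omega) ?_ ?_ ?_ (Or.inl (by omega))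
        · rw [hcm]; linarith
        · rw [hcm]; linarith
        · have hm := (ir_spec hP (c := n - 4 * r - 1) (by omega) (by omega)).2.1
          have hm' : (ir r t n (n - 4 * r - 1) : ℝ) / cs t ≤ (r : ℝ) ^ 2 / cs t := by
            have : (ir r t n (n - 4 * r - 1) : ℝ) ≤ (r : ℝ) ^ 2 := by exact_mod_cast hm
            gcongr
          linarith

end SqUp
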