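import Pool.Agent.Lib.MP_e85462_co.U.D1
import Pool.Agent.Lib.MP_e85462_co.U.D5

open MeasureTheory Set

namespace SqUp

theorem D7_le {r : ℕ} {b t' β' H x y : ℝ} (ht' : 0 ≤ t') (hq : t' / (r : ℝ) ^ 2 ≤ 3 / 2000)
    (hY : β' + t' * b ≤ H * (1 - t' / (r : ℝ) ^ 2)) (hx : x ≤ b + 1 / (r : ℝ) ^ 2 * y)
    (hy : y ≤ t' * x + β') : y ≤ H := by
  have h1 : t' * x ≤ t' * (b + 1 / (r : ℝ) ^ 2 * y) := mul_le_mul_of_nonneg_left hx ht'
  have h2 : t' * (b + 1 / (r : ℝ) ^ 2 * y) = t' * b + t' / (r : ℝ) ^ 2 * y := by ring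
  have h3 : y * (1 - t' / (r : ℝ) ^ 2) ≤ H * (1 - t' / (r : ℝ) ^ 2) := by nlinarith
  exact le_of_mul_le_mul_right h3 (by linarith)

theorem step_sub_row {r : ℕ} {b t β H : ℝ} {n : ℕ} (hP : Par r b t β n)
    (hY : nxb r t β n + nxt r t * b ≤ H * (1 - nxt r t / (r : ℝ) ^ 2)) (i : ℕ)
    (hi : i < r ^ 2) :
    rowC r b t β n i ⊆
      Ereg r b H (nxt r t) (nxb r t β n) (fl r (nxt r t) (n + 1) 0) := by
  have hF := hP.facts
  intro z hz
  obtain ⟨h1, h2, h3, h4⟩ := hz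
  have hline := line_ge hP hi h1
  have hz1 : 0 ≤ z.1 := le_trans (Nat.cast_nonneg _) h1
  have hcs : 0 < cs t := by linarith [hF.c0]
  have hz2 : 0 ≤ z.2 := by
    have h5 : 0 ≤ t * z.1 := mul_nonneg hF.t0.le hz1
    have h6 : 0 ≤ (i : ℝ) / cs t := by positivity
    linarith [hP.hβ]
  have ht' : 0 ≤ nxt r t := le_trans hF.t0.le hF.tn
  refine ⟨⟨hz1, hz2, ?_, h2⟩, Or.inr (h4.trans hline)⟩
  exact D7_le ht' hF.qtn hY h2 (h4.trans hline)

theorem step_sub_col {r : ℕ} {b t β H : ℝ} {n : ℕ} (hP : Par r b t β n)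
    (hY : nxb r t β n + nxt r t * b ≤ H * (1 - nxt r t / (r : ℝ) ^ 2)) (c : ℕ)
    (hc : fl r t n 0 ≤ c) (hc2 : c < n - 4 * r) :
    colC r t β n c
      (upS r t (fl r (nxt r t) (n + 1) 0) c) (upA r t β H n (fl r (nxt r t) (n + 1) 0) c) ⊆
      Ereg r b H (nxt r t) (nxb r t β n) (fl r (nxt r t) (n + 1) 0) := by
  have hF := hP.facts
  intro z hz
  obtain ⟨h1, h2, h3, h4⟩ := hz
  have hz1 : 0 ≤ z.1 := le_trans (Nat.cast_nonneg _) h1
  have hcs : 0 < cs t := by linarith [hF.c0]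
  have hz2 : 0 ≤ z.2 := by
    have h5 : 0 ≤ t * z.1 := mul_nonneg hF.t0.le hz1
    have h6 : 0 ≤ (ir r t n c : ℝ) / cs t := by positivity
    linarith [hP.hβ]
  have ht' : 0 ≤ nxt r t := le_trans hF.t0.le hF.tn
  have hcn : (c : ℝ) + 1 ≤ (n : ℝ) - 4 * r := by
    have h5 : c + 1 + 4 * r ≤ n := by omega
    have h6 : (c : ℝ) + 1 + 4 * r ≤ n := by exact_mod_cast h5
    linarith
  have hr10 := hF.r10
  have hzb : z.1 ≤ b := by
    have := hP.hn2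
    linarith
  have hwall : z.1 ≤ b + 1 / (r : ℝ) ^ 2 * z.2 := by
    have : 0 ≤ 1 / (r : ℝ) ^ 2 * z.2 := by positivity
    linarith
  by_cases hcg : c < fl r (nxt r t) (n + 1) 0
  · rw [upS, upA, if_pos hcg, if_pos hcg] at h4
    refine ⟨⟨hz1, hz2, by linarith, hwall⟩, Or.inl ?_⟩
    have h5 : (c : ℝ) + 1 ≤ (fl r (nxt r t) (n + 1) 0 : ℝ) := by exact_mod_cast hcg
    exact h2.trans h5
  · rw [upS, upA, if_neg hcg, if_neg hcg] at h4
    exact ⟨⟨hz1, hz2, D7_le ht' hF.qtn hY hwall h4, hwall⟩, Or.inr h4⟩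

theorem step_sub_E {r : ℕ} {b t β H : ℝ} {n : ℕ} (hP : Par r b t β n) :
    Ereg r b H t β (fl r t n 0) ⊆
      Ereg r b H (nxt r t) (nxb r t β n) (fl r (nxt r t) (n + 1) 0) := by
  have hF := hP.facts
  intro z hz
  obtain ⟨h1, h2⟩ := hz
  refine ⟨h1, ?_⟩
  have hmono : (fl r t n 0 : ℝ) ≤ (fl r (nxt r t) (n + 1) 0 : ℝ) := by
    exact_mod_cast (fl_mono hP).1
  rcases h2 with h2 | h2
  · exact Or.inl (h2.trans hmono)
  · rcases le_total z.1 (fl r t n 0 : ℝ) with h3 | h3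
    · exact Or.inl (h3.trans hmono)
    · have hr := hP.hr
      have hline := line_ge hP (i := 0) (by positivity) h3
      have hcs : 0 < cs t := by linarith [hF.c0]
      have h5 : 0 < 1 / cs t := by positivity
      refine Or.inr ?_
      simp only [Nat.cast_zero, zero_div] at hline
      linarith

end SqUp
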