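import Pool.Agent.Lib.MP_e85462_co.U.A2
import Pool.Agent.Lib.MP_e85462_co.U.D0

open MeasureTheory Set

namespace SqUp

theorem D8_line {A : Set (ℝ × ℝ)} (t β : ℝ) (h : ∀ z ∈ A, z.2 = t * z.1 + β) :
    volume A = 0 := by
  refine measure_mono_null ?_ (vol_line (-t) 1 β (Or.inr one_ne_zero))
  intro z hz
  show -t * z.1 + 1 * z.2 = β
  rw [h z hz]
  ring

theorem D8_two {A : Set (ℝ × ℝ)} (t β g : ℝ) (h : ∀ z ∈ A, z.1 = g ∨ z.2 = t * z.1 + β) :
    volume A = 0 := by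
  refine measure_mono_null ?_ (measure_union_null (vol_line 1 0 g (Or.inl one_ne_zero))
    (vol_line (-t) 1 β (Or.inr one_ne_zero)))
  intro z hz
  rcases h z hz with h | h
  · left
    show 1 * z.1 + 0 * z.2 = g
    rw [h]
    ring
  · right
    show -t * z.1 + 1 * z.2 = β
    rw [h]
    ring

theorem D8_row_lt {r : ℕ} {b t β : ℝ} {n i i' : ℕ} (h : i < i') :
    volume (rowC r b t β n i ∩ rowC r b t β n i') = 0 := by
  apply D8_line t (β + i' / cs t)
  rintro z ⟨⟨-, -, -, h4⟩, ⟨-, -, h3, -⟩⟩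
  have hcs := cs_pos t
  have h5 : (i : ℝ) + 1 ≤ i' := by exact_mod_cast h
  have h6 : ((i : ℝ) + 1) / cs t ≤ i' / cs t := by gcongr
  rw [add_div] at h6
  apply le_antisymm
  · linarith
  · exact h3

theorem row_row_disj {r : ℕ} {b t β : ℝ} {n i i' : ℕ} (hP : Par r b t β n) (h : i ≠ i') :
    volume (rowC r b t β n i ∩ rowC r b t β n i') = 0 := by
  rcases lt_or_gt_of_ne h with h | h
  · exact D8_row_lt h
  · rw [inter_comm]
    exact D8_row_lt h

theorem D8_col_lt {r : ℕ} {t β : ℝ} {n c c' : ℕ} (s a s' a' : ℝ) (h : c < c') :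
    volume (colC r t β n c s a ∩ colC r t β n c' s' a') = 0 := by
  apply D8_two t β c'
  rintro z ⟨⟨-, h2, -, -⟩, ⟨h1, -, -, -⟩⟩
  have h5 : (c : ℝ) + 1 ≤ c' := by exact_mod_cast h
  left
  apply le_antisymm
  · linarith
  · exact h1

theorem col_col_disj {r : ℕ} {t β : ℝ} {n c c' : ℕ} (s a s' a' : ℝ) (h : c ≠ c') :
    volume (colC r t β n c s a ∩ colC r t β n c' s' a') = 0 := by
  rcases lt_or_gt_of_ne h with h | h
  · exact D8_col_lt s a s' a' h
  · rw [inter_comm]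
    exact D8_col_lt s' a' s a h

theorem row_col_disj {r : ℕ} {b t β : ℝ} {n i c : ℕ} (hP : Par r b t β n) (hi : i < r ^ 2)
    (hc : fl r t n 0 ≤ c) (hc2 : c < n - 4 * r) (s a : ℝ) :
    volume (rowC r b t β n i ∩ colC r t β n c s a) = 0 := by
  obtain ⟨-, -, -, -, hiff⟩ := ir_spec hP hc hc2
  apply D8_two t (β + ir r t n c / cs t) (c + 1)
  rintro z ⟨⟨h1, -, -, h4⟩, ⟨-, h2, h3, -⟩⟩
  by_cases hlt : i < ir r t n c
  · right
    have hcs := cs_pos t
    have h5 : (i : ℝ) + 1 ≤ ir r t n c := by exact_mod_cast hlt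
    have h6 : ((i : ℝ) + 1) / cs t ≤ ir r t n c / cs t := by gcongr
    rw [add_div] at h6
    apply le_antisymm
    · linarith
    · exact h3
  · left
    rw [hiff i, not_le] at hlt
    have h5 : (c : ℝ) + 1 ≤ fl r t n i := by exact_mod_cast hlt
    apply le_antisymm
    · exact h2
    · linarith

theorem E_row_disj {r : ℕ} {b t β H : ℝ} {n i : ℕ} (hP : Par r b t β n) (hi : i < r ^ 2) :
    volume (Ereg r b H t β (fl r t n 0) ∩ rowC r b t β n i) = 0 := by
  have hle : (fl r t n 0 : ℝ) ≤ fl r t n i := by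
    exact_mod_cast fl_le_fl hP (Nat.zero_le i)
  apply D8_two t β (fl r t n 0)
  rintro z ⟨⟨-, h1 | h1⟩, ⟨h2, -, h3, -⟩⟩
  · left
    apply le_antisymm h1
    linarith
  · right
    have hcs := cs_pos t
    have h6 : 0 ≤ (i : ℝ) / cs t := by positivity
    apply le_antisymm h1
    linarith

theorem E_col_disj {r : ℕ} {b t β H : ℝ} {n c : ℕ} (hP : Par r b t β n)
    (hc : fl r t n 0 ≤ c) (s a : ℝ) :
    volume (Ereg r b H t β (fl r t n 0) ∩ colC r t β n c s a) = 0 := by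
  have hle : (fl r t n 0 : ℝ) ≤ c := by exact_mod_cast hc
  apply D8_two t β (fl r t n 0)
  rintro z ⟨⟨-, h1 | h1⟩, ⟨h2, -, h3, -⟩⟩
  · left
    apply le_antisymm h1
    linarith
  · right
    have hcs := cs_pos t
    have h6 : 0 ≤ (ir r t n c : ℝ) / cs t := by positivity
    apply le_antisymm h1
    linarith

end SqUp
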