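import Pool.Agent.Lib.MP_e85462_co.U.A4
import Pool.Agent.Lib.MP_e85462_co.U.A5
import Pool.Agent.Lib.MP_e85462_co.U.D2
import Pool.Agent.Lib.MP_e85462_co.U.D3
import Pool.Agent.Lib.MP_e85462_co.U.D4
import Pool.Agent.Lib.MP_e85462_co.U.D6
import Pool.Agent.Lib.MP_e85462_co.U.D7
import Pool.Agent.Lib.MP_e85462_co.U.D8

open MeasureTheory Set

namespace SqUp

theorem step {r : ℕ} {b t β H e : ℝ} {n : ℕ} (hP : Par r b t β n)
    (hY : nxb r t β n + nxt r t * b ≤ H * (1 - nxt r t / (r : ℝ) ^ 2))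
    (he : PW (Ereg r b H t β (fl r t n 0)) e) :
    PW (Ereg r b H (nxt r t) (nxb r t β n) (fl r (nxt r t) (n + 1) 0))
      (e + 30 * r + 2 * ((fl r (nxt r t) (n + 1) 0 : ℝ) - fl r t n 0)) := by
  classical
  set g := fl r t n 0 with hg
  set g' := fl r (nxt r t) (n + 1) 0 with hg'
  obtain ⟨m1, m2, m3⟩ := fl_mono hP
  have F := hP.facts
  have r10 := F.r10
  have r0 : (0 : ℝ) < r := by linarith
  -- rows
  have hrows : PW (⋃ i ∈ Finset.range (r ^ 2), rowC r b t β n i)
      (∑ i ∈ Finset.range (r ^ 2), (7 / (r : ℝ))) :=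
    PW.biUnion _ _ _ (fun i hi => row_waste hP i (Finset.mem_range.1 hi))
      (fun i _ j _ hij => row_row_disj hP hij)
  have hrows' : PW (⋃ i ∈ Finset.range (r ^ 2), rowC r b t β n i) (7 * r) := by
    refine hrows.mono (le_of_eq ?_)
    rw [Finset.sum_const, Finset.card_range, nsmul_eq_mul]
    push_cast
    field_simp
  -- columns
  have hcols : PW (⋃ c ∈ Finset.Ico g (n - 4 * r), colC r t β n c (upS r t g' c)
      (upA r t β H n g' c)) (∑ c ∈ Finset.Ico g (n - 4 * r), (if c < g' then (2 : ℝ) else 4 / r)) := by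
    refine PW.biUnion _ _ _ (fun c hc => ?_) (fun c _ c' _ hcc => col_col_disj _ _ _ _ hcc)
    obtain ⟨hc1, hc2⟩ := Finset.mem_Ico.1 hc
    unfold upS upA
    split_ifs with h
    · exact col_long hP hY c hc1 hc2
    · exact col_waste hP c hc1 hc2
  have hsum : (∑ c ∈ Finset.Ico g (n - 4 * r), (if c < g' then (2 : ℝ) else 4 / r)) ≤
      2 * ((g' : ℝ) - g) + 9 * r := by
    rw [← Finset.sum_Ico_consecutive _ m1 m2]
    have h1 : (∑ c ∈ Finset.Ico g g', (if c < g' then (2 : ℝ) else 4 / r)) = 2 * ((g' : ℝ) - g) := by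
      rw [Finset.sum_congr rfl (g := fun _ => (2 : ℝ))
        (fun c hc => if_pos (Finset.mem_Ico.1 hc).2), Finset.sum_const, Nat.card_Ico, nsmul_eq_mul,
        Nat.cast_sub m1]
      ring
    have h2 : (∑ c ∈ Finset.Ico g' (n - 4 * r), (if c < g' then (2 : ℝ) else 4 / r)) =
        ((n : ℝ) - 4 * r - g') * (4 / r) := by
      have hn3 := F.n3
      rw [Finset.sum_congr rfl (g := fun _ => (4 / (r : ℝ)))
        (fun c hc => if_neg (not_lt.2 (Finset.mem_Ico.1 hc).1)), Finset.sum_const, Nat.card_Ico,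
        nsmul_eq_mul, Nat.cast_sub m2, Nat.cast_sub (by omega)]
      push_cast
      ring
    rw [h1, h2]
    have h3 : ((n : ℝ) - 4 * r - g') * (4 / r) ≤ (2 * (r : ℝ) ^ 2 + 2) * (4 / r) :=
      mul_le_mul_of_nonneg_right m3 (by positivity)
    have h4 : (2 * (r : ℝ) ^ 2 + 2) * (4 / r) ≤ 9 * r := by
      rw [mul_div_assoc', div_le_iff₀ r0]
      nlinarith
    linarith
  have hcols' := hcols.mono hsum
  -- assemble
  have hd1 : volume (Ereg r b H t β g ∩ ⋃ i ∈ Finset.range (r ^ 2), rowC r b t β n i) = 0 := by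
    rw [Set.inter_iUnion₂]
    refine (measure_biUnion_null_iff (Finset.countable_toSet _)).2 (fun i hi => ?_)
    exact E_row_disj hP (Finset.mem_range.1 hi)
  have hA := he.union hrows' hd1
  have hd2 : volume ((Ereg r b H t β g ∪ ⋃ i ∈ Finset.range (r ^ 2), rowC r b t β n i) ∩
      ⋃ c ∈ Finset.Ico g (n - 4 * r), colC r t β n c (upS r t g' c) (upA r t β H n g' c)) = 0 := by
    rw [Set.union_inter_distrib_right]
    refine measure_union_null ?_ ?_
    · rw [Set.inter_iUnion₂]
      refine (measure_biUnion_null_iff (Finset.countable_toSet _)).2 (fun c hc => ?_)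
      exact E_col_disj hP (Finset.mem_Ico.1 hc).1 _ _
    · rw [Set.inter_iUnion₂]
      refine (measure_biUnion_null_iff (Finset.countable_toSet _)).2 (fun c hc => ?_)
      rw [Set.iUnion₂_inter]
      refine (measure_biUnion_null_iff (Finset.countable_toSet _)).2 (fun i hi => ?_)
      exact row_col_disj hP (Finset.mem_range.1 hi) (Finset.mem_Ico.1 hc).1 (Finset.mem_Ico.1 hc).2 _ _
  have hB := hA.union hcols' hd2
  have hsub : ((Ereg r b H t β g ∪ ⋃ i ∈ Finset.range (r ^ 2), rowC r b t β n i) ∪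
      ⋃ c ∈ Finset.Ico g (n - 4 * r), colC r t β n c (upS r t g' c) (upA r t β H n g' c)) ⊆
      Ereg r b H (nxt r t) (nxb r t β n) g' := by
    refine Set.union_subset (Set.union_subset (step_sub_E hP) ?_) ?_
    · exact Set.iUnion₂_subset fun i hi => step_sub_row hP hY i (Finset.mem_range.1 hi)
    · exact Set.iUnion₂_subset fun c hc => step_sub_col hP hY c (Finset.mem_Ico.1 hc).1
        (Finset.mem_Ico.1 hc).2
  have hv : volume (Ereg r b H (nxt r t) (nxb r t β n) g' \
      ((Ereg r b H t β g ∪ ⋃ i ∈ Finset.range (r ^ 2), rowC r b t β n i) ∪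
      ⋃ c ∈ Finset.Ico g (n - 4 * r), colC r t β n c (upS r t g' c) (upA r t β H n g' c))) ≤
      ENNReal.ofReal 40 := by
    refine le_trans (measure_mono ?_) (gap_vol hP)
    intro z hz
    have := step_cover hP hY hz.1
    rcases this with h | h
    · exact absurd h hz.2
    · exact h
  have hC := hB.super hsub (by norm_num) hv
  refine hC.mono ?_
  linarith

end SqUp
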