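import Pool.Agent.Lib.MP_e85462_co.U.Defs

open MeasureTheory Set

namespace SqUp

theorem YY_zero {r : ℕ} {b : ℝ} (hr : 10 ≤ r) (hb1 : 4 * (r : ℝ) ^ 2 ≤ b)
    (hb2 : b ≤ 10 * (r : ℝ) ^ 2) : YY r b 0 ≤ 4 * (r : ℝ) ^ 2 ∧ (n0 r b : ℝ) ≤ b + 3 := by
  have hr' : (10 : ℝ) ≤ r := by exact_mod_cast hr
  have hr0 : (0 : ℝ) < r := by linarith
  have hr3 : (1000 : ℝ) ≤ (r : ℝ) ^ 3 := by
    calc (1000 : ℝ) = 10 ^ 3 := by norm_num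
      _ ≤ (r : ℝ) ^ 3 := pow_le_pow_left₀ (by norm_num) hr' 3
  have he0 : 0 < 1 / (r : ℝ) ^ 3 := by positivity
  have he1 : 1 / (r : ℝ) ^ 3 ≤ 1 / 1000 := by
    apply one_div_le_one_div_of_le (by norm_num) hr3
  have hd : 0 < 1 - 1 / (r : ℝ) ^ 3 := by linarith
  have hb0 : 0 ≤ b := le_trans (by positivity) hb1
  -- the bound for `n0`
  have h1 : b / (1 - 1 / (r : ℝ) ^ 3) ≤ b + 2 := by
    rw [div_le_iff₀ hd]
    have h2 : b * (1 / (r : ℝ) ^ 3) ≤ 1 := by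
      rw [mul_one_div, div_le_one (by positivity)]
      calc b ≤ 10 * (r : ℝ) ^ 2 := hb2
        _ ≤ r * (r : ℝ) ^ 2 := by gcongr
        _ = (r : ℝ) ^ 3 := by ring
    nlinarith
  have h2 : (n0 r b : ℝ) ≤ b + 3 := by
    have h3 : (n0 r b : ℝ) < b / (1 - 1 / (r : ℝ) ^ 3) + 1 :=
      Nat.ceil_lt_add_one (by positivity)
    linarith
  refine ⟨?_, h2⟩
  have h4 : YY r b 0 = ((n0 r b : ℝ) - b) * (r : ℝ) ^ 2 := by
    unfold YY bb tt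
    have h5 : 1 / (r : ℝ) / (r : ℝ) ^ 2 = 1 / (r : ℝ) ^ 3 := by
      field_simp
    rw [h5, div_eq_iff hd.ne']
    field_simp
    ring
  rw [h4]
  have h6 : 0 ≤ (r : ℝ) ^ 2 := by positivity
  nlinarith

end SqUp
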