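import Pool.Agent.Lib.MP_e85462_co.U.C2
import Pool.Agent.Lib.MP_e85462_co.U.E1

open MeasureTheory Set

namespace SqUp

theorem E2_kl {r : ℕ} {t : ℝ} (hr : 10 ≤ r) (h0 : 0 ≤ t) (h1 : t * (10 * (r : ℝ)) ≤ 13) :
    0 ≤ kap t ∧ kap t * (r : ℝ) ^ 2 ≤ 1 ∧ 0 ≤ kap t / lam r t ∧
      kap t / lam r t * (r : ℝ) ^ 2 ≤ 1 := by
  have hR : (10 : ℝ) ≤ r := by exact_mod_cast hr
  have hR0 : (0 : ℝ) < r := by linarith
  have hk0 := kap_nonneg t
  have hk1 := kap_le t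
  have hc0 : 0 ≤ 1 - cs t := sub_nonneg.2 (cs_le_one t)
  have hc1 := one_sub_cs_le t
  have ht : t * (r : ℝ) ≤ 13 / 10 := by linarith
  have htR0 : 0 ≤ t * (r : ℝ) := mul_nonneg h0 hR0.le
  have hsq : (t * (r : ℝ)) ^ 2 ≤ 169 / 100 := by nlinarith
  have hR2 : 0 ≤ (r : ℝ) ^ 2 := sq_nonneg _
  have hkR : kap t * (r : ℝ) ^ 2 ≤ 169 / 200 := by
    calc kap t * (r : ℝ) ^ 2 ≤ t ^ 2 / 2 * (r : ℝ) ^ 2 := mul_le_mul_of_nonneg_right hk1 hR2
      _ = (t * (r : ℝ)) ^ 2 / 2 := by ring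
      _ ≤ 169 / 200 := by linarith
  have hcR : (r : ℝ) ^ 2 * (1 - cs t) ≤ 169 / 200 := by
    calc (r : ℝ) ^ 2 * (1 - cs t) ≤ (r : ℝ) ^ 2 * (t ^ 2 / 2) :=
          mul_le_mul_of_nonneg_left hc1 hR2
      _ = (t * (r : ℝ)) ^ 2 / 2 := by ring
      _ ≤ 169 / 200 := by linarith
  have hcR0 : 0 ≤ (r : ℝ) ^ 2 * (1 - cs t) := mul_nonneg hR2 hc0
  have hmu : kap t / lam r t = kap t * ((r : ℝ) ^ 2 * (1 - cs t)) := by
    rw [lam, div_div_eq_mul_div, div_one]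
  refine ⟨hk0, by linarith, ?_, ?_⟩
  · rw [hmu]
    exact mul_nonneg hk0 hcR0
  · rw [hmu]
    have hkR0 : 0 ≤ kap t * (r : ℝ) ^ 2 := mul_nonneg hk0 hR2
    calc kap t * ((r : ℝ) ^ 2 * (1 - cs t)) * (r : ℝ) ^ 2
        = (kap t * (r : ℝ) ^ 2) * ((r : ℝ) ^ 2 * (1 - cs t)) := by ring
      _ ≤ 169 / 200 * (169 / 200) := mul_le_mul hkR hcR hcR0 (by norm_num)
      _ ≤ 1 := by norm_num

theorem E2_n0 {r : ℕ} {b : ℝ} (hr : 10 ≤ r) (hb1 : 4 * (r : ℝ) ^ 2 ≤ b) :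
    b ≤ (n0 r b : ℝ) ∧ b * (r : ℝ) ^ 3 ≤ (n0 r b : ℝ) * ((r : ℝ) ^ 3 - 1) := by
  have hR : (10 : ℝ) ≤ r := by exact_mod_cast hr
  have hR0 : (0 : ℝ) < r := by linarith
  have hR3 : (1000 : ℝ) ≤ (r : ℝ) ^ 3 := by
    calc (1000 : ℝ) = 10 ^ 3 := by norm_num
      _ ≤ (r : ℝ) ^ 3 := pow_le_pow_left₀ (by norm_num) hR 3
  have hb0 : 0 ≤ b := le_trans (by positivity) hb1
  have h1 : b / (1 - 1 / (r : ℝ) ^ 3) ≤ (n0 r b : ℝ) := Nat.le_ceil _
  have h2 : (0 : ℝ) < 1 - 1 / (r : ℝ) ^ 3 := by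
    rw [sub_pos, div_lt_one (by positivity)]
    linarith
  have h3 : b ≤ (n0 r b : ℝ) * (1 - 1 / (r : ℝ) ^ 3) := (div_le_iff₀ h2).1 h1
  have h4 : b * (r : ℝ) ^ 3 ≤ (n0 r b : ℝ) * ((r : ℝ) ^ 3 - 1) := by
    calc b * (r : ℝ) ^ 3 ≤ (n0 r b : ℝ) * (1 - 1 / (r : ℝ) ^ 3) * (r : ℝ) ^ 3 :=
          mul_le_mul_of_nonneg_right h3 (by positivity)
      _ = (n0 r b : ℝ) * ((r : ℝ) ^ 3 - 1) := by
          field_simp
  refine ⟨?_, h4⟩
  have h5 : (n0 r b : ℝ) * (1 - 1 / (r : ℝ) ^ 3) ≤ (n0 r b : ℝ) * 1 :=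
    mul_le_mul_of_nonneg_left (by
      have : 0 < 1 / (r : ℝ) ^ 3 := by positivity
      linarith) (Nat.cast_nonneg _)
  linarith

/-- the invariants of the sequence of lines -/
structure E2_Inv (r : ℕ) (b : ℝ) (j : ℕ) : Prop where
  t1 : 1 ≤ tt r j * r
  t2 : tt r j * (r : ℝ) ^ 2 ≤ r + j
  be : 0 ≤ bb r b j
  d1 : ((n0 r b : ℝ) + j) * ((r : ℝ) ^ 2 - tt r j) ≤ b * (r : ℝ) ^ 2 + bb r b j
  d2 : b * (r : ℝ) ^ 2 + bb r b j ≤ ((n0 r b : ℝ) + j) * ((r : ℝ) ^ 2 - tt r j) + 2 * j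
  e : (j : ℝ) * (r : ℝ) ^ 2 - j * tt r j ≤ bb r b j + tt r j * b

theorem E2_inv {r : ℕ} {b : ℝ} (hr : 10 ≤ r) (hb1 : 4 * (r : ℝ) ^ 2 ≤ b)
    (hb2 : b ≤ 10 * (r : ℝ) ^ 2) (j : ℕ) (hj : 5 * j ≤ r + 5) : E2_Inv r b j := by
  have hR : (10 : ℝ) ≤ r := by exact_mod_cast hr
  have hR0 : (0 : ℝ) < r := by linarith
  have hR2 : (100 : ℝ) ≤ (r : ℝ) ^ 2 := by nlinarith
  have hb0 : 0 ≤ b := le_trans (by positivity) hb1
  obtain ⟨hn1, hn2⟩ := E2_n0 (b := b) hr hb1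
  have hn3 := (YY_zero hr hb1 hb2).2
  induction j with
  | zero =>
    have hb : bb r b 0 * r = ((n0 r b : ℝ) - b) * (r : ℝ) ^ 3 - (n0 r b : ℝ) := by
      rw [bb]
      field_simp
    have hb' : bb r b 0 = ((n0 r b : ℝ) - b) * (r : ℝ) ^ 2 - tt r 0 * (n0 r b : ℝ) := by
      rw [bb, tt]
    have hbe : 0 ≤ bb r b 0 := by
      have h1 : 0 ≤ bb r b 0 * r := by
        rw [hb]
        linarith
      exact nonneg_of_mul_nonneg_left h1 hR0
    have ht : tt r 0 * r = 1 := by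
      rw [tt]
      field_simp
    have ht0 : 0 ≤ tt r 0 := by
      rw [tt]
      positivity
    refine ⟨ht.ge, ?_, hbe, ?_, ?_, ?_⟩
    · have : tt r 0 * (r : ℝ) ^ 2 = tt r 0 * r * r := by ring
      rw [this, ht]
      simp
    · rw [hb']
      push_cast
      linarith
    · rw [hb']
      push_cast
      linarith
    · push_cast
      have := mul_nonneg ht0 hb0
      linarith
  | succ j ih =>
    have hj' : 5 * j ≤ r + 5 := by omega
    obtain ⟨t1, t2, be, d1, d2, e⟩ := ih hj'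
    have hjr : (5 : ℝ) * (j + 1) ≤ r + 5 := by exact_mod_cast hj
    have ht0 : 0 < tt r j := by
      by_contra hcon
      have : tt r j * r ≤ 0 := mul_nonpos_of_nonpos_of_nonneg (not_lt.1 hcon) hR0.le
      linarith
    have ht13 : tt r j * (10 * (r : ℝ)) ≤ 13 := by
      have h1 : tt r j * (r : ℝ) * r ≤ 13 / 10 * r := by
        have : tt r j * (r : ℝ) * r = tt r j * (r : ℝ) ^ 2 := by ring
        rw [this]
        linarith
      have h2 := le_of_mul_le_mul_right h1 hR0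
      linarith
    obtain ⟨k0, k1, m0, m1⟩ := E2_kl hr ht0.le ht13
    have hT : tt r (j + 1) = tt r j + kap (tt r j) / lam r (tt r j) := by
      rw [tt, nxt]
    have hB : bb r b (j + 1) = bb r b j + (r : ℝ) ^ 2 + tt r j
        + kap (tt r j) * ((r : ℝ) ^ 2 + 1)
        - kap (tt r j) / lam r (tt r j) * (((n0 r b : ℝ) + j) - 4 * r) := by
      rw [bb, nxb]
      push_cast
      ring
    set t := tt r j with htdef
    set κ := kap t with hκ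
    set μ := κ / lam r t with hμ
    set N := (n0 r b : ℝ) with hN
    set β := bb r b j with hβ
    have hj0 : (0 : ℝ) ≤ j := Nat.cast_nonneg _
    have hN0 : 0 ≤ N := Nat.cast_nonneg _
    have hNj : N + j ≤ b + r := by linarith
    have hNj2 : N + j ≤ 11 * (r : ℝ) ^ 2 := by nlinarith
    have hμN : μ * (N + j) ≤ 11 := by
      calc μ * (N + j) ≤ μ * (11 * (r : ℝ) ^ 2) := mul_le_mul_of_nonneg_left hNj2 m0
        _ = 11 * (μ * (r : ℝ) ^ 2) := by ring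
        _ ≤ 11 := by linarith
    have hμr0 : 0 ≤ μ * r := mul_nonneg m0 hR0.le
    have hμr : μ * r ≤ 1 / 10 := by
      have h1 : μ * r * 10 ≤ μ * r * r := mul_le_mul_of_nonneg_left hR hμr0
      have h2 : μ * r * r = μ * (r : ℝ) ^ 2 := by ring
      linarith
    have hμ1 : μ ≤ 1 / 100 := by
      have h1 : μ * 100 ≤ μ * (r : ℝ) ^ 2 := mul_le_mul_of_nonneg_left hR2 m0
      linarith
    have hκ1 : κ ≤ 1 / 100 := by
      have h1 : κ * 100 ≤ κ * (r : ℝ) ^ 2 := mul_le_mul_of_nonneg_left hR2 k0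
      linarith
    have hκr0 : 0 ≤ κ * (r : ℝ) ^ 2 := by positivity
    have ht10 : t ≤ 13 / 100 := by
      have h1 : t * (10 * 10) ≤ t * (10 * (r : ℝ)) :=
        mul_le_mul_of_nonneg_left (by linarith) ht0.le
      linarith
    refine ⟨?_, ?_, ?_, ?_, ?_, ?_⟩
    · rw [hT]
      have : (t + μ) * r = t * r + μ * r := by ring
      rw [this]
      linarith
    · rw [hT]
      have : (t + μ) * (r : ℝ) ^ 2 = t * (r : ℝ) ^ 2 + μ * (r : ℝ) ^ 2 := by ring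
      rw [this]
      push_cast
      linarith
    · rw [hB]
      nlinarith
    · rw [hB, hT]
      push_cast
      nlinarith
    · rw [hB, hT]
      push_cast
      nlinarith
    · rw [hB, hT]
      push_cast
      nlinarith

theorem seq_inv {r : ℕ} {b : ℝ} (hr : 10 ≤ r) (hb1 : 4 * (r : ℝ) ^ 2 ≤ b)
    (hb2 : b ≤ 10 * (r : ℝ) ^ 2) (j : ℕ) (hj : 5 * j ≤ r + 5) :
    Par r b (tt r j) (bb r b j) (n0 r b + j) ∧ (j : ℝ) * (r : ℝ) ^ 2 ≤ YY r b j := by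
  have hR : (10 : ℝ) ≤ r := by exact_mod_cast hr
  have hR0 : (0 : ℝ) < r := by linarith
  have hR2 : (100 : ℝ) ≤ (r : ℝ) ^ 2 := by nlinarith
  have hR20 : (0 : ℝ) < (r : ℝ) ^ 2 := by positivity
  obtain ⟨t1, t2, be, d1, d2, e⟩ := E2_inv hr hb1 hb2 j hj
  obtain ⟨hn1, hn2⟩ := E2_n0 (b := b) hr hb1
  have hn3 := (YY_zero hr hb1 hb2).2
  have hjr : (5 : ℝ) * j ≤ r + 5 := by exact_mod_cast hj
  have hj0 : (0 : ℝ) ≤ j := Nat.cast_nonneg _
  have ht0 : 0 < tt r j := by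
    by_contra hcon
    have : tt r j * r ≤ 0 := mul_nonpos_of_nonpos_of_nonneg (not_lt.1 hcon) hR0.le
    linarith
  have ht13 : tt r j * (10 * (r : ℝ)) ≤ 13 := by
    have h1 : tt r j * (r : ℝ) * r ≤ 13 / 10 * r := by
      have : tt r j * (r : ℝ) * r = tt r j * (r : ℝ) ^ 2 := by ring
      rw [this]
      linarith
    have h2 := le_of_mul_le_mul_right h1 hR0
    linarith
  obtain ⟨k0, k1, m0, m1⟩ := E2_kl hr ht0.le ht13
  have ht10 : tt r j ≤ 13 / 100 := by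
    have h1 : tt r j * (10 * 10) ≤ tt r j * (10 * (r : ℝ)) :=
      mul_le_mul_of_nonneg_left (by linarith) ht0.le
    linarith
  have hq : (1 - tt r j / (r : ℝ) ^ 2) * (r : ℝ) ^ 2 = (r : ℝ) ^ 2 - tt r j := by
    field_simp
  refine ⟨⟨hr, hb1, hb2, ?_, ?_, ?_, ?_, be, ?_, ?_⟩, ?_⟩
  · push_cast
    linarith
  · push_cast
    linarith
  · rw [div_le_iff₀ hR0]
    exact t1
  · rw [le_div_iff₀ (by positivity), nxt]
    have h1 : (tt r j + kap (tt r j) / lam r (tt r j)) * (2 * r) * r ≤ 3 * r := by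
      have : (tt r j + kap (tt r j) / lam r (tt r j)) * (2 * r) * r
          = 2 * (tt r j * (r : ℝ) ^ 2) + 2 * (kap (tt r j) / lam r (tt r j) * (r : ℝ) ^ 2) := by
        ring
      rw [this]
      linarith
    exact le_of_mul_le_mul_right h1 hR0
  · refine le_of_mul_le_mul_right ?_ hR20
    have h1 : (((n0 r b + j : ℕ) : ℝ) * (1 - tt r j / (r : ℝ) ^ 2)) * (r : ℝ) ^ 2
        = ((n0 r b : ℝ) + j) * ((r : ℝ) ^ 2 - tt r j) := by
      rw [mul_assoc, hq]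
      push_cast
      ring
    have h2 : (b + bb r b j / (r : ℝ) ^ 2) * (r : ℝ) ^ 2 = b * (r : ℝ) ^ 2 + bb r b j := by
      field_simp
    rw [h1, h2]
    exact d1
  · refine le_of_mul_le_mul_right ?_ hR20
    have h1 : ((((n0 r b + j : ℕ) : ℝ) + 1 / r) * (1 - tt r j / (r : ℝ) ^ 2)) * (r : ℝ) ^ 2
        = ((n0 r b : ℝ) + j) * ((r : ℝ) ^ 2 - tt r j) + (r - tt r j / r) := by
      rw [mul_assoc, hq]
      push_cast
      field_simp
    have h2 : (b + bb r b j / (r : ℝ) ^ 2) * (r : ℝ) ^ 2 = b * (r : ℝ) ^ 2 + bb r b j := by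
      field_simp
    rw [h1, h2]
    have h3 : tt r j / r ≤ 1 := by
      rw [div_le_one hR0]
      linarith
    linarith
  · rw [YY, le_div_iff₀ (by
      rw [sub_pos, div_lt_one hR20]
      linarith)]
    have h1 : (j : ℝ) * (r : ℝ) ^ 2 * (1 - tt r j / (r : ℝ) ^ 2)
        = (j : ℝ) * (r : ℝ) ^ 2 - j * tt r j := by
      rw [mul_assoc, mul_comm ((r : ℝ) ^ 2), hq]
      ring
    rw [h1]
    exact e

end SqUp
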