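import Pool.Agent.Lib.MP_e85462_co.U.C3
import Pool.Agent.Lib.MP_e85462_co.U.E2

open MeasureTheory Set

namespace SqUp

theorem YY_succ {r : ℕ} {b : ℝ} (hr : 10 ≤ r) (hb1 : 4 * (r : ℝ) ^ 2 ≤ b)
    (hb2 : b ≤ 10 * (r : ℝ) ^ 2) (j : ℕ) (hj : 5 * j ≤ r + 5) :
    YY r b (j + 1) ≤ YY r b j + (r : ℝ) ^ 2 + 3 ∧ YY r b j ≤ YY r b (j + 1) := by
  have hP := (seq_inv hr hb1 hb2 j hj).1
  have hF := hP.facts
  have hW1 := hP.hW1
  have hW2 := hP.hW2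
  have ht2 := hP.ht2
  have htn := hF.tn
  have hk0 := hF.k0
  have hk1 := hF.k1
  have hkl0 := hF.kl0
  have hkl1 := hF.kl1
  have ht0 := hF.t0
  have ht1 := hF.t1
  have hqt := hF.qt
  have hqtn := hF.qtn
  have hr' := hF.r10
  have hY1 : YY r b j = (bb r b j + tt r j * b) / (1 - tt r j / (r : ℝ) ^ 2) := rfl
  have hY2 : YY r b (j + 1) = (nxb r (tt r j) (bb r b j) (n0 r b + j) + nxt r (tt r j) * b) /
      (1 - nxt r (tt r j) / (r : ℝ) ^ 2) := rfl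
  have hnx : nxt r (tt r j) = tt r j + kap (tt r j) / lam r (tt r j) := rfl
  have hnb : nxb r (tt r j) (bb r b j) (n0 r b + j) = bb r b j + (r : ℝ) ^ 2 + tt r j +
      kap (tt r j) * ((r : ℝ) ^ 2 + 1) - kap (tt r j) / lam r (tt r j) *
        (((n0 r b + j : ℕ) : ℝ) - 4 * r) := rfl
  clear hP hF
  generalize ((n0 r b + j : ℕ) : ℝ) = n at *
  generalize hYj : YY r b j = Y at *
  generalize hYj' : YY r b (j + 1) = Y' at *
  generalize nxb r (tt r j) (bb r b j) (n0 r b + j) = β' at *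
  generalize bb r b j = β at *
  generalize nxt r (tt r j) = t' at *
  generalize kap (tt r j) / lam r (tt r j) = kl at *
  generalize kap (tt r j) = κ at *
  generalize tt r j = t at *
  have hr0 : (0 : ℝ) < r := by linarith
  have hr2 : (100 : ℝ) ≤ (r : ℝ) ^ 2 := by nlinarith
  have hd : 0 < 1 - t / (r : ℝ) ^ 2 := by linarith
  have hd' : 0 < 1 - t' / (r : ℝ) ^ 2 := by linarith
  rw [eq_div_iff hd.ne'] at hY1
  rw [eq_div_iff hd'.ne'] at hY2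
  -- the abscissa
  set W : ℝ := b + Y / (r : ℝ) ^ 2 with hW
  have hWd : W * (1 - t / (r : ℝ) ^ 2) = b + β / (r : ℝ) ^ 2 := by
    have h1 : Y / (r : ℝ) ^ 2 * (1 - t / (r : ℝ) ^ 2) = (β + t * b) / (r : ℝ) ^ 2 := by
      rw [← hY1]; ring
    rw [hW, add_mul, h1]
    ring
  have hWn : n ≤ W := by
    have h1 : n * (1 - t / (r : ℝ) ^ 2) ≤ W * (1 - t / (r : ℝ) ^ 2) := by rw [hWd]; exact hW1
    exact le_of_mul_le_mul_right h1 hd
  have hWn' : W ≤ n + 1 / r := by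
    have h1 : W * (1 - t / (r : ℝ) ^ 2) ≤ (n + 1 / r) * (1 - t / (r : ℝ) ^ 2) := by
      rw [hWd]; exact hW2
    exact le_of_mul_le_mul_right h1 hd
  have key : (Y' - Y) * (1 - t' / (r : ℝ) ^ 2) =
      (r : ℝ) ^ 2 + t + κ * ((r : ℝ) ^ 2 + 1) + kl * (W - n + 4 * r) := by
    have h1 : (Y' - Y) * (1 - t' / (r : ℝ) ^ 2) =
        Y' * (1 - t' / (r : ℝ) ^ 2) - Y * (1 - t / (r : ℝ) ^ 2) + (t' - t) * (Y / (r : ℝ) ^ 2) := by
      ring
    rw [h1, hY2, hY1, hnb, hnx, hW]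
    ring
  have hW0 : 0 ≤ W - n + 4 * r := by linarith
  have hrhs0 : 0 ≤ (r : ℝ) ^ 2 + t + κ * ((r : ℝ) ^ 2 + 1) + kl * (W - n + 4 * r) := by
    positivity
  have h1r : 1 / (r : ℝ) ≤ 1 / 10 := one_div_le_one_div_of_le (by norm_num) hr'
  have ht15 : t ≤ 15 / 100 := by
    have : 3 / (2 * (r : ℝ)) = 3 / 2 * (1 / r) := by field_simp
    rw [this] at ht1
    linarith
  -- the products
  have hκ : κ * ((r : ℝ) ^ 2 + 1) ≤ 114 / 100 := by
    have h2 : κ * ((r : ℝ) ^ 2 + 1) ≤ 9 / (8 * (r : ℝ) ^ 2) * ((r : ℝ) ^ 2 + 1) := by gcongr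
    have h3 : 9 / (8 * (r : ℝ) ^ 2) * ((r : ℝ) ^ 2 + 1) = 9 / 8 + 9 / 8 * (1 / (r : ℝ) ^ 2) := by
      field_simp
    have h4 : 1 / (r : ℝ) ^ 2 ≤ 1 / 100 := one_div_le_one_div_of_le (by norm_num) hr2
    linarith
  have hkl : kl * (W - n + 4 * r) ≤ 54 / 100 := by
    have h2 : kl * (W - n + 4 * r) ≤ 13 / (10 * (r : ℝ) ^ 2) * (1 / 10 + 4 * r) := by
      gcongr
      linarith
    have h3 : 13 / (10 * (r : ℝ) ^ 2) * (1 / 10 + 4 * r) =
        13 / 100 * (1 / (r : ℝ) ^ 2) + 52 / 10 * (1 / r) := by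
      field_simp
      ring
    have h4 : 1 / (r : ℝ) ^ 2 ≤ 1 / 100 := one_div_le_one_div_of_le (by norm_num) hr2
    linarith
  constructor
  · have h5 : (Y' - Y) * (1 - t' / (r : ℝ) ^ 2) ≤ ((r : ℝ) ^ 2 + 3) * (1 - t' / (r : ℝ) ^ 2) := by
      rw [key]
      have h6 : ((r : ℝ) ^ 2 + 3) * (t' / (r : ℝ) ^ 2) ≤ 155 / 1000 := by
        have h7 : ((r : ℝ) ^ 2 + 3) * (t' / (r : ℝ) ^ 2) ≤
            ((r : ℝ) ^ 2 + 3) * (3 / (2 * r) / (r : ℝ) ^ 2) := by gcongr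
        have h8 : ((r : ℝ) ^ 2 + 3) * (3 / (2 * r) / (r : ℝ) ^ 2) =
            3 / 2 * (1 / r) + 9 / 2 * (1 / r * (1 / (r : ℝ) ^ 2)) := by
          field_simp
          ring
        have h4 : 1 / (r : ℝ) ^ 2 ≤ 1 / 100 := one_div_le_one_div_of_le (by norm_num) hr2
        have h9 : 1 / (r : ℝ) * (1 / (r : ℝ) ^ 2) ≤ 1 / 10 * (1 / 100) := by gcongr
        linarith
      nlinarith
    have h6 := le_of_mul_le_mul_right h5 hd'
    linarith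
  · have h5 : 0 * (1 - t' / (r : ℝ) ^ 2) ≤ (Y' - Y) * (1 - t' / (r : ℝ) ^ 2) := by
      rw [key, zero_mul]
      exact hrhs0
    have h6 := le_of_mul_le_mul_right h5 hd'
    linarith

end SqUp
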