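import Pool.Agent.Lib.MP_e85462_co.U.A2
import Pool.Agent.Lib.MP_e85462_co.U.A4
import Pool.Agent.Lib.MP_e85462_co.U.A5
import Pool.Agent.Lib.MP_e85462_co.U.B1
import Pool.Agent.Lib.MP_e85462_co.U.D0
import Pool.Agent.Lib.MP_e85462_co.U.E2

open MeasureTheory Set

namespace SqUp

/-- consecutive columns -/
def F1_col (S U : ℕ → ℝ) (c : ℕ) : Set (ℝ × ℝ) :=
  {z : ℝ × ℝ | (c : ℝ) ≤ z.1 ∧ z.1 ≤ (c : ℝ) + 1 ∧ 0 * z.1 + 0 ≤ z.2 ∧ z.2 ≤ S c * z.1 + U c}

theorem F1_null (S U : ℕ → ℝ) {c c' : ℕ} (h : c ≠ c') :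
    volume (F1_col S U c ∩ F1_col S U c') = 0 := by
  rcases lt_or_gt_of_ne h with h | h
  · refine measure_mono_null ?_ (vol_line 1 0 (c' : ℝ) (Or.inl one_ne_zero))
    rintro z ⟨⟨-, h2, -, -⟩, h3, -, -, -⟩
    have h4 : (c : ℝ) + 1 ≤ c' := by exact_mod_cast h
    change 1 * z.1 + 0 * z.2 = _
    linarith
  · refine measure_mono_null ?_ (vol_line 1 0 (c : ℝ) (Or.inl one_ne_zero))
    rintro z ⟨⟨h3, -, -, -⟩, -, h2, -, -⟩
    have h4 : (c' : ℝ) + 1 ≤ c := by exact_mod_cast h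
    change 1 * z.1 + 0 * z.2 = _
    linarith

theorem F1_PW (S U : ℕ → ℝ) (c : ℕ) (hS : 0 ≤ S c) (hS1 : S c ≤ 1) (hU : 0 ≤ U c) :
    PW (F1_col S U c) 2 := by
  have h0 : 0 ≤ S c * (c : ℝ) + U c := add_nonneg (mul_nonneg hS (Nat.cast_nonneg _)) hU
  have h1 := Nat.floor_le h0
  have h2 := Nat.lt_floor_add_one (S c * (c : ℝ) + U c)
  refine (PW.col (c : ℝ) 0 0 (S c) (U c) ⌊S c * (c : ℝ) + U c⌋₊ le_rfl hS (by linarith)).mono ?_
  linarith

theorem bottom {r : ℕ} {b H : ℝ} (hr : 10 ≤ r) (hb1 : 4 * (r : ℝ) ^ 2 ≤ b)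
    (hb2 : b ≤ 10 * (r : ℝ) ^ 2) (hH : YY r b 0 ≤ H) :
    PW (Ereg r b H (tt r 0) (bb r b 0) (fl r (tt r 0) (n0 r b) 0)) (60 * (r : ℝ) ^ 2) := by
  have hP : Par r b (tt r 0) (bb r b 0) (n0 r b) := (seq_inv hr hb1 hb2 0 (by omega)).1
  have hF := hP.facts
  obtain ⟨hY, hn0⟩ := YY_zero hr hb1 hb2
  have hr' : (10 : ℝ) ≤ r := hF.r10
  have hr2 : (0 : ℝ) < (r : ℝ) ^ 2 := by positivity
  have hb0 : 0 ≤ b := by nlinarith
  set t := tt r 0 with ht
  set β := bb r b 0 with hβd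
  set n := n0 r b with hn
  set g := fl r t n 0 with hg
  set m := ⌊b⌋₊ with hm
  have ht0 : 0 < t := hF.t0
  have hβ : 0 ≤ β := hP.hβ
  have hqt := hF.qt
  have hqt0 : 0 ≤ t / (r : ℝ) ^ 2 := by positivity
  have ht1 : t ≤ 1 := by
    refine hF.t1.trans ?_
    rw [div_le_one (by positivity)]
    linarith
  have hYY : YY r b 0 * (1 - t / (r : ℝ) ^ 2) = β + t * b := by
    rw [YY, ← ht, ← hβd]
    rw [div_mul_cancel₀]
    linarith
  have hYY0 : 0 ≤ YY r b 0 := by
    rw [YY, ← ht, ← hβd]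
    exact div_nonneg (by positivity) (by linarith)
  have hH0 : 0 ≤ H := hYY0.trans hH
  have htb : β + t * b ≤ YY r b 0 := by
    rw [← hYY]
    nlinarith
  -- the integers
  obtain ⟨f1, f2⟩ := fl_spec hP 0
  rw [← hg, Nat.cast_zero, sub_zero] at f1 f2
  have hlr := hF.lr
  have hlam0 : 0 ≤ lam r t * (r : ℝ) ^ 2 := by
    have := hF.lam0
    positivity
  have hgm : g ≤ m := by
    rw [hm]
    refine Nat.le_floor ?_
    linarith
  have hg1 : 1 ≤ g := by
    have h1 := hF.n1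
    have h2 : (0 : ℝ) < g := by nlinarith
    exact_mod_cast h2
  have hm1 : (m : ℝ) ≤ b := Nat.floor_le hb0
  have hm2 : b < (m : ℝ) + 1 := Nat.lt_floor_add_one b
  set S : ℕ → ℝ := fun c => if c < g then 0 else t with hS
  set U : ℕ → ℝ := fun c => if c < g then H else β with hU
  have S0 : ∀ c, 0 ≤ S c := fun c => by
    simp only [hS]; split_ifs <;> linarith
  have S1 : ∀ c, S c ≤ 1 := fun c => by
    simp only [hS]; split_ifs <;> linarith
  have U0 : ∀ c, 0 ≤ U c := fun c => by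
    simp only [hU]; split_ifs <;> linarith
  have key := PW.biUnion (Finset.range m) (F1_col S U) (fun _ => 2)
    (fun c _ => F1_PW S U c (S0 c) (S1 c) (U0 c)) (fun c _ c' _ h => F1_null S U h)
  have hsum : (∑ _c ∈ Finset.range m, (2 : ℝ)) = 2 * m := by
    rw [Finset.sum_const, Finset.card_range, nsmul_eq_mul]; ring
  rw [hsum] at key
  have hq : (0 : ℝ) ≤ 1 / (r : ℝ) ^ 2 := by positivity
  refine (key.super (B := Ereg r b H t β g) (e := 20 * (r : ℝ) ^ 2) ?_ (by positivity) ?_).mono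
    (by linarith)
  · intro z hz
    rw [mem_iUnion₂] at hz
    obtain ⟨c, hc, h1, h2, h3, h4⟩ := hz
    rw [Finset.mem_range] at hc
    have hc' : (c : ℝ) + 1 ≤ m := by exact_mod_cast hc
    have c0 : (0 : ℝ) ≤ c := Nat.cast_nonneg c
    have h3' : 0 ≤ z.2 := by linarith
    have hz2 : z.2 ≤ H := by
      by_cases hcg : c < g
      · simp only [hS, hU, if_pos hcg] at h4
        linarith
      · simp only [hS, hU, if_neg hcg] at h4
        have : t * z.1 ≤ t * b := mul_le_mul_of_nonneg_left (by linarith) ht0.le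
        linarith
    have hz1 : 0 ≤ 1 / (r : ℝ) ^ 2 * z.2 := mul_nonneg hq h3'
    refine ⟨⟨by linarith, h3', hz2, by linarith⟩, ?_⟩
    by_cases hcg : c < g
    · left
      have : (c : ℝ) + 1 ≤ g := by exact_mod_cast hcg
      linarith
    · right
      simp only [hS, hU, if_neg hcg] at h4
      exact h4
  · have hsub : Ereg r b H t β g \ (⋃ i ∈ Finset.range m, F1_col S U i) ⊆
        Icc ((m : ℝ), (0 : ℝ)) ((m : ℝ) + 5, 4 * (r : ℝ) ^ 2) := by
      rintro z ⟨⟨⟨z1, z2, z3, z4⟩, z5⟩, hz⟩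
      have hz' : ∀ c < m, z ∉ F1_col S U c := by
        intro c hc hzc
        exact hz (mem_iUnion₂.2 ⟨c, Finset.mem_range.2 hc, hzc⟩)
      have hgz : (g : ℝ) < z.1 := by
        by_contra hcon
        rw [not_lt] at hcon
        -- the column of `z`
        by_cases hlt : z.1 < g
        · have h1 : ⌊z.1⌋₊ < g := (Nat.floor_lt z1).2 hlt
          refine hz' _ (h1.trans_le hgm) ⟨Nat.floor_le z1, (Nat.lt_floor_add_one _).le, ?_, ?_⟩
          · linarith
          · simp only [hS, hU, if_pos h1]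
            linarith
        · have heq : z.1 = g := le_antisymm hcon (not_lt.1 hlt)
          have h1 : g - 1 < g := by omega
          have h2 : ((g - 1 : ℕ) : ℝ) = (g : ℝ) - 1 := by
            rw [Nat.cast_sub hg1, Nat.cast_one]
          refine hz' (g - 1) (by omega) ⟨?_, ?_, ?_, ?_⟩
          · rw [h2]; linarith
          · rw [h2]; linarith
          · linarith
          · simp only [hS, hU, if_pos h1]
            linarith
      have hline : z.2 ≤ t * z.1 + β := z5.resolve_left (not_le.2 hgz)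
      have hmz : (m : ℝ) ≤ z.1 := by
        by_contra hcon
        rw [not_le] at hcon
        have h1 : ⌊z.1⌋₊ < m := (Nat.floor_lt z1).2 hcon
        have h2 : ¬ ⌊z.1⌋₊ < g := by
          rw [not_lt]
          exact Nat.le_floor hgz.le
        refine hz' _ h1 ⟨Nat.floor_le z1, (Nat.lt_floor_add_one _).le, ?_, ?_⟩
        · linarith
        · simp only [hS, hU, if_neg h2]
          linarith
      have hz2 : z.2 ≤ YY r b 0 := by
        have h1 : t * z.1 ≤ t * (b + 1 / (r : ℝ) ^ 2 * z.2) :=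
          mul_le_mul_of_nonneg_left z4 ht0.le
        have h2 : z.2 * (1 - t / (r : ℝ) ^ 2) ≤ YY r b 0 * (1 - t / (r : ℝ) ^ 2) := by
          rw [hYY]
          have : t * (b + 1 / (r : ℝ) ^ 2 * z.2) = t * b + t / (r : ℝ) ^ 2 * z.2 := by ring
          linarith
        exact le_of_mul_le_mul_right h2 (by linarith)
      have hz2' : z.2 ≤ 4 * (r : ℝ) ^ 2 := hz2.trans hY
      have hz1 : 1 / (r : ℝ) ^ 2 * z.2 ≤ 4 := by
        calc 1 / (r : ℝ) ^ 2 * z.2 ≤ 1 / (r : ℝ) ^ 2 * (4 * (r : ℝ) ^ 2) :=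
              mul_le_mul_of_nonneg_left hz2' hq
          _ = 4 := by field_simp
      exact ⟨⟨hmz, z2⟩, by simp only; linarith, hz2'⟩
    refine (measure_mono hsub).trans ?_
    rw [← Icc_prod_Icc, Measure.volume_eq_prod, Measure.prod_prod, Real.volume_Icc,
      Real.volume_Icc, ← ENNReal.ofReal_mul (by linarith)]
    refine ENNReal.ofReal_le_ofReal ?_
    linarith

end SqUp
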