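import Pool.Agent.Lib.MP_e85462_co.U.A2
import Pool.Agent.Lib.MP_e85462_co.U.A3
import Pool.Agent.Lib.MP_e85462_co.U.A4
import Pool.Agent.Lib.MP_e85462_co.U.A5
import Pool.Agent.Lib.MP_e85462_co.U.B1
import Pool.Agent.Lib.MP_e85462_co.U.D0

open MeasureTheory Set

namespace SqUp

/-- the flat column `c` above the line `y = t x + β` -/
private def F2_col (t β H : ℝ) (c : ℕ) : Set (ℝ × ℝ) :=
  {z : ℝ × ℝ | (c : ℝ) ≤ z.1 ∧ z.1 ≤ (c : ℝ) + 1 ∧ t * z.1 + β ≤ z.2 ∧ z.2 ≤ 0 * z.1 + H}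

private theorem F2_col_PW {t β H : ℝ} {c : ℕ} (h0 : 0 ≤ t) (h1 : t ≤ 1)
    (hc : t * ((c : ℝ) + 1) + β ≤ H) : PW (F2_col t β H c) 2 := by
  have hN : (⌊H - (t * ((c : ℝ) + 1) + β)⌋₊ : ℝ) ≤ H - (t * ((c : ℝ) + 1) + β) :=
    Nat.floor_le (by linarith)
  have hN' : H - (t * ((c : ℝ) + 1) + β) < (⌊H - (t * ((c : ℝ) + 1) + β)⌋₊ : ℝ) + 1 :=
    Nat.lt_floor_add_one _
  have h := PW.col (c : ℝ) t β 0 H ⌊H - (t * ((c : ℝ) + 1) + β)⌋₊ h0 le_rfl (by linarith)
  exact h.mono (by linarith)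

private theorem F2_x_null (x : ℝ) {A : Set (ℝ × ℝ)} (hA : ∀ z ∈ A, z.1 = x) : volume A = 0 :=
  measure_mono_null (fun z hz => by
    have := hA z hz
    simp only [Set.mem_ofPred_eq]
    linarith) (vol_line 1 0 x (Or.inl one_ne_zero))

theorem top {r : ℕ} {b t β H e : ℝ} {n : ℕ} (hP : Par r b t β n)
    (hY1 : β + t * b ≤ H * (1 - t / (r : ℝ) ^ 2))
    (hY2 : H * (1 - t / (r : ℝ) ^ 2) ≤ β + t * b + ((r : ℝ) ^ 2 + 3) * (1 - t / (r : ℝ) ^ 2))
    (he : PW (Ereg r b H t β (fl r t n 0)) e) :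
    PW (Trap b (1 / (r : ℝ) ^ 2) H) (e + 60 * (r : ℝ) ^ 2) := by
  have F := hP.facts
  have hr := F.r10
  have ht0 := F.t0
  have ht1 : t ≤ 3 / 20 := by
    refine F.t1.trans ?_
    rw [div_le_div_iff₀ (by positivity) (by norm_num)]
    linarith
  set g := fl r t n 0 with hg
  set q : ℝ := 1 / (r : ℝ) ^ 2 with hq
  have hq0 : 0 < q := by positivity
  have hqt : t / (r : ℝ) ^ 2 = q * t := by rw [hq]; ring
  have hq1 : q ≤ 1 / 100 := by
    rw [hq, div_le_div_iff₀ (by positivity) (by norm_num)]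
    nlinarith
  have hqr : q * (r : ℝ) ^ 2 = 1 := by rw [hq]; field_simp
  have hqt1 : q * t ≤ 3 / 2000 := by rw [← hqt]; exact F.qt
  have hD : 0 < 1 - q * t := by linarith
  have hW1 := hP.hW1
  have hW2 := hP.hW2
  rw [hqt] at hY1 hY2 hW1 hW2
  rw [show β / (r : ℝ) ^ 2 = q * β by rw [hq]; ring] at hW1 hW2
  have hβ := hP.hβ
  have hb0 : 0 ≤ b := le_trans (by positivity) hP.hb1
  have hn0 : (0 : ℝ) ≤ n := Nat.cast_nonneg n
  have h1r : 1 / (r : ℝ) ≤ 1 / 10 := by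
    rw [div_le_div_iff₀ (by positivity) (by norm_num)]
    linarith
  -- `n ≤ b + q H`, `t n + β ≤ H`
  have hH0 : 0 ≤ H := by
    by_contra hcon
    push Not at hcon
    have h1 : H * (1 - q * t) < 0 := mul_neg_of_neg_of_pos hcon hD
    have h2 : 0 ≤ t * b := by positivity
    linarith
  have hlow : t * n + β ≤ H := by
    have h1 : (t * n + β) * (1 - q * t) ≤ H * (1 - q * t) := by
      have h2 : t * ((n : ℝ) * (1 - q * t)) ≤ t * (b + q * β) := mul_le_mul_of_nonneg_left hW1 ht0.le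
      nlinarith
    exact le_of_mul_le_mul_right h1 hD
  have hxn : (n : ℝ) ≤ b + q * H := by
    have h1 : (n : ℝ) * (1 - q * t) ≤ (b + q * H) * (1 - q * t) := by
      have h2 : q * (β + t * b) ≤ q * (H * (1 - q * t)) := mul_le_mul_of_nonneg_left hY1 hq0.le
      nlinarith
    exact le_of_mul_le_mul_right h1 hD
  have hup : H ≤ t * n + β + (r : ℝ) ^ 2 + 4 := by
    have h1 : H * (1 - q * t) ≤ (t * n + β + t * (1 / r) + ((r : ℝ) ^ 2 + 3)) * (1 - q * t) := by
      have h2 : t * (b + q * β) ≤ t * (((n : ℝ) + 1 / r) * (1 - q * t)) :=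
        mul_le_mul_of_nonneg_left hW2 ht0.le
      nlinarith
    have h3 := le_of_mul_le_mul_right h1 hD
    have h4 : t * (1 / (r : ℝ)) ≤ 1 := by nlinarith
    linarith
  have hxup : b + q * H ≤ n + 6 / 5 := by
    have h1 : (b + q * H) * (1 - q * t) ≤ ((n : ℝ) + 1 / r + q * ((r : ℝ) ^ 2 + 3)) * (1 - q * t) := by
      have h2 : q * (H * (1 - q * t)) ≤
          q * (β + t * b + ((r : ℝ) ^ 2 + 3) * (1 - q * t)) := mul_le_mul_of_nonneg_left hY2 hq0.le
      nlinarith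
    have h3 := le_of_mul_le_mul_right h1 hD
    nlinarith
  -- a point left of `n` and above the line is left of the wall
  have hwall : ∀ z : ℝ × ℝ, z.1 ≤ n → t * z.1 + β ≤ z.2 → z.1 ≤ b + q * z.2 := by
    intro z hz1 hz2
    have h1 : z.1 * (1 - q * t) ≤ b + q * β :=
      (mul_le_mul_of_nonneg_right hz1 hD.le).trans hW1
    have h2 : q * (t * z.1 + β) ≤ q * z.2 := mul_le_mul_of_nonneg_left hz2 hq0.le
    nlinarith
  -- the columns
  have hcol : ∀ c ∈ Finset.Ico g n, PW (F2_col t β H c) 2 := by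
    intro c hc
    rw [Finset.mem_Ico] at hc
    refine F2_col_PW ht0.le (by linarith) ?_
    have h1 : (c : ℝ) + 1 ≤ n := by exact_mod_cast hc.2
    have h2 : t * ((c : ℝ) + 1) ≤ t * n := mul_le_mul_of_nonneg_left h1 ht0.le
    linarith
  have hU := PW.biUnion (Finset.Ico g n) (F2_col t β H) (fun _ => 2) hcol (by
    intro i _ j _ hij
    rcases lt_or_gt_of_ne hij with h | h
    · refine F2_x_null (j : ℝ) (fun z hz => ?_)
      have h1 := hz.1.2.1
      have h2 := hz.2.1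
      have h3 : (i : ℝ) + 1 ≤ j := by exact_mod_cast h
      linarith
    · refine F2_x_null (i : ℝ) (fun z hz => ?_)
      have h1 := hz.2.2.1
      have h2 := hz.1.1
      have h3 : (j : ℝ) + 1 ≤ i := by exact_mod_cast h
      linarith)
  have hE : volume (Ereg r b H t β g ∩ ⋃ c ∈ Finset.Ico g n, F2_col t β H c) = 0 := by
    have hsub : (Ereg r b H t β g ∩ ⋃ c ∈ Finset.Ico g n, F2_col t β H c) ⊆
        {z : ℝ × ℝ | 1 * z.1 + 0 * z.2 = (g : ℝ)} ∪ {z : ℝ × ℝ | (-t) * z.1 + 1 * z.2 = β} := by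
      rintro z ⟨⟨-, hz⟩, hz'⟩
      simp only [Set.mem_iUnion, exists_prop] at hz'
      obtain ⟨c, hc, hzc⟩ := hz'
      rw [Finset.mem_Ico] at hc
      have h1 := hzc.1
      have h2 := hzc.2.2.1
      have h3 : (g : ℝ) ≤ c := by exact_mod_cast hc.1
      rcases hz with hz | hz
      · left
        simp only [Set.mem_ofPred_eq]
        linarith
      · right
        simp only [Set.mem_ofPred_eq]
        linarith
    refine measure_mono_null hsub (measure_union_null ?_ ?_)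
    · exact vol_line 1 0 _ (Or.inl one_ne_zero)
    · exact vol_line (-t) 1 _ (Or.inr one_ne_zero)
  have hA := PW.union he hU hE
  have hAB : (Ereg r b H t β g ∪ ⋃ c ∈ Finset.Ico g n, F2_col t β H c) ⊆ Trap b q H := by
    rintro z (hz | hz)
    · exact hz.1
    · simp only [Set.mem_iUnion, exists_prop] at hz
      obtain ⟨c, hc, h1, h2, h3, h4⟩ := hz
      rw [Finset.mem_Ico] at hc
      have hc1 : (c : ℝ) + 1 ≤ n := by exact_mod_cast hc.2
      have hc0 : (0 : ℝ) ≤ c := Nat.cast_nonneg c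
      have hz0 : 0 ≤ z.1 := hc0.trans h1
      have hz2 : 0 ≤ z.2 := le_trans (by positivity) h3
      exact ⟨hz0, hz2, by linarith, hwall z (by linarith) h3⟩
  have hrest : volume (Trap b q H \ (Ereg r b H t β g ∪ ⋃ c ∈ Finset.Ico g n, F2_col t β H c)) ≤
      ENNReal.ofReal (2 * (r : ℝ) ^ 2) := by
    have hsub : (Trap b q H \ (Ereg r b H t β g ∪ ⋃ c ∈ Finset.Ico g n, F2_col t β H c)) ⊆
        {z : ℝ × ℝ | (n : ℝ) ≤ z.1 ∧ z.1 ≤ b + q * H ∧ 0 * z.1 + (t * n + β) ≤ z.2 ∧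
          z.2 ≤ 0 * z.1 + (t * n + β) + (H - (t * n + β))} := by
      rintro z ⟨hzT, hzN⟩
      rw [Set.mem_union, not_or] at hzN
      obtain ⟨hz1, hz2⟩ := hzN
      have hz3 : ¬ (z.1 ≤ g ∨ z.2 ≤ t * z.1 + β) := fun h => hz1 ⟨hzT, h⟩
      push Not at hz3
      obtain ⟨h0, h2, h3, h4⟩ := hzT
      have hn : (n : ℝ) ≤ z.1 := by
        by_contra hcon
        push Not at hcon
        apply hz2
        simp only [Set.mem_iUnion, exists_prop]
        refine ⟨⌊z.1⌋₊, ?_, Nat.floor_le h0, (Nat.lt_floor_add_one _).le, hz3.2.le, by linarith⟩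
        rw [Finset.mem_Ico]
        exact ⟨Nat.le_floor hz3.1.le, (Nat.floor_lt h0).2 hcon⟩
      have h5 : q * z.2 ≤ q * H := mul_le_mul_of_nonneg_left h3 hq0.le
      have h6 : t * n ≤ t * z.1 := mul_le_mul_of_nonneg_left hn ht0.le
      exact ⟨hn, by linarith, by linarith [hz3.2], by linarith⟩
    refine (measure_mono hsub).trans ((vol_strip _ _ _ _ _ hxn (by linarith)).trans ?_)
    apply ENNReal.ofReal_le_ofReal
    have h1 : (b + q * H - n) * (H - (t * n + β)) ≤ 6 / 5 * ((r : ℝ) ^ 2 + 4) := by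
      apply mul_le_mul <;> nlinarith
    nlinarith
  have hfin := PW.super hA hAB (by positivity) hrest
  refine hfin.mono ?_
  rw [Finset.sum_const, Nat.card_Ico, nsmul_eq_mul]
  have h1 : ((n - g : ℕ) : ℝ) ≤ n := by exact_mod_cast Nat.sub_le n g
  have h2 := hP.hn2
  have h3 := hP.hb2
  nlinarith

end SqUp
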