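import Pool.Agent.Lib.MP_e85462_co.U.A2
import Pool.Agent.Lib.MP_e85462_co.U.A4
import Pool.Agent.Lib.MP_e85462_co.U.A5
import Pool.Agent.Lib.MP_e85462_co.U.B1

open MeasureTheory Set

namespace SqUp

/-- flat columns -/
def F3_A (H : ℝ) (c : ℕ) : Set (ℝ × ℝ) :=
  {z | (c : ℝ) ≤ z.1 ∧ z.1 ≤ (c : ℝ) + 1 ∧ 0 * z.1 + 0 ≤ z.2 ∧ z.2 ≤ 0 * z.1 + H}

theorem F3_col {H : ℝ} (hH0 : 0 ≤ H) (c : ℕ) : PW (F3_A H c) 1 := by
  have h1 : (⌊H⌋₊ : ℝ) ≤ H := Nat.floor_le hH0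
  have h2 : H < (⌊H⌋₊ : ℝ) + 1 := Nat.lt_floor_add_one H
  exact (PW.col (c : ℝ) 0 0 0 H ⌊H⌋₊ le_rfl le_rfl (by linarith)).mono (by linarith)

theorem F3_null {H : ℝ} {c c' : ℕ} (h : c < c') : volume (F3_A H c ∩ F3_A H c') = 0 := by
  refine measure_mono_null ?_ (vol_line 1 0 (c' : ℝ) (Or.inl one_ne_zero))
  rintro z ⟨⟨-, h2, -, -⟩, ⟨h3, -, -, -⟩⟩
  have h4 : (c : ℝ) + 1 ≤ c' := by exact_mod_cast h
  show 1 * z.1 + 0 * z.2 = (c' : ℝ)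
  linarith

theorem low {r : ℕ} {b H : ℝ} (hr : 10 ≤ r) (hb1 : 4 * (r : ℝ) ^ 2 ≤ b)
    (hb2 : b ≤ 10 * (r : ℝ) ^ 2) (hH0 : 0 ≤ H) (hH : H ≤ 4 * (r : ℝ) ^ 2) :
    PW (Trap b (1 / (r : ℝ) ^ 2) H) (60 * (r : ℝ) ^ 2) := by
  have hr' : (10 : ℝ) ≤ r := by exact_mod_cast hr
  have hr0 : (0 : ℝ) < (r : ℝ) ^ 2 := by positivity
  have hb0 : 0 ≤ b := le_trans (by positivity) hb1
  have hm : (⌊b⌋₊ : ℝ) ≤ b := Nat.floor_le hb0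
  have hm' : b < (⌊b⌋₊ : ℝ) + 1 := Nat.lt_floor_add_one b
  have hU := PW.biUnion (Finset.range ⌊b⌋₊) (F3_A H) (fun _ => 1)
    (fun i _ => F3_col hH0 i) (fun i _ j _ hij => by
      rcases lt_or_gt_of_ne hij with h | h
      · exact F3_null h
      · rw [inter_comm]
        exact F3_null h)
  have hsub : (⋃ i ∈ Finset.range ⌊b⌋₊, F3_A H i) ⊆ Trap b (1 / (r : ℝ) ^ 2) H := by
    intro z hz
    simp only [mem_iUnion, Finset.mem_range] at hz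
    obtain ⟨i, hi, h1, h2, h3, h4⟩ := hz
    have h5 : (i : ℝ) + 1 ≤ (⌊b⌋₊ : ℝ) := by exact_mod_cast hi
    have h6 : (0 : ℝ) ≤ i := Nat.cast_nonneg i
    have h7 : 0 ≤ z.2 := by linarith
    refine ⟨by linarith, h7, by linarith, ?_⟩
    have h8 : 0 ≤ 1 / (r : ℝ) ^ 2 * z.2 := by positivity
    linarith
  have hv : volume (Trap b (1 / (r : ℝ) ^ 2) H \ ⋃ i ∈ Finset.range ⌊b⌋₊, F3_A H i) ≤
      ENNReal.ofReal (20 * (r : ℝ) ^ 2) := by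
    have h1 : (Trap b (1 / (r : ℝ) ^ 2) H \ ⋃ i ∈ Finset.range ⌊b⌋₊, F3_A H i) ⊆
        Icc (⌊b⌋₊ : ℝ) (b + 1 / (r : ℝ) ^ 2 * H) ×ˢ Icc 0 H := by
      rintro z ⟨⟨h1, h2, h3, h4⟩, h5⟩
      have h6 : (⌊b⌋₊ : ℝ) ≤ z.1 := by
        by_contra hcon
        apply h5
        simp only [mem_iUnion, Finset.mem_range]
        refine ⟨⌊z.1⌋₊, ?_, Nat.floor_le h1, (Nat.lt_floor_add_one z.1).le, by linarith,
          by linarith⟩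
        exact (Nat.floor_lt h1).2 (not_le.1 hcon)
      refine ⟨⟨h6, ?_⟩, ⟨h2, h3⟩⟩
      have h7 : 1 / (r : ℝ) ^ 2 * z.2 ≤ 1 / (r : ℝ) ^ 2 * H := by gcongr
      linarith
    have h2 : 1 / (r : ℝ) ^ 2 * H ≤ 4 := by
      have h3 : 1 / (r : ℝ) ^ 2 * H ≤ 1 / (r : ℝ) ^ 2 * (4 * (r : ℝ) ^ 2) := by gcongr
      have h4 : 1 / (r : ℝ) ^ 2 * (4 * (r : ℝ) ^ 2) = 4 := by field_simp
      linarith
    have h20 : 0 ≤ 1 / (r : ℝ) ^ 2 * H := by positivity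
    refine (measure_mono h1).trans ?_
    rw [Measure.volume_eq_prod, Measure.prod_prod, Real.volume_Icc, Real.volume_Icc,
      ← ENNReal.ofReal_mul (by linarith)]
    refine ENNReal.ofReal_le_ofReal ?_
    nlinarith
  refine (PW.super hU hsub (by positivity) hv).mono ?_
  simp only [Finset.sum_const, Finset.card_range, nsmul_eq_mul, mul_one]
  nlinarith

end SqUp
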