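import Pool.Agent.Lib.MP_e85462_co.U.D9
import Pool.Agent.Lib.MP_e85462_co.U.E3
import Pool.Agent.Lib.MP_e85462_co.U.F1
import Pool.Agent.Lib.MP_e85462_co.U.F2
import Pool.Agent.Lib.MP_e85462_co.U.F3

open MeasureTheory Set

namespace SqUp

theorem G1_den {r : ℕ} {b t β : ℝ} {n : ℕ} (hP : Par r b t β n) :
    0 < 1 - t / (r : ℝ) ^ 2 := by
  have F := hP.facts
  have := F.qt
  linarith

theorem superband {r : ℕ} {b H : ℝ} (hr : 10 ≤ r) (hb1 : 4 * (r : ℝ) ^ 2 ≤ b)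
    (hb2 : b ≤ 10 * (r : ℝ) ^ 2) (hH0 : 0 ≤ H) (hH : H ≤ (r : ℝ) ^ 3 / 5) :
    PW (Trap b (1 / (r : ℝ) ^ 2) H) (160 * (r : ℝ) ^ 2) := by
  classical
  have r10 : (10 : ℝ) ≤ r := by exact_mod_cast hr
  have r0 : (0 : ℝ) < r := by linarith
  obtain ⟨hY0, hn0⟩ := YY_zero hr hb1 hb2
  by_cases hlow : H < YY r b 0
  · refine (low hr hb1 hb2 hH0 (by linarith)).mono ?_
    nlinarith [sq_nonneg (r : ℝ)]
  push Not at hlow
  -- the number of steps
  have key : ∀ j : ℕ, 5 * j ≤ r + 5 → YY r b j ≤ H → 5 * j ≤ r := by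
    intro j hj hYj
    have h1 := (seq_inv hr hb1 hb2 j hj).2
    have h2 : (j : ℝ) * (r : ℝ) ^ 2 ≤ (r : ℝ) ^ 3 / 5 := by linarith
    have h3 : (5 * j : ℝ) ≤ r := by
      have h4 : (5 * j : ℝ) * (r : ℝ) ^ 2 ≤ r * (r : ℝ) ^ 2 := by nlinarith
      exact le_of_mul_le_mul_right h4 (by positivity)
    exact_mod_cast h3
  have hex : ∃ j : ℕ, ¬ (5 * j ≤ r ∧ YY r b j ≤ H) := ⟨r, fun h => by omega⟩
  set m := Nat.find hex with hm
  have hm1 : ¬ (5 * m ≤ r ∧ YY r b m ≤ H) := Nat.find_spec hex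
  have hm2 : ∀ j < m, 5 * j ≤ r ∧ YY r b j ≤ H := fun j hj => by
    have := Nat.find_min hex hj
    push Not at this
    by_contra hc
    exact Nat.find_min hex hj hc
  have hm0 : 0 < m := by
    rcases Nat.eq_zero_or_pos m with h | h
    · exfalso
      rw [h] at hm1
      exact hm1 ⟨by omega, hlow⟩
    · exact h
  obtain ⟨J, hJ⟩ : ∃ J, m = J + 1 := ⟨m - 1, by omega⟩
  obtain ⟨hJ5, hJY⟩ := hm2 J (by omega)
  have hJY' : H < YY r b (J + 1) := by
    by_contra hc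
    push Not at hc
    rw [hJ] at hm1
    exact hm1 ⟨key (J + 1) (by omega) hc, hc⟩
  -- the induction
  have main : ∀ j : ℕ, j ≤ J → PW (Ereg r b H (tt r j) (bb r b j) (fl r (tt r j) (n0 r b + j) 0))
      (60 * (r : ℝ) ^ 2 + 30 * r * j + 2 * ((fl r (tt r j) (n0 r b + j) 0 : ℝ) -
        fl r (tt r 0) (n0 r b + 0) 0)) := by
    intro j
    induction j with
    | zero =>
      intro _
      refine (bottom hr hb1 hb2 hlow).mono ?_
      simp
    | succ j ih =>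
      intro hj
      have ih' := ih (by omega)
      obtain ⟨h5, _⟩ := hm2 j (by omega)
      have hP := (seq_inv hr hb1 hb2 j (by omega)).1
      obtain ⟨h5', hYj⟩ := hm2 (j + 1) (by omega)
      have hP' := (seq_inv hr hb1 hb2 (j + 1) (by omega)).1
      have hY : nxb r (tt r j) (bb r b j) (n0 r b + j) + nxt r (tt r j) * b ≤
          H * (1 - nxt r (tt r j) / (r : ℝ) ^ 2) := by
        unfold YY at hYj
        rw [div_le_iff₀ (G1_den hP')] at hYj
        exact hYj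
      refine (step hP hY ih').mono ?_
      have e1 : fl r (nxt r (tt r j)) (n0 r b + j + 1) 0 = fl r (tt r (j + 1)) (n0 r b + (j + 1)) 0 :=
        rfl
      rw [e1]
      push_cast
      linarith
  have hfin := main J le_rfl
  have hP := (seq_inv hr hb1 hb2 J (by omega)).1
  have hden := G1_den hP
  have h1 : bb r b J + tt r J * b ≤ H * (1 - tt r J / (r : ℝ) ^ 2) := by
    unfold YY at hJY
    rwa [div_le_iff₀ hden] at hJY
  have h2 : H * (1 - tt r J / (r : ℝ) ^ 2) ≤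
      bb r b J + tt r J * b + ((r : ℝ) ^ 2 + 3) * (1 - tt r J / (r : ℝ) ^ 2) := by
    have h3 := (YY_succ hr hb1 hb2 J (by omega)).1
    have h4 : H ≤ YY r b J + ((r : ℝ) ^ 2 + 3) := by linarith
    have h5 := mul_le_mul_of_nonneg_right h4 hden.le
    have h6 : YY r b J * (1 - tt r J / (r : ℝ) ^ 2) = bb r b J + tt r J * b := by
      unfold YY
      rw [div_mul_cancel₀ _ hden.ne']
    rw [add_mul, h6] at h5
    exact h5
  refine (top hP h1 h2 hfin).mono ?_
  have F := hP.facts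
  have f1 := (fl_spec hP 0).1
  have f2 : (fl r (tt r J) (n0 r b + J) 0 : ℝ) ≤ (n0 r b + J : ℕ) + 1 - 4 * r := by
    have : 0 ≤ lam r (tt r J) * ((r : ℝ) ^ 2 - (0 : ℕ)) := by
      have := F.lam0
      push_cast
      have h0 : (0 : ℝ) ≤ (r : ℝ) ^ 2 - 0 := by
        rw [sub_zero]
        positivity
      exact mul_nonneg (by linarith) h0
    linarith
  have f3 : (0 : ℝ) ≤ fl r (tt r 0) (n0 r b + 0) 0 := Nat.cast_nonneg _
  have f4 := hP.hn2
  have f5 : (5 * J : ℝ) ≤ r := by exact_mod_cast hJ5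
  have f6 : (r : ℝ) ≤ (r : ℝ) ^ 2 / 10 := by nlinarith
  have f7 : 30 * (r : ℝ) * J ≤ 6 * (r : ℝ) ^ 2 := by nlinarith
  linarith

end SqUp
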