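import Pool.Agent.Lib.MP_e85462_co.U.G1
import Pool.Agent.Lib.MP_e85462_co.U.B4

open MeasureTheory Set

namespace SqUp

theorem G2_stack {B q K1 K : ℝ} (h1 : 0 ≤ K1) (h2 : K1 ≤ K) {e e' : ℝ}
    (hA : PW (Trap B q K1) e) (hC : PW (Trap (B + q * K1) q (K - K1)) e') :
    PW (Trap B q K) (e + e') := by
  have hD := hC.translate (0, K1)
  have hdisj : volume (Trap B q K1 ∩ {z : ℝ × ℝ | z - (0, K1) ∈ Trap (B + q * K1) q (K - K1)}) =
      0 := by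
    refine measure_mono_null ?_ (vol_line 0 1 K1 (Or.inr one_ne_zero))
    rintro z ⟨⟨_, _, h3, _⟩, ⟨_, h4, _, _⟩⟩
    simp only [Prod.snd_sub] at h4
    simp only [Set.mem_ofPred_eq]
    linarith
  have hE := hA.union hD hdisj
  have hset : Trap B q K1 ∪ {z : ℝ × ℝ | z - (0, K1) ∈ Trap (B + q * K1) q (K - K1)} =
      Trap B q K := by
    ext z
    simp only [Trap, Set.mem_union, Set.mem_ofPred_eq, Prod.fst_sub, Prod.snd_sub, sub_zero]
    constructor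
    · rintro (⟨h3, h4, h5, h6⟩ | ⟨h3, h4, h5, h6⟩)
      · exact ⟨h3, h4, by linarith, h6⟩
      · exact ⟨h3, by linarith, by linarith, by nlinarith⟩
    · rintro ⟨h3, h4, h5, h6⟩
      by_cases h7 : z.2 ≤ K1
      · exact Or.inl ⟨h3, h4, h7, h6⟩
      · push Not at h7
        exact Or.inr ⟨h3, by linarith, by linarith, by nlinarith⟩
  rwa [hset] at hE

theorem trapezoid {r : ℕ} {B K : ℝ} (hr : 10 ≤ r) (hB1 : 4 * (r : ℝ) ^ 2 ≤ B)
    (hB2 : B ≤ 5 * (r : ℝ) ^ 2) (hK0 : 0 ≤ K) (hK : K ≤ 3 * (r : ℝ) ^ 4) :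
    PW (Trap B (1 / (r : ℝ) ^ 2) K) (2600 * (r : ℝ) ^ 3) := by
  have r10 : (10 : ℝ) ≤ r := by exact_mod_cast hr
  have r0 : (0 : ℝ) < r := by linarith
  have main : ∀ S : ℕ, ∀ K' : ℝ, 0 ≤ K' → K' ≤ 3 * (r : ℝ) ^ 4 →
      K' ≤ ((S : ℝ) + 1) * ((r : ℝ) ^ 3 / 5) →
      PW (Trap B (1 / (r : ℝ) ^ 2) K') (160 * (r : ℝ) ^ 2 * ((S : ℝ) + 1)) := by
    intro S
    induction S with
    | zero =>
      intro K' h0 h1 h2
      refine (superband hr hB1 (by nlinarith) h0 (by push_cast at h2; linarith)).mono ?_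
      push_cast
      linarith
    | succ S ih =>
      intro K' h0 h1 h2
      have hpos : 0 ≤ ((S : ℝ) + 1) * ((r : ℝ) ^ 3 / 5) := by positivity
      by_cases h3 : K' ≤ ((S : ℝ) + 1) * ((r : ℝ) ^ 3 / 5)
      · refine (ih K' h0 h1 h3).mono ?_
        push_cast
        nlinarith [sq_nonneg (r : ℝ)]
      · push Not at h3
        have hA := ih _ hpos (by linarith) le_rfl
        have hqK : 1 / (r : ℝ) ^ 2 * (((S : ℝ) + 1) * ((r : ℝ) ^ 3 / 5)) ≤ 3 * (r : ℝ) ^ 2 := by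
          have h4 : ((S : ℝ) + 1) * ((r : ℝ) ^ 3 / 5) ≤ 3 * (r : ℝ) ^ 4 := by linarith
          rw [one_div, inv_mul_le_iff₀ (by positivity)]
          nlinarith
        have hqK0 : 0 ≤ 1 / (r : ℝ) ^ 2 * (((S : ℝ) + 1) * ((r : ℝ) ^ 3 / 5)) := by positivity
        have hC := superband (b := B + 1 / (r : ℝ) ^ 2 * (((S : ℝ) + 1) * ((r : ℝ) ^ 3 / 5)))
          (H := K' - ((S : ℝ) + 1) * ((r : ℝ) ^ 3 / 5)) hr (by linarith) (by nlinarith)
          (by linarith) (by push_cast at h2; linarith)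
        refine (G2_stack hpos h3.le hA hC).mono ?_
        push_cast
        linarith
  have h5 : 0 < (r : ℝ) ^ 3 / 5 := by positivity
  set S := ⌊K / ((r : ℝ) ^ 3 / 5)⌋₊ with hS
  have h6 : K / ((r : ℝ) ^ 3 / 5) < (S : ℝ) + 1 := Nat.lt_floor_add_one _
  have h7 : (S : ℝ) ≤ K / ((r : ℝ) ^ 3 / 5) := Nat.floor_le (by positivity)
  rw [div_lt_iff₀ h5] at h6
  rw [le_div_iff₀ h5] at h7
  refine (main S K hK0 hK h6.le).mono ?_
  have h8 : (S : ℝ) ≤ 15 * r := by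
    have h9 : (S : ℝ) * ((r : ℝ) ^ 3 / 5) ≤ (15 * r) * ((r : ℝ) ^ 3 / 5) := by
      have : (15 * (r : ℝ)) * ((r : ℝ) ^ 3 / 5) = 3 * (r : ℝ) ^ 4 := by ring
      linarith
    exact le_of_mul_le_mul_right h9 h5
  have h10 : (0 : ℝ) < (r : ℝ) ^ 2 := by positivity
  nlinarith [mul_le_mul_of_nonneg_left h8 h10.le]

end SqUp
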