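import Pool.Agent.Lib.MP_e85462_co.U.C1

open MeasureTheory Set

namespace SqUp

theorem G3_cs {q : ℝ} (hq0 : 0 < q) (hq1 : q ≤ 1 / 100) :
    49 / 100 * q ^ 2 ≤ 1 - cs q ∧ 0 < cs q ∧ cs q ≤ 1 := by
  have h0 : (0 : ℝ) ≤ 1 + q ^ 2 := by positivity
  have hS2 : √(1 + q ^ 2) ^ 2 = 1 + q ^ 2 := Real.sq_sqrt h0
  have hS1 : 1 ≤ √(1 + q ^ 2) := by
    rw [Real.one_le_sqrt]
    nlinarith
  have hS3 : √(1 + q ^ 2) ≤ 101 / 100 := by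
    rw [Real.sqrt_le_left (by norm_num)]
    nlinarith
  set s := √(1 + q ^ 2) with hs
  have hs0 : 0 < s := by linarith
  have hc : cs q * s = 1 := by
    rw [cs, ← hs]
    field_simp
  have hc0 : 0 < cs q := by
    rw [cs, ← hs]
    positivity
  have hc1 : cs q ≤ 1 := by nlinarith
  refine ⟨?_, hc0, hc1⟩
  have e : (1 - cs q) * (s * (s + 1)) = q ^ 2 := by
    have : (1 - cs q) * (s * (s + 1)) = (s - cs q * s) * (s + 1) := by ring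
    rw [this, hc]
    nlinarith
  have h1 : s * (s + 1) ≤ 100 / 49 := by nlinarith
  have h2 : 0 ≤ 1 - cs q := by linarith
  have h3 : q ^ 2 ≤ (1 - cs q) * (100 / 49) := by
    rw [← e]
    exact mul_le_mul_of_nonneg_left h1 h2
  linarith

theorem exists_height {r : ℕ} (hr : 10 ≤ r) : ∃ κ : ℕ,
    ((κ : ℝ) + 1) * cs (1 / (r : ℝ) ^ 2) + 1 / (r : ℝ) ^ 2 * cs (1 / (r : ℝ) ^ 2) ≤ κ + 1 / 2 ∧
    (κ : ℝ) + 1 / 2 ≤ ((κ : ℝ) + 1) * cs (1 / (r : ℝ) ^ 2) +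
      1 / (r : ℝ) ^ 2 * cs (1 / (r : ℝ) ^ 2) + (1 - cs (1 / (r : ℝ) ^ 2)) ∧
    (κ : ℝ) + 1 / 2 ≤ 2 * (r : ℝ) ^ 4 := by
  have hr' : (10 : ℝ) ≤ r := by exact_mod_cast hr
  have hr2 : (100 : ℝ) ≤ (r : ℝ) ^ 2 := by nlinarith
  have hq0 : 0 < 1 / (r : ℝ) ^ 2 := by positivity
  have hq1 : 1 / (r : ℝ) ^ 2 ≤ 1 / 100 := by
    apply one_div_le_one_div_of_le (by norm_num) hr2
  have hqr : (1 / (r : ℝ) ^ 2) * (r : ℝ) ^ 2 = 1 := by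
    have : (r : ℝ) ^ 2 ≠ 0 := by positivity
    field_simp
  obtain ⟨h1, h2, h3⟩ := G3_cs hq0 hq1
  set q : ℝ := 1 / (r : ℝ) ^ 2 with hq
  set c := cs q with hc
  have hpos : 0 < 1 - c := lt_of_lt_of_le (by positivity) h1
  set A : ℝ := (1 / 2 + q * c) / (1 - c) with hA
  have hA0 : 0 < A := by positivity
  have hAm : A * (1 - c) = 1 / 2 + q * c := by
    rw [hA]
    field_simp
  have hm1 : A ≤ (⌈A⌉₊ : ℝ) := Nat.le_ceil A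
  have hm2 : (⌈A⌉₊ : ℝ) < A + 1 := Nat.ceil_lt_add_one hA0.le
  have hm0 : 0 < ⌈A⌉₊ := Nat.ceil_pos.2 hA0
  obtain ⟨κ, hκ⟩ : ∃ κ : ℕ, ⌈A⌉₊ = κ + 1 := ⟨⌈A⌉₊ - 1, by omega⟩
  rw [hκ] at hm1 hm2
  push_cast at hm1 hm2
  have hm3 : (κ : ℝ) < A := by linarith
  have k1 : A * (1 - c) ≤ ((κ : ℝ) + 1) * (1 - c) := mul_le_mul_of_nonneg_right hm1 hpos.le
  have k2 : (κ : ℝ) * (1 - c) ≤ A * (1 - c) := mul_le_mul_of_nonneg_right hm3.le hpos.le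
  rw [hAm] at k1 k2
  refine ⟨κ, by linarith, by linarith, ?_⟩
  have hqc : q * c ≤ 1 / 100 := by nlinarith
  have hκ0 : (0 : ℝ) ≤ κ := Nat.cast_nonneg κ
  have k3 : (κ : ℝ) * (49 / 100 * q ^ 2) ≤ 51 / 100 :=
    (mul_le_mul_of_nonneg_left h1 hκ0).trans (by linarith)
  have hq4 : q ^ 2 * (r : ℝ) ^ 4 = 1 := by
    have : q ^ 2 * (r : ℝ) ^ 4 = (q * (r : ℝ) ^ 2) ^ 2 := by ring
    rw [this, hqr, one_pow]
  have hr4 : (1 : ℝ) ≤ (r : ℝ) ^ 4 := by nlinarith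
  have k4 : (κ : ℝ) * 49 / 100 ≤ 51 / 100 * (r : ℝ) ^ 4 := by
    have := mul_le_mul_of_nonneg_right k3 (by positivity : (0 : ℝ) ≤ (r : ℝ) ^ 4)
    calc (κ : ℝ) * 49 / 100 = (κ : ℝ) * (49 / 100 * q ^ 2) * (r : ℝ) ^ 4 := by
          linear_combination (-((κ : ℝ) * 49 / 100)) * hq4
      _ ≤ 51 / 100 * (r : ℝ) ^ 4 := this
  linarith

end SqUp
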