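import Pool.Agent.Lib.MP_e85462_co.U.G2
import Pool.Agent.Lib.MP_e85462_co.U.B3
import Pool.Agent.Lib.MP_e85462_co.U.A2

open MeasureTheory Set

namespace SqUp

/-- one bar -/
def G4_bar (B q K : ℝ) (j : ℕ) : Set (ℝ × ℝ) :=
  {z : ℝ × ℝ | 0 ≤ z.2 ∧ z.2 ≤ K ∧ (B + j / cs q) + q * z.2 ≤ z.1 ∧
    z.1 ≤ (B + j / cs q) + q * z.2 + 1 / cs q}

theorem rectangle {r κ : ℕ} {L : ℝ} (hr : 10 ≤ r)
    (h1 : ((κ : ℝ) + 1) * cs (1 / (r : ℝ) ^ 2) + 1 / (r : ℝ) ^ 2 * cs (1 / (r : ℝ) ^ 2)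
      ≤ κ + 1 / 2)
    (h2 : (κ : ℝ) + 1 / 2 ≤ ((κ : ℝ) + 1) * cs (1 / (r : ℝ) ^ 2) +
      1 / (r : ℝ) ^ 2 * cs (1 / (r : ℝ) ^ 2) + (1 - cs (1 / (r : ℝ) ^ 2)))
    (h3 : (κ : ℝ) + 1 / 2 ≤ 2 * (r : ℝ) ^ 4) (hL : 12 * (r : ℝ) ^ 2 ≤ L) :
    PW (Box L (κ + 1 / 2)) (2 * L / (r : ℝ) ^ 2 + 5200 * (r : ℝ) ^ 3) := by
  classical
  have r10 : (10 : ℝ) ≤ r := by exact_mod_cast hr
  have r0 : (0 : ℝ) < r := by linarith
  set q : ℝ := 1 / (r : ℝ) ^ 2 with hq
  set K : ℝ := (κ : ℝ) + 1 / 2 with hK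
  have hq0 : 0 < q := by positivity
  have hqr : q * (r : ℝ) ^ 2 = 1 := by rw [hq]; field_simp
  have hK0 : 0 ≤ K := by positivity
  have hc := cs_pos q
  have hc1 := cs_le_one q
  have hqK : q * K ≤ 2 * (r : ℝ) ^ 2 := by
    have : q * K ≤ q * (2 * (r : ℝ) ^ 4) := mul_le_mul_of_nonneg_left h3 hq0.le
    have e : q * (2 * (r : ℝ) ^ 4) = 2 * (r : ℝ) ^ 2 := by
      calc q * (2 * (r : ℝ) ^ 4) = 2 * (r : ℝ) ^ 2 * (q * (r : ℝ) ^ 2) := by ring
        _ = _ := by rw [hqr, mul_one]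
    linarith
  have hqK0 : 0 ≤ q * K := by positivity
  have hr2 : (0 : ℝ) < (r : ℝ) ^ 2 := by positivity
  set m := ⌊(L - 8 * (r : ℝ) ^ 2 - q * K) * cs q⌋₊ with hm
  have hm0 : 0 ≤ (L - 8 * (r : ℝ) ^ 2 - q * K) * cs q := mul_nonneg (by linarith) hc.le
  have hm1 : (m : ℝ) ≤ (L - 8 * (r : ℝ) ^ 2 - q * K) * cs q := Nat.floor_le hm0
  have hm2 : (L - 8 * (r : ℝ) ^ 2 - q * K) * cs q < m + 1 := Nat.lt_floor_add_one _
  set w : ℝ := m / cs q with hw
  have hw1 : w ≤ L - 8 * (r : ℝ) ^ 2 - q * K := by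
    rw [hw, div_le_iff₀ hc]; exact hm1
  have hw2 : L - 8 * (r : ℝ) ^ 2 - q * K < w + 1 / cs q := by
    rw [hw, ← add_div, lt_div_iff₀ hc]; exact hm2
  have hw0 : 0 ≤ w := by positivity
  have hkap : 1 / cs q ≤ 2 := by
    rw [one_div_cs]
    have := kap_le q
    have hq1 : q ≤ 1 := by
      rw [hq, div_le_one hr2]
      nlinarith
    nlinarith
  set B : ℝ := 4 * (r : ℝ) ^ 2 with hB
  set B' : ℝ := L - 4 * (r : ℝ) ^ 2 - q * K - w with hB'
  have hB1 : 4 * (r : ℝ) ^ 2 ≤ B' := by linarith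
  have hB2 : B' ≤ 5 * (r : ℝ) ^ 2 := by nlinarith
  have hA : PW (Trap B q K) (2600 * (r : ℝ) ^ 3) :=
    trapezoid hr le_rfl (by nlinarith) hK0 (by nlinarith [sq_nonneg ((r : ℝ) ^ 2)])
  have hC : PW {z : ℝ × ℝ | (L, K) - z ∈ Trap B' q K} (2600 * (r : ℝ) ^ 3) :=
    (trapezoid hr hB1 hB2 hK0 (by nlinarith [sq_nonneg ((r : ℝ) ^ 2)])).reflect (L, K)
  -- the bars
  have hbar : ∀ j : ℕ, PW (G4_bar B q K j) (2 / (r : ℝ) ^ 2) := by
    intro j
    refine (PW.bar (B + j / cs q) q K (κ + 1) hq0.le ?_).mono ?_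
    · push_cast
      exact h1
    · push_cast
      have h5 : K / cs q - ((κ : ℝ) + 1) ≤ q + kap q := by
        have h6 : K / cs q ≤ ((κ : ℝ) + 1) + q + (1 / cs q - 1) := by
          rw [div_le_iff₀ hc]
          have e : (((κ : ℝ) + 1) + q + (1 / cs q - 1)) * cs q =
              ((κ : ℝ) + 1) * cs q + q * cs q + (1 - cs q) := by
            field_simp
          rw [e]
          exact h2
        rw [one_div_cs] at h6
        linarith
      have h7 := kap_le q
      have hq1 : q ≤ 1 := by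
        rw [hq, div_le_one hr2]
        nlinarith
      have h8 : 2 / (r : ℝ) ^ 2 = 2 * q := by rw [hq]; ring
      rw [h8]
      nlinarith
  have hM := PW.biUnion (Finset.range m) (fun j => G4_bar B q K j) (fun _ => 2 / (r : ℝ) ^ 2)
    (fun j _ => hbar j) (by
      intro i _ j _ hij
      have aux : ∀ i j : ℕ, i < j → volume (G4_bar B q K i ∩ G4_bar B q K j) = 0 := by
        intro i j hij
        refine measure_mono_null ?_ (vol_line 1 (-q) (B + j / cs q) (Or.inl one_ne_zero))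
        rintro z ⟨⟨_, _, _, h4⟩, ⟨_, _, h5, _⟩⟩
        have h6 : ((i : ℝ) + 1) / cs q ≤ j / cs q := by
          apply div_le_div_of_nonneg_right _ hc.le
          exact_mod_cast hij
        rw [add_div] at h6
        show 1 * z.1 + -q * z.2 = B + j / cs q
        linarith
      rcases lt_or_gt_of_ne hij with h | h
      · exact aux i j h
      · rw [Set.inter_comm]
        exact aux j i h)
  rw [Finset.sum_const, Finset.card_range, nsmul_eq_mul] at hM
  have hAM : volume (Trap B q K ∩ ⋃ j ∈ Finset.range m, G4_bar B q K j) = 0 := by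
    refine measure_mono_null ?_ (vol_line 1 (-q) B (Or.inl one_ne_zero))
    rintro z ⟨⟨_, _, _, h4⟩, h5⟩
    obtain ⟨j, _, h6⟩ := Set.mem_iUnion₂.1 h5
    obtain ⟨_, _, h7, _⟩ := h6
    have : 0 ≤ (j : ℝ) / cs q := by positivity
    show 1 * z.1 + -q * z.2 = B
    linarith
  have hU := hA.union hM hAM
  have hUC : volume ((Trap B q K ∪ ⋃ j ∈ Finset.range m, G4_bar B q K j) ∩
      {z : ℝ × ℝ | (L, K) - z ∈ Trap B' q K}) = 0 := by
    refine measure_mono_null ?_ (vol_line 1 (-q) (B + w) (Or.inl one_ne_zero))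
    rintro z ⟨h4, ⟨_, _, _, h8⟩⟩
    simp only [Prod.fst_sub, Prod.snd_sub] at h8
    show 1 * z.1 + -q * z.2 = B + w
    have h9 : z.1 ≤ B + w + q * z.2 := by
      rcases h4 with ⟨_, _, _, h4⟩ | h4
      · linarith
      · obtain ⟨j, hj, h6⟩ := Set.mem_iUnion₂.1 h4
        obtain ⟨_, _, _, h7⟩ := h6
        have h10 : ((j : ℝ) + 1) / cs q ≤ m / cs q := by
          apply div_le_div_of_nonneg_right _ hc.le
          exact_mod_cast Finset.mem_range.1 hj
        rw [add_div] at h10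
        linarith
    have h10 : B + w + q * z.2 ≤ z.1 := by
      have : L - z.1 ≤ B' + (q * K - q * z.2) := by linarith
      linarith
    linarith
  have hV := hU.union hC hUC
  have hset : (Trap B q K ∪ ⋃ j ∈ Finset.range m, G4_bar B q K j) ∪
      {z : ℝ × ℝ | (L, K) - z ∈ Trap B' q K} = Box L K := by
    ext z
    constructor
    · rintro ((⟨h4, h5, h6, h7⟩ | h4) | ⟨h4, h5, h6, h7⟩)
      · have : q * z.2 ≤ q * K := mul_le_mul_of_nonneg_left h6 hq0.le
        exact ⟨h4, by linarith, h5, h6⟩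
      · obtain ⟨j, hj, h6⟩ := Set.mem_iUnion₂.1 h4
        obtain ⟨h7, h8, h9, h10⟩ := h6
        have h11 : ((j : ℝ) + 1) / cs q ≤ m / cs q := by
          apply div_le_div_of_nonneg_right _ hc.le
          exact_mod_cast Finset.mem_range.1 hj
        rw [add_div] at h11
        have : q * z.2 ≤ q * K := mul_le_mul_of_nonneg_left h8 hq0.le
        have h12 : 0 ≤ q * z.2 := by positivity
        have h13 : 0 ≤ (j : ℝ) / cs q := by positivity
        exact ⟨by linarith, by linarith, h7, h8⟩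
      · simp only [Prod.fst_sub, Prod.snd_sub] at h4 h5 h6 h7
        have h8 : q * (K - z.2) ≤ q * K := mul_le_mul_of_nonneg_left h6 hq0.le
        exact ⟨by linarith, by linarith, by linarith, by linarith⟩
    · rintro ⟨h4, h5, h6, h7⟩
      by_cases h8 : z.1 ≤ B + q * z.2
      · exact Or.inl (Or.inl ⟨h4, h6, h7, h8⟩)
      · push Not at h8
        by_cases h9 : B + w + q * z.2 ≤ z.1
        · refine Or.inr ⟨?_, ?_, ?_, ?_⟩
          · simp only [Prod.fst_sub]; linarith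
          · simp only [Prod.snd_sub]; linarith
          · simp only [Prod.snd_sub]; linarith
          · simp only [Prod.fst_sub, Prod.snd_sub]
            have : q * (K - z.2) = q * K - q * z.2 := by ring
            linarith
        · push Not at h9
          refine Or.inl (Or.inr ?_)
          set v : ℝ := (z.1 - q * z.2 - B) * cs q with hv
          have hv0 : 0 ≤ v := mul_nonneg (by linarith) hc.le
          have hvj := Nat.floor_le hv0
          have hvj2 := Nat.lt_floor_add_one v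
          have hvm : v < m := by
            have : z.1 - q * z.2 - B < m / cs q := by linarith
            rwa [lt_div_iff₀ hc] at this
          refine Set.mem_iUnion₂.2 ⟨⌊v⌋₊, Finset.mem_range.2 ?_, h6, h7, ?_, ?_⟩
          · exact (Nat.floor_lt hv0).2 hvm
          · have : (⌊v⌋₊ : ℝ) / cs q ≤ z.1 - q * z.2 - B := by
              rw [div_le_iff₀ hc]; exact hvj
            linarith
          · have : z.1 - q * z.2 - B ≤ ((⌊v⌋₊ : ℝ) + 1) / cs q := by
              rw [le_div_iff₀ hc]; exact hvj2.le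
            rw [add_div] at this
            linarith
  rw [hset] at hV
  refine hV.mono ?_
  have h12 : (m : ℝ) ≤ L := by
    have : (L - 8 * (r : ℝ) ^ 2 - q * K) * cs q ≤ (L - 8 * (r : ℝ) ^ 2 - q * K) * 1 :=
      mul_le_mul_of_nonneg_left hc1 (by linarith)
    linarith
  have h13 : (m : ℝ) * (2 / (r : ℝ) ^ 2) ≤ 2 * L / (r : ℝ) ^ 2 := by
    rw [mul_div_assoc', div_le_div_iff_of_pos_right hr2]
    linarith
  linarith

end SqUp
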