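import Pool.Agent.Lib.MP_e85462_co.U.A2
import Pool.Agent.Lib.MP_e85462_co.U.A4
import Pool.Agent.Lib.MP_e85462_co.U.B1

open MeasureTheory Set

namespace SqUp

private theorem G5_inter {N : ℕ} {i j : ℕ} (h : i < j) :
    volume ({z : ℝ × ℝ | (i : ℝ) ≤ z.1 ∧ z.1 ≤ (i : ℝ) + 1 ∧ 0 * z.1 + 0 ≤ z.2 ∧
      z.2 ≤ 0 * z.1 + (N : ℝ)} ∩
      {z : ℝ × ℝ | (j : ℝ) ≤ z.1 ∧ z.1 ≤ (j : ℝ) + 1 ∧ 0 * z.1 + 0 ≤ z.2 ∧
        z.2 ≤ 0 * z.1 + (N : ℝ)}) = 0 := by
  refine measure_mono_null ?_ (vol_line 1 0 j (Or.inl one_ne_zero))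
  rintro z ⟨⟨-, h1, -, -⟩, h2, -, -, -⟩
  have h3 : (i : ℝ) + 1 ≤ j := by exact_mod_cast h
  show 1 * z.1 + 0 * z.2 = j
  linarith

theorem grid (N : ℕ) : PW (Box N N) 0 := by
  rcases Nat.eq_zero_or_pos N with h0 | h0
  · refine ⟨le_rfl, Empty, inferInstance, fun i => i.elim, fun i => i.elim, fun i => i.elim, ?_⟩
    have h1 : volume (Box (N : ℝ) N) = 0 := by
      refine measure_mono_null ?_ (vol_line 1 0 0 (Or.inl one_ne_zero))
      rintro z ⟨h1, h2, -, -⟩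
      rw [h0, Nat.cast_zero] at h2
      show 1 * z.1 + 0 * z.2 = 0
      linarith
    rw [h1]
    exact zero_le
  · have h1 := PW.biUnion (Finset.range N) (fun c : ℕ => {z : ℝ × ℝ | (c : ℝ) ≤ z.1 ∧
      z.1 ≤ (c : ℝ) + 1 ∧ 0 * z.1 + 0 ≤ z.2 ∧ z.2 ≤ 0 * z.1 + (N : ℝ)}) (fun _ => 0)
      (fun c _ => by
        have h2 := PW.col (c : ℝ) 0 0 0 (N : ℝ) N le_rfl le_rfl (by linarith)
        have h3 : 0 * ((c : ℝ) + 1) + (N : ℝ) - (0 * (c : ℝ) + 0) - N = 0 := by ring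
        rw [h3] at h2
        exact h2)
      (fun i _ j _ hij => by
        rcases lt_or_gt_of_ne hij with h | h
        · exact G5_inter h
        · rw [inter_comm]
          exact G5_inter h)
    have h4 : (⋃ c ∈ Finset.range N, {z : ℝ × ℝ | (c : ℝ) ≤ z.1 ∧
      z.1 ≤ (c : ℝ) + 1 ∧ 0 * z.1 + 0 ≤ z.2 ∧ z.2 ≤ 0 * z.1 + (N : ℝ)}) = Box N N := by
      ext z
      simp only [mem_iUnion, Finset.mem_range, exists_prop]
      constructor
      · rintro ⟨c, hc, h5, h6, h7, h8⟩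
        have h9 : (c : ℝ) + 1 ≤ N := by exact_mod_cast hc
        have h10 : (0 : ℝ) ≤ c := Nat.cast_nonneg c
        exact ⟨by linarith, by linarith, by linarith, by linarith⟩
      · rintro ⟨h5, h6, h7, h8⟩
        rcases lt_or_eq_of_le h6 with h9 | h9
        · refine ⟨⌊z.1⌋₊, (Nat.floor_lt h5).2 h9, Nat.floor_le h5, (Nat.lt_floor_add_one z.1).le,
            by linarith, by linarith⟩
        · refine ⟨N - 1, by omega, ?_, ?_, by linarith, by linarith⟩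
          · rw [Nat.cast_sub h0, Nat.cast_one]
            linarith
          · rw [Nat.cast_sub h0, Nat.cast_one]
            linarith
    rw [← h4]
    simpa using h1

end SqUp
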