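import Pool.Agent.Lib.MP_e85462_co.U.G3
import Pool.Agent.Lib.MP_e85462_co.U.G4
import Pool.Agent.Lib.MP_e85462_co.U.G5

open MeasureTheory Set

namespace SqUp

/-- decomposition of a square box into a square box and two rectangles -/
theorem G6_split {N K : ℝ} (hN : 0 ≤ N) (hK : 0 ≤ K) {a b c : ℝ} (hA : PW (Box N N) a)
    (hB : PW (Box (N + K) K) b) (hC : PW (Box N K) c) :
    PW (Box (N + K) (N + K)) (a + c + b) := by
  have hC' := hC.swap.translate (N, 0)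
  have hB' := hB.translate (0, N)
  have d1 : volume (Box N N ∩ {z : ℝ × ℝ | z - (N, 0) ∈ {z : ℝ × ℝ | (z.2, z.1) ∈ Box N K}}) =
      0 := by
    refine measure_mono_null ?_ (vol_line 1 0 N (Or.inl one_ne_zero))
    rintro z ⟨⟨_, h1, _, _⟩, ⟨_, _, h2, _⟩⟩
    simp only [Prod.fst_sub] at h2
    show 1 * z.1 + 0 * z.2 = N
    linarith
  have h1 := hA.union hC' d1
  have d2 : volume ((Box N N ∪ {z : ℝ × ℝ | z - (N, 0) ∈ {z : ℝ × ℝ | (z.2, z.1) ∈ Box N K}}) ∩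
      {z : ℝ × ℝ | z - (0, N) ∈ Box (N + K) K}) = 0 := by
    refine measure_mono_null ?_ (vol_line 0 1 N (Or.inr one_ne_zero))
    rintro z ⟨h, ⟨_, _, h2, _⟩⟩
    simp only [Prod.snd_sub] at h2
    show 0 * z.1 + 1 * z.2 = N
    rcases h with ⟨_, _, _, h⟩ | ⟨_, h, _, _⟩
    · linarith
    · simp only [Prod.snd_sub, sub_zero] at h
      linarith
  have h2 := h1.union hB' d2
  have hset : (Box N N ∪ {z : ℝ × ℝ | z - (N, 0) ∈ {z : ℝ × ℝ | (z.2, z.1) ∈ Box N K}}) ∪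
      {z : ℝ × ℝ | z - (0, N) ∈ Box (N + K) K} = Box (N + K) (N + K) := by
    ext z
    simp only [Box, Set.mem_union, Set.mem_ofPred_eq, Prod.fst_sub, Prod.snd_sub, sub_zero]
    constructor
    · rintro ((⟨a1, a2, a3, a4⟩ | ⟨a1, a2, a3, a4⟩) | ⟨a1, a2, a3, a4⟩)
      · exact ⟨a1, by linarith, a3, by linarith⟩
      · exact ⟨by linarith, by linarith, a1, by linarith⟩
      · exact ⟨a1, a2, by linarith, by linarith⟩
    · rintro ⟨a1, a2, a3, a4⟩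
      by_cases h3 : z.2 ≤ N
      · left
        by_cases h4 : z.1 ≤ N
        · exact Or.inl ⟨a1, h4, a3, h3⟩
        · push Not at h4
          exact Or.inr ⟨a3, h3, by linarith, by linarith⟩
      · push Not at h3
        exact Or.inr ⟨a1, a2, by linarith, by linarith⟩
  rwa [hset] at h2

theorem G6_vol (L K : ℝ) (hL : 0 ≤ L) : volume (Box L K) ≤ ENNReal.ofReal (L * K) := by
  have : Box L K ⊆ Set.Icc 0 L ×ˢ Set.Icc 0 K := by
    rintro z ⟨h1, h2, h3, h4⟩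
    exact ⟨⟨h1, h2⟩, ⟨h3, h4⟩⟩
  refine (measure_mono this).trans ?_
  rw [Measure.volume_eq_prod, Measure.prod_prod, Real.volume_Icc, Real.volume_Icc,
    ← ENNReal.ofReal_mul (by linarith)]
  simp

theorem upper (k : ℕ) (hk : 1 ≤ k) :
    PW (Box ((k : ℝ) + 1 / 2) (k + 1 / 2)) (10 ^ 7 * ((k : ℝ) + 1 / 2) ^ (3 / 5 : ℝ)) := by
  classical
  set X : ℝ := (k : ℝ) + 1 / 2 with hX
  have hk' : (1 : ℝ) ≤ k := by exact_mod_cast hk
  have hX1 : 1 ≤ X := by linarith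
  have hX0 : 0 < X := by linarith
  -- the fifth root
  set y : ℝ := X ^ (1 / 5 : ℝ) with hy
  have hy1 : 1 ≤ y := Real.one_le_rpow hX1 (by norm_num)
  have hy5 : y ^ 5 = X := by
    rw [hy, ← Real.rpow_natCast, ← Real.rpow_mul hX0.le]
    norm_num
  have hy3 : y ^ 3 = X ^ (3 / 5 : ℝ) := by
    rw [hy, ← Real.rpow_natCast, ← Real.rpow_mul hX0.le]
    norm_num
  rw [← hy3]
  by_cases hsmall : y < 10
  · refine PW.of_vol (by positivity) ((G6_vol X X hX0.le).trans (ENNReal.ofReal_le_ofReal ?_))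
    rw [← hy5]
    have h1 : y ^ 7 ≤ 10 ^ 7 := pow_le_pow_left₀ (by linarith) hsmall.le 7
    calc y ^ 5 * y ^ 5 = y ^ 7 * y ^ 3 := by ring
      _ ≤ 10 ^ 7 * y ^ 3 := mul_le_mul_of_nonneg_right h1 (by positivity)
  push Not at hsmall
  set r := ⌊y⌋₊ with hr
  have hr1 : (r : ℝ) ≤ y := Nat.floor_le (by linarith)
  have hr2 : y < (r : ℝ) + 1 := Nat.lt_floor_add_one y
  have hr10 : 10 ≤ r := by
    rw [hr]
    exact Nat.le_floor (by exact_mod_cast hsmall)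
  have r10 : (10 : ℝ) ≤ r := by exact_mod_cast hr10
  have r0 : (0 : ℝ) < r := by linarith
  obtain ⟨κ, h1, h2, h3⟩ := exists_height hr10
  have hr4 : (0 : ℝ) < (r : ℝ) ^ 4 := by positivity
  have hXr : (r : ℝ) ^ 5 ≤ X := by
    rw [← hy5]
    exact pow_le_pow_left₀ r0.le hr1 5
  have hr5 : 10 * (r : ℝ) ^ 4 ≤ (r : ℝ) ^ 5 := by nlinarith
  have hκk : κ ≤ k := by
    have : (κ : ℝ) < (k : ℝ) + 1 := by linarith
    have : κ < k + 1 := by exact_mod_cast this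
    omega
  set N := k - κ with hN
  have hNr : (N : ℝ) = (k : ℝ) - κ := by rw [hN, Nat.cast_sub hκk]
  set K : ℝ := (κ : ℝ) + 1 / 2 with hK
  have hNK : (N : ℝ) + K = X := by rw [hNr, hK, hX]; ring
  have hK0 : 0 ≤ K := by positivity
  have hr42 : 100 * (r : ℝ) ^ 2 ≤ (r : ℝ) ^ 4 := by
    have : (100 : ℝ) ≤ (r : ℝ) ^ 2 := by nlinarith
    nlinarith [sq_nonneg (r : ℝ)]
  have hB := rectangle hr10 h1 h2 h3 (L := (N : ℝ) + K) (by rw [hNK]; linarith)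
  have hC := rectangle hr10 h1 h2 h3 (L := (N : ℝ)) (by linarith)
  have hfin := G6_split (Nat.cast_nonneg N) hK0 (grid N) hB hC
  rw [hNK] at hfin
  refine hfin.mono ?_
  -- numbers
  have hy11 : y ≤ 11 / 10 * r := by linarith
  have hy5' : X ≤ 2 * (r : ℝ) ^ 5 := by
    rw [← hy5]
    calc y ^ 5 ≤ (11 / 10 * (r : ℝ)) ^ 5 := pow_le_pow_left₀ (by linarith) hy11 5
      _ = (11 / 10) ^ 5 * (r : ℝ) ^ 5 := by ring
      _ ≤ 2 * (r : ℝ) ^ 5 := by
        have : (0 : ℝ) < (r : ℝ) ^ 5 := by positivity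
        nlinarith
  have h4 : 2 * X / (r : ℝ) ^ 2 ≤ 4 * (r : ℝ) ^ 3 := by
    rw [div_le_iff₀ (by positivity)]
    have : 4 * (r : ℝ) ^ 3 * (r : ℝ) ^ 2 = 4 * (r : ℝ) ^ 5 := by ring
    linarith
  have h5 : 2 * (N : ℝ) / (r : ℝ) ^ 2 ≤ 2 * X / (r : ℝ) ^ 2 := by
    apply div_le_div_of_nonneg_right _ (by positivity)
    linarith
  have h6 : (r : ℝ) ^ 3 ≤ y ^ 3 := pow_le_pow_left₀ r0.le hr1 3
  have h7 : (0 : ℝ) < (r : ℝ) ^ 3 := by positivity
  nlinarith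

end SqUp
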